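import Pool.Agent.Lib.MP_354e85_al.L2C.Wd
import Pool.Agent.Lib.MP_354e85_al.L2B.Basic

/-! The sums of the right translations along a word, over the positions of one letter. -/

set_option autoImplicit false

namespace Pool.Agent.Lib.MP_354e85_al.L2C

open Finset L2B
open scoped InnerProductSpace

variable {G : Type} [Group G] {ι : Type} [Fintype ι]

/-- The mean of the right translations by the letters. -/
noncomputable def PR (s : ι → G) : L G →L[ℝ] L G :=
  (Fintype.card ι : ℝ)⁻¹ • ∑ i, (RR (s i)).toContinuousLinearMap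

/-- `AV s i l f` is the sum over the positions `k` of the word `l` with letter `i` of the right
translates `RR (pr s (l.take k)) f`. -/
noncomputable def AV [DecidableEq ι] (s : ι → G) (i : ι) : List ι → (L G →L[ℝ] L G)
  | [] => 0
  | j :: l => (if j = i then ContinuousLinearMap.id ℝ (L G) else 0) +
      (RR (s j)).toContinuousLinearMap ∘L AV s i l

omit [Fintype ι] in
theorem AV_nil [DecidableEq ι] (s : ι → G) (i : ι) (f : L G) : AV s i [] f = 0 := rfl

omit [Fintype ι] in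
theorem AV_cons [DecidableEq ι] (s : ι → G) (i j : ι) (l : List ι) (f : L G) :
    AV s i (j :: l) f = (if j = i then f else 0) + RR (s j) (AV s i l f) := by
  by_cases h : j = i
  · simp [AV, h]
  · simp [AV, h]

omit [Fintype ι] in
theorem AV_append [DecidableEq ι] (s : ι → G) (i : ι) (l l' : List ι) (f : L G) :
    AV s i (l ++ l') f = AV s i l f + RR (pr s l) (AV s i l' f) := by
  induction l with
  | nil =>
    have e : pr s ([] : List ι) = 1 := by simp [pr]
    rw [List.nil_append, AV_nil, zero_add, e, RR_one]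
  | cons j l ih =>
    have e : pr s (j :: l) = s j * pr s l := by simp [pr]
    rw [List.cons_append, AV_cons, AV_cons, ih, map_add, RR_RR, e, add_assoc]

omit [Fintype ι] in
theorem AV_length [DecidableEq ι] (s : ι → G) (i : ι) (l : List ι) (f : L G) :
    ‖AV s i l f‖ ≤ l.length * ‖f‖ := by
  induction l with
  | nil => simp [AV_nil]
  | cons j l ih =>
    rw [AV_cons]
    have h1 : ‖(if j = i then f else 0 : L G)‖ ≤ ‖f‖ := by
      by_cases h : j = i
      · simp [h]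
      · simp [h]
    have h2 : ‖RR (s j) (AV s i l f)‖ = ‖AV s i l f‖ := LinearIsometry.norm_map _ _
    calc ‖(if j = i then f else 0) + RR (s j) (AV s i l f)‖
        ≤ ‖(if j = i then f else 0 : L G)‖ + ‖RR (s j) (AV s i l f)‖ := norm_add_le _ _
      _ ≤ ‖f‖ + l.length * ‖f‖ := by rw [h2]; exact add_le_add h1 ih
      _ = ((j :: l).length : ℝ) * ‖f‖ := by
        rw [List.length_cons]; push_cast; ring

private theorem PR_apply (s : ι → G) (f : L G) :
    PR s f = (Fintype.card ι : ℝ)⁻¹ • ∑ j, RR (s j) f := by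
  simp [PR]

private theorem m_succ [Nonempty ι] [DecidableEq ι] (s : ι → G) (i : ι) (n : ℕ) (f : L G) :
    EL (n + 1) (fun w => AV s i w f) =
      (Fintype.card ι : ℝ)⁻¹ • f + PR s (EL n (fun w => AV s i w f)) := by
  rw [EL_succ, PR_apply, ← smul_add]
  congr 1
  have h1 : ∀ j : ι, EL n (fun l => AV s i (j :: l) f) =
      (if j = i then f else 0) + RR (s j) (EL n (fun w => AV s i w f)) := by
    intro j
    have e : (fun l => AV s i (j :: l) f) =
        fun l => (fun _ : List ι => (if j = i then f else 0 : L G)) l +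
          (fun l => RR (s j) (AV s i l f)) l := by
      funext l
      exact AV_cons s i j l f
    rw [e, EL_add, EL_const]
    congr 1
    exact (EL_map n (RR (s j)).toLinearMap (fun l => AV s i l f)).symm
  simp only [h1]
  rw [Finset.sum_add_distrib, Finset.sum_ite_eq' Finset.univ i (fun _ => f)]
  simp

private theorem m_le [Nonempty ι] [DecidableEq ι] (s : ι → G) {r : ℝ} (hr0 : 0 ≤ r) (hr1 : r < 1)
    (hr : ∀ f : L G, ‖PR s f‖ ≤ r * ‖f‖) (i : ι) (n : ℕ) (f : L G) :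
    ‖EL n (fun w => AV s i w f)‖ ≤ ‖f‖ / (1 - r) := by
  have h0 : 0 < 1 - r := by linarith
  induction n with
  | zero =>
    rw [EL_zero, AV_nil, norm_zero]
    positivity
  | succ n ih =>
    rw [m_succ]
    have hq : (Fintype.card ι : ℝ)⁻¹ ≤ 1 := by
      apply inv_le_one_of_one_le₀
      exact_mod_cast Fintype.card_pos
    have hq0 : 0 ≤ (Fintype.card ι : ℝ)⁻¹ := by positivity
    have h1 : ‖(Fintype.card ι : ℝ)⁻¹ • f‖ ≤ ‖f‖ := by
      rw [norm_smul, Real.norm_of_nonneg hq0]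
      exact mul_le_of_le_one_left (norm_nonneg _) hq
    have h2 := hr (EL n (fun w => AV s i w f))
    have h3 : r * ‖EL n (fun w => AV s i w f)‖ ≤ r * (‖f‖ / (1 - r)) :=
      mul_le_mul_of_nonneg_left ih hr0
    have h4 : ‖f‖ + r * (‖f‖ / (1 - r)) = ‖f‖ / (1 - r) := by
      field_simp
      ring
    calc ‖(Fintype.card ι : ℝ)⁻¹ • f + PR s (EL n (fun w => AV s i w f))‖
        ≤ ‖(Fintype.card ι : ℝ)⁻¹ • f‖ + ‖PR s (EL n (fun w => AV s i w f))‖ := norm_add_le _ _
      _ ≤ ‖f‖ + r * (‖f‖ / (1 - r)) := by linarith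
      _ = _ := h4

/-- One window. `m n = EL n (fun w => AV s i w f)` satisfies `m (n+1) = q⁻¹ f + PR (m n)`, so
`‖m n‖ ≤ ‖f‖ / (1 - r)`; `a n = EL n (fun w => ‖AV s i w f‖ ^ 2)` satisfies
`a (n+1) = q⁻¹ ‖f‖ ^ 2 + 2 q⁻¹ ⟪f, RR (s i) (m n)⟫ + a n`. -/
theorem AV_sq [Nonempty ι] [DecidableEq ι] (s : ι → G) {r : ℝ} (hr0 : 0 ≤ r) (hr1 : r < 1)
    (hr : ∀ f : L G, ‖PR s f‖ ≤ r * ‖f‖) (i : ι) (n : ℕ) (f : L G) :
    EL n (fun w => ‖AV s i w f‖ ^ 2) ≤ 3 / (1 - r) * n * ‖f‖ ^ 2 := by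
  have h0 : 0 < 1 - r := by linarith
  have hq : (Fintype.card ι : ℝ)⁻¹ ≤ 1 := by
    apply inv_le_one_of_one_le₀
    exact_mod_cast Fintype.card_pos
  have hq0 : 0 ≤ (Fintype.card ι : ℝ)⁻¹ := by positivity
  have hq1 : (Fintype.card ι : ℝ) ≠ 0 := by
    exact_mod_cast Fintype.card_ne_zero
  induction n with
  | zero =>
    rw [EL_zero, AV_nil]
    simp
  | succ n ih =>
    -- one letter
    have h1 : ∀ j : ι, EL n (fun l => ‖AV s i (j :: l) f‖ ^ 2) =
        (if j = i then ‖f‖ ^ 2 + 2 * ⟪f, RR (s i) (EL n (fun w => AV s i w f))⟫_ℝ else 0) +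
          EL n (fun w => ‖AV s i w f‖ ^ 2) := by
      intro j
      by_cases hj : j = i
      · subst hj
        rw [if_pos rfl]
        have e : (fun l => ‖AV s j (j :: l) f‖ ^ 2) =
            fun l => ((fun _ : List ι => ‖f‖ ^ 2) l +
              (fun l => (2 : ℝ) • ((innerSL ℝ f).toLinearMap ∘ₗ (RR (s j)).toLinearMap)
                (AV s j l f)) l) + (fun l => ‖AV s j l f‖ ^ 2) l := by
          funext l
          rw [AV_cons, if_pos rfl, norm_add_sq_real, LinearIsometry.norm_map]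
          rfl
        rw [e, EL_add, EL_add, EL_const, EL_smul, ← EL_map]
        rfl
      · rw [if_neg hj, zero_add]
        congr 1
        funext l
        rw [AV_cons, if_neg hj, zero_add, LinearIsometry.norm_map]
    have h2 : EL (n + 1) (fun w => ‖AV s i w f‖ ^ 2) =
        (Fintype.card ι : ℝ)⁻¹ * (‖f‖ ^ 2 + 2 * ⟪f, RR (s i) (EL n (fun w => AV s i w f))⟫_ℝ) +
          EL n (fun w => ‖AV s i w f‖ ^ 2) := by
      rw [EL_succ]
      simp only [h1]
      rw [Finset.sum_add_distrib, Finset.sum_ite_eq' Finset.univ i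
        (fun _ => ‖f‖ ^ 2 + 2 * ⟪f, RR (s i) (EL n (fun w => AV s i w f))⟫_ℝ)]
      simp only [Finset.mem_univ, if_true, Finset.sum_const, Finset.card_univ, nsmul_eq_mul,
        smul_eq_mul, mul_add]
      rw [← mul_assoc (Fintype.card ι : ℝ)⁻¹ (Fintype.card ι : ℝ), inv_mul_cancel₀ hq1, one_mul]
    have h3 : ⟪f, RR (s i) (EL n (fun w => AV s i w f))⟫_ℝ ≤ ‖f‖ * (‖f‖ / (1 - r)) := by
      calc ⟪f, RR (s i) (EL n (fun w => AV s i w f))⟫_ℝ
          ≤ ‖f‖ * ‖RR (s i) (EL n (fun w => AV s i w f))‖ := real_inner_le_norm _ _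
        _ = ‖f‖ * ‖EL n (fun w => AV s i w f)‖ := by rw [LinearIsometry.norm_map]
        _ ≤ _ := mul_le_mul_of_nonneg_left (m_le s hr0 hr1 hr i n f) (norm_nonneg _)
    have h4 : ‖f‖ * (‖f‖ / (1 - r)) = 1 / (1 - r) * ‖f‖ ^ 2 := by ring
    have h5 : ‖f‖ ^ 2 ≤ 1 / (1 - r) * ‖f‖ ^ 2 := by
      have : 1 ≤ 1 / (1 - r) := by
        rw [le_div_iff₀ h0]; linarith
      nlinarith [sq_nonneg ‖f‖]
    have h6 : ‖f‖ ^ 2 + 2 * ⟪f, RR (s i) (EL n (fun w => AV s i w f))⟫_ℝ ≤
        3 / (1 - r) * ‖f‖ ^ 2 := by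
      have e3 : 3 / (1 - r) * ‖f‖ ^ 2 = 3 * (1 / (1 - r) * ‖f‖ ^ 2) := by ring
      rw [e3]
      linarith
    have h7 : 0 ≤ 3 / (1 - r) * ‖f‖ ^ 2 := by positivity
    have h8 : (Fintype.card ι : ℝ)⁻¹ *
        (‖f‖ ^ 2 + 2 * ⟪f, RR (s i) (EL n (fun w => AV s i w f))⟫_ℝ) ≤
        3 / (1 - r) * ‖f‖ ^ 2 :=
      (mul_le_mul_of_nonneg_left h6 hq0).trans (mul_le_of_le_one_left h7 hq)
    rw [h2]
    push_cast
    nlinarith [h8, ih]

end Pool.Agent.Lib.MP_354e85_al.L2C
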