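import Pool.Agent.Lib.MP_354e85_al.L2C.AV
import Pool.Agent.Lib.MP_354e85_al.L2B.Av

/-! The averaging lemma: along a typical word the sums `AV s i l` have small operator norm. -/

set_option autoImplicit false

namespace Pool.Agent.Lib.MP_354e85_al.L2C

open Finset L2B
open scoped InnerProductSpace

variable {G : Type} [Group G] {ι : Type} [Fintype ι]

/-- The sum of the operator norms. -/
noncomputable def mu [DecidableEq ι] (s : ι → G) (l : List ι) : ℝ := ∑ i, ‖AV s i l‖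

private theorem EL_eq {κ : Type} [Fintype κ] {V : Type*} [AddCommGroup V] [Module ℝ V] (n : ℕ)
    (F : List κ → V) : EL n F = Av κ n F := by
  induction n generalizing F with
  | zero => rfl
  | succ n ih =>
    rw [EL_succ, Av_succ]
    congr 1
    exact sum_congr rfl fun i _ => ih _

omit [Group G] in
theorem dev_sq {κ : Type} [Fintype κ] [Nonempty κ] [DecidableEq κ] (w : κ) (N : ℕ) :
    EL N (fun l : List κ => ((l.count w : ℝ) - N * (Fintype.card κ : ℝ)⁻¹) ^ 2) ≤ N := by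
  rw [EL_eq]
  have hq : (0 : ℝ) < Fintype.card κ := by exact_mod_cast Fintype.card_pos
  have h := Av_count κ w N 0
  simp only [zero_add] at h
  rw [h]
  have hp1 : (Fintype.card κ : ℝ)⁻¹ ≤ 1 := by
    apply inv_le_one_of_one_le₀
    exact_mod_cast Fintype.card_pos
  have hN : (0 : ℝ) ≤ N := Nat.cast_nonneg _
  nlinarith [sq_nonneg ((Fintype.card κ : ℝ)⁻¹)]

theorem mu_nonneg [DecidableEq ι] (s : ι → G) (l : List ι) : 0 ≤ mu s l :=
  sum_nonneg fun _ _ => norm_nonneg _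

theorem mu_append [DecidableEq ι] (s : ι → G) (l l' : List ι) :
    mu s (l ++ l') ≤ mu s l + mu s l' := by
  unfold mu
  rw [← sum_add_distrib]
  refine sum_le_sum fun i _ => ?_
  refine ContinuousLinearMap.opNorm_le_bound _ (by positivity) fun f => ?_
  rw [AV_append, add_mul]
  refine (norm_add_le _ _).trans ?_
  rw [LinearIsometry.norm_map]
  exact add_le_add ((AV s i l).le_opNorm f) ((AV s i l').le_opNorm f)

theorem mu_length [DecidableEq ι] (s : ι → G) (l : List ι) :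
    mu s l ≤ Fintype.card ι * l.length := by
  unfold mu
  have h : ∀ i ∈ (univ : Finset ι), ‖AV s i l‖ ≤ (l.length : ℝ) := fun i _ =>
    ContinuousLinearMap.opNorm_le_bound _ (Nat.cast_nonneg _) fun f => AV_length s i l f
  refine (sum_le_sum h).trans ?_
  rw [sum_const, card_univ, nsmul_eq_mul]

private theorem EL_mul {κ : Type} [Fintype κ] (n : ℕ) (c : ℝ) (F : List κ → ℝ) :
    EL n (fun l => c * F l) = c * EL n F := EL_smul n c F

omit [Fintype ι] in
private theorem AV_flatten [DecidableEq ι] (s : ι → G) (i : ι) (τ : List (List ι)) (f : L G) :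
    ‖AV s i τ.flatten f‖ ≤ (τ.map fun w => ‖AV s i w f‖).sum := by
  induction τ with
  | nil => simp [AV_nil]
  | cons w τ ih =>
    rw [List.flatten_cons, AV_append, List.map_cons, List.sum_cons]
    refine (norm_add_le _ _).trans ?_
    rw [LinearIsometry.norm_map]
    linarith

/-- The bound of `‖AV s i ·‖` on a word cut into windows. -/
private theorem AV_win [Nonempty ι] [DecidableEq ι] (s : ι → G) {r : ℝ} (hr0 : 0 ≤ r) (hr1 : r < 1)
    (hr : ∀ f : L G, ‖PR s f‖ ≤ r * ‖f‖) (i : ι) (l N : ℕ) (τ : List (Fin l → ι)) :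
    ‖AV s i (τ.map List.ofFn).flatten‖ ≤
      N * Real.sqrt (3 / (1 - r) * l) + l * ∑ w : Fin l → ι,
        |((τ.count w : ℕ) : ℝ) - N * (Fintype.card (Fin l → ι) : ℝ)⁻¹| := by
  have h0 : 0 < 1 - r := by linarith
  have hcard : (Fintype.card (Fin l → ι) : ℝ) = (Fintype.card ι : ℝ) ^ l := by
    rw [Fintype.card_fun, Fintype.card_fin]
    push_cast
    rfl
  have hC : 0 ≤ 3 / (1 - r) * (l : ℝ) := by positivity
  refine ContinuousLinearMap.opNorm_le_bound _ (by positivity) fun ψ => ?_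
  refine (AV_flatten s i _ ψ).trans ?_
  rw [List.map_map]
  change (τ.map fun w => ‖AV s i (List.ofFn w) ψ‖).sum ≤ _
  rw [count_sum]
  set p : ℝ := (Fintype.card (Fin l → ι) : ℝ)⁻¹ with hp
  have hp0 : 0 ≤ p := by positivity
  have h1 : ∀ w : Fin l → ι, ((τ.count w : ℕ) : ℝ) * ‖AV s i (List.ofFn w) ψ‖ ≤
      N * (p * ‖AV s i (List.ofFn w) ψ‖) + (l * |((τ.count w : ℕ) : ℝ) - N * p|) * ‖ψ‖ := by
    intro w
    have h2 := AV_length s i (List.ofFn w) ψ
    rw [List.length_ofFn] at h2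
    have h3 : (((τ.count w : ℕ) : ℝ) - N * p) * ‖AV s i (List.ofFn w) ψ‖ ≤
        |((τ.count w : ℕ) : ℝ) - N * p| * (l * ‖ψ‖) :=
      (mul_le_mul_of_nonneg_right (le_abs_self _) (norm_nonneg _)).trans
        (mul_le_mul_of_nonneg_left h2 (abs_nonneg _))
    nlinarith
  refine (sum_le_sum fun w _ => h1 w).trans ?_
  rw [sum_add_distrib, ← mul_sum, ← sum_mul, ← mul_sum, ← mul_sum, add_mul]
  have h4 : p * ∑ w : Fin l → ι, ‖AV s i (List.ofFn w) ψ‖ ≤
      Real.sqrt (3 / (1 - r) * l) * ‖ψ‖ := by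
    have h5 : p * ∑ w : Fin l → ι, ‖AV s i (List.ofFn w) ψ‖ = EL l (fun v => ‖AV s i v ψ‖) := by
      rw [EL_fin, smul_eq_mul, hp, hcard, inv_pow]
    rw [h5]
    have h6 := EL_sq l (fun v => ‖AV s i v ψ‖)
    have h7 := AV_sq s hr0 hr1 hr i l ψ
    have h8 : (EL l (fun v => ‖AV s i v ψ‖)) ^ 2 ≤
        (Real.sqrt (3 / (1 - r) * l) * ‖ψ‖) ^ 2 := by
      rw [mul_pow, Real.sq_sqrt hC]
      exact h6.trans h7
    exact le_of_sq_le_sq h8 (by positivity)
  have h9 : (N : ℝ) * (p * ∑ w : Fin l → ι, ‖AV s i (List.ofFn w) ψ‖) ≤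
      N * Real.sqrt (3 / (1 - r) * l) * ‖ψ‖ := by
    rw [mul_assoc]
    exact mul_le_mul_of_nonneg_left h4 (Nat.cast_nonneg _)
  linarith

private theorem mean_one [Nonempty ι] [DecidableEq ι] (s : ι → G) {r : ℝ} (hr0 : 0 ≤ r)
    (hr1 : r < 1) (hr : ∀ f : L G, ‖PR s f‖ ≤ r * ‖f‖) (i : ι) {ε : ℝ} (hε : 0 < ε) :
    ∃ n0 : ℕ, ∀ n, n0 ≤ n → EL n (fun l => ‖AV s i l‖) ≤ ε * n := by
  classical
  have h0 : 0 < 1 - r := by linarith
  set C : ℝ := 3 / (1 - r) with hC
  have hC0 : 0 < C := by positivity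
  -- choice of the length of the windows
  obtain ⟨l, hl⟩ := exists_nat_gt (16 * C / ε ^ 2 + 1)
  have hl1 : (1 : ℝ) < l := by
    have : 0 ≤ 16 * C / ε ^ 2 := by positivity
    linarith
  have hl0 : (0 : ℝ) < l := by linarith
  have hlC : 16 * C ≤ l * ε ^ 2 := by
    have h1 : 16 * C / ε ^ 2 < l := by linarith
    rw [div_lt_iff₀ (by positivity)] at h1
    exact h1.le
  have hsq : Real.sqrt (C * l) ≤ l * ε / 4 := by
    rw [Real.sqrt_le_left (by positivity)]
    nlinarith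
  set k : ℝ := (Fintype.card (Fin l → ι) : ℝ) with hk
  have hk0 : 0 ≤ k := Nat.cast_nonneg _
  have hlk0 : 0 ≤ (l : ℝ) * k := by positivity
  obtain ⟨n1, hn1⟩ := exists_nat_gt (16 * (l * k) ^ 2 / ε ^ 2 + 4 * l / ε + 1)
  refine ⟨n1, fun n hn => ?_⟩
  have hn' : 16 * (l * k) ^ 2 / ε ^ 2 + 4 * l / ε + 1 < (n : ℝ) :=
    hn1.trans_le (by exact_mod_cast hn)
  have hA : 0 ≤ 16 * (l * k) ^ 2 / ε ^ 2 := by positivity
  have hB : 0 ≤ 4 * (l : ℝ) / ε := by positivity
  have hn0 : (0 : ℝ) < n := by linarith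
  have hnat : 0 < l := by
    rcases Nat.eq_zero_or_pos l with h | h
    · rw [h] at hl0
      simp at hl0
    · exact h
  set N := n / l with hN
  have hsplit : n = N * l + n % l := (Nat.div_add_mod' n l).symm
  have hrem : n % l < l := Nat.mod_lt _ hnat
  rw [hsplit, EL_append]
  have h1 : EL (N * l) (fun v => EL (n % l) (fun v' => ‖AV s i (v ++ v')‖)) ≤
      EL (N * l) (fun v => ‖AV s i v‖ + l) := by
    refine EL_mono _ fun v _ => ?_
    have h2 : EL (n % l) (fun v' => ‖AV s i (v ++ v')‖) ≤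
        EL (n % l) (fun _ : List ι => ‖AV s i v‖ + l) := by
      refine EL_mono _ fun v' hv' => ?_
      refine ContinuousLinearMap.opNorm_le_bound _ (by positivity) fun ψ => ?_
      rw [AV_append]
      refine (norm_add_le _ _).trans ?_
      rw [LinearIsometry.norm_map, add_mul]
      have h3 := (AV s i v).le_opNorm ψ
      have h4 := AV_length s i v' ψ
      have h5 : ((v'.length : ℕ) : ℝ) * ‖ψ‖ ≤ l * ‖ψ‖ := by
        refine mul_le_mul_of_nonneg_right ?_ (norm_nonneg _)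
        rw [hv']
        exact_mod_cast hrem.le
      linarith
    rwa [EL_const] at h2
  refine h1.trans ?_
  rw [EL_add (N * l) (fun v => ‖AV s i v‖) (fun _ => (l : ℝ)), EL_const, EL_block]
  have h6 : EL N (fun τ : List (Fin l → ι) => ‖AV s i (τ.map List.ofFn).flatten‖) ≤
      N * Real.sqrt (C * l) + l * (k * Real.sqrt N) := by
    refine (EL_mono N fun τ _ => AV_win s hr0 hr1 hr i l N τ).trans ?_
    rw [EL_add N (fun _ : List (Fin l → ι) => N * Real.sqrt (C * l))
      (fun τ => l * ∑ w : Fin l → ι,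
        |((τ.count w : ℕ) : ℝ) - N * (Fintype.card (Fin l → ι) : ℝ)⁻¹|), EL_const, EL_mul, EL_sum]
    refine add_le_add le_rfl (mul_le_mul_of_nonneg_left ?_ hl0.le)
    refine (sum_le_sum fun w _ => ?_ : _ ≤ ∑ _w : Fin l → ι, Real.sqrt N).trans ?_
    · rw [EL_eq]
      exact Av_dev (Fin l → ι) w N
    · rw [sum_const, card_univ, nsmul_eq_mul]
  have h7 : (l : ℝ) * N ≤ n := by
    have : l * N ≤ n := Nat.mul_div_le n l
    exact_mod_cast this
  have hN0 : (0 : ℝ) ≤ N := Nat.cast_nonneg _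
  have h8 : (N : ℝ) * Real.sqrt (C * l) ≤ ε / 4 * n := by
    have h9 := mul_le_mul_of_nonneg_left hsq hN0
    nlinarith
  have h9 : Real.sqrt N ≤ Real.sqrt n := by
    apply Real.sqrt_le_sqrt
    exact_mod_cast Nat.div_le_self n l
  have h10 : (l : ℝ) * (k * Real.sqrt N) ≤ ε / 4 * n := by
    have h11 : (l * k) * Real.sqrt n ≤ ε / 4 * n := by
      have h12 : (l : ℝ) * k ≤ ε / 4 * Real.sqrt n := by
        have h13 : ((l : ℝ) * k) ^ 2 ≤ (ε / 4 * Real.sqrt n) ^ 2 := by
          rw [mul_pow (ε / 4), Real.sq_sqrt hn0.le]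
          have h14 : 16 * ((l : ℝ) * k) ^ 2 / ε ^ 2 ≤ n := by linarith
          rw [div_le_iff₀ (by positivity)] at h14
          nlinarith
        exact le_of_sq_le_sq h13 (by positivity)
      have h15 := mul_le_mul_of_nonneg_right h12 (Real.sqrt_nonneg (n : ℝ))
      have h16 : Real.sqrt n * Real.sqrt n = n := Real.mul_self_sqrt hn0.le
      nlinarith
    have h17 := mul_le_mul_of_nonneg_left h9 hlk0
    nlinarith
  have h11 : (l : ℝ) ≤ ε / 4 * n := by
    have h12 : 4 * (l : ℝ) / ε ≤ n := by linarith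
    rw [div_le_iff₀ hε] at h12
    linarith
  rw [← hsplit]
  have h18 : 0 ≤ ε * (n : ℝ) := by positivity
  linarith

/-- Along a typical word the sum of the operator norms of the `AV s i l` is `o(n)`. -/
theorem mean_mu [Nonempty ι] [DecidableEq ι] (s : ι → G) {r : ℝ} (hr0 : 0 ≤ r) (hr1 : r < 1)
    (hr : ∀ f : L G, ‖PR s f‖ ≤ r * ‖f‖) {ε : ℝ} (hε : 0 < ε) :
    ∃ n0 : ℕ, ∀ n, n0 ≤ n → EL n (mu s) ≤ ε * n := by
  classical
  have hq : (0 : ℝ) < Fintype.card ι := by exact_mod_cast Fintype.card_pos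
  have h := fun i => mean_one s hr0 hr1 hr i (ε := ε / Fintype.card ι) (by positivity)
  choose n0 hn0 using h
  refine ⟨∑ i, n0 i, fun n hn => ?_⟩
  have e : EL n (mu s) = ∑ i, EL n (fun l => ‖AV s i l‖) := EL_sum n univ _
  rw [e]
  have h1 : ∀ i ∈ (univ : Finset ι), EL n (fun l => ‖AV s i l‖) ≤ ε / Fintype.card ι * n :=
    fun i _ => hn0 i n ((single_le_sum (f := n0) (fun _ _ => Nat.zero_le _) (mem_univ i)).trans hn)
  refine (sum_le_sum h1).trans (le_of_eq ?_)
  rw [sum_const, card_univ, nsmul_eq_mul]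
  field_simp

end Pool.Agent.Lib.MP_354e85_al.L2C
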