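import Pool.Agent.Lib.MP_354e85_al.L2C.PairC
import Pool.Agent.Lib.MP_354e85_al.L2C.Off

/-! Blocks: the coefficient function of a product of `K` blocks. -/

set_option autoImplicit false

namespace Pool.Agent.Lib.MP_354e85_al.L2C

open Finset L2B
open scoped InnerProductSpace

variable {G : Type} [Group G] {ι : Type} [Fintype ι]

/-- The near part (each block with itself), off the unit element; blocks of length `m`. -/
noncomputable def NN (s : ι → G) (u : G → L (ι × G)) (m : ℕ) : ℕ → List ι → L G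
  | 0, _ => 0
  | K + 1, l => NN s u m K (l.take (K * m)) +
      CJ (pr s (l.take (K * m))) (off (cc s u (pr s (l.drop (K * m)))))

/-- The bound for the far part (different blocks). -/
noncomputable def ff [DecidableEq ι] (s : ι → G) (u : G → L (ι × G)) (R m : ℕ) :
    ℕ → List ι → ℝ
  | 0, _ => 0
  | K + 1, l => 2 * ff s u R m K (l.take (K * m)) +
      8 * cf s R (u (pr s (l.take (K * m)))) (l.drop (K * m))

theorem ff_nonneg [DecidableEq ι] (s : ι → G) (u : G → L (ι × G)) (R m K : ℕ) (l : List ι) :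
    0 ≤ ff s u R m K l := by
  induction K generalizing l with
  | zero => exact le_rfl
  | succ K ih =>
    have h1 := ih (l.take (K * m))
    have h2 := cf_nonneg s R (u (pr s (l.take (K * m)))) (l.drop (K * m))
    show 0 ≤ 2 * ff s u R m K (l.take (K * m)) +
      8 * cf s R (u (pr s (l.take (K * m)))) (l.drop (K * m))
    positivity

variable {s : ι → G} {Z : Submodule ℝ (L (ι × G))} {u : G → L (ι × G)}

/-- `cc s u g z = ⟪lam z (u g), u g⟫`, `u (g * h) = u g + lam g⁻¹ (u h)` (`Rep.rep`, `Rep.mul`,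
`lam_inner` of Mom.lean). -/
theorem cc_split (hu : Rep s Z u) (g h z : G) :
    cc s u (g * h) z = cc s u g z + cc s u h (g⁻¹ * (z * g)) +
      (T s h (u g) (z * g) + T s h (u g) (z⁻¹ * g)) := by
  unfold cc
  rw [hu.rep _ (hu.mem _), hu.rep _ (hu.mem _), hu.rep _ (hu.mem _), hu.rep _ (hu.mem _),
    hu.rep _ (hu.mem _), hu.mul, map_add, inner_add_left, inner_add_right, inner_add_right]
  have h1 : ⟪lam z (u g), lam g⁻¹ (u h)⟫_ℝ = ⟪lam (z * g) (u g), u h⟫_ℝ := by
    rw [← lam_inner, lam_lam]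
  have h2 : ⟪lam z (lam g⁻¹ (u h)), u g⟫_ℝ = ⟪lam (z⁻¹ * g) (u g), u h⟫_ℝ := by
    rw [lam_lam, lam_inner, real_inner_comm, mul_inv_rev, inv_inv]
  have h3 : ⟪lam z (lam g⁻¹ (u h)), lam g⁻¹ (u h)⟫_ℝ =
      ⟪lam (g⁻¹ * (z * g)) (u h), u h⟫_ℝ := by
    rw [← lam_inner, lam_lam, lam_lam]
  rw [h1, h2, h3]
  ring

private theorem near_row (f : L G) (x : G) (B : Finset G) :
    ∑ y ∈ B, (f (x⁻¹ * y)) ^ 2 ≤ ‖f‖ ^ 2 := by
  have h1 := L_hasSum (LL x⁻¹ f)
  rw [LinearIsometry.norm_map] at h1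
  exact sum_le_hasSum B (fun _ _ => sq_nonneg _) h1

private theorem near_col (f : L G) (y : G) (A : Finset G) :
    ∑ x ∈ A, (f (x⁻¹ * y)) ^ 2 ≤ ‖f‖ ^ 2 := by
  have h1 := L_hasSum (cmp ((Equiv.inv G).trans (Equiv.mulRight y)) f)
  rw [LinearIsometry.norm_map] at h1
  exact sum_le_hasSum A (fun _ _ => sq_nonneg _) h1

private theorem near_bound (f : L G) (A B : Finset G) :
    ∑ x ∈ A, ∑ y ∈ B, (f (x⁻¹ * y)) ^ 2 ≤ ‖f‖ ^ 2 * √((A.card : ℝ) * (B.card : ℝ)) := by
  set S : ℝ := ∑ x ∈ A, ∑ y ∈ B, (f (x⁻¹ * y)) ^ 2 with hS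
  have hS0 : 0 ≤ S := sum_nonneg fun _ _ => sum_nonneg fun _ _ => sq_nonneg _
  have h1 : S ≤ A.card * ‖f‖ ^ 2 := by
    refine (sum_le_card_nsmul _ _ _ fun x _ => near_row f x B).trans (le_of_eq ?_)
    rw [nsmul_eq_mul]
  have h2 : S ≤ B.card * ‖f‖ ^ 2 := by
    rw [hS, sum_comm]
    refine (sum_le_card_nsmul _ _ _ fun y _ => near_col f y A).trans (le_of_eq ?_)
    rw [nsmul_eq_mul]
  have h3 : S ^ 2 ≤ (‖f‖ ^ 2 * √((A.card : ℝ) * (B.card : ℝ))) ^ 2 := by
    rw [mul_pow, Real.sq_sqrt (by positivity), sq S]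
    refine (mul_le_mul h1 h2 hS0 (by positivity)).trans (le_of_eq ?_)
    ring
  exact (pow_le_pow_iff_left₀ hS0 (by positivity) two_ne_zero).1 h3

private theorem far_one [DecidableEq ι] [DecidableEq G] (s : ι → G) (R : ℕ)
    (ω : L (ι × G)) (l : List ι) (g : G) (A B : Finset G) :
    ∑ x ∈ A, ∑ y ∈ B, (Tl s l ω (x⁻¹ * y * g)) ^ 2 ≤
      cf s R ω l * √((A.card : ℝ) * (B.card : ℝ)) := by
  have h1 := pair_conv s R ω l A (B.image fun y => y * g)
  rw [card_image_of_injective _ (mul_left_injective g)] at h1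
  refine le_trans (le_of_eq ?_) h1
  refine sum_congr rfl fun x _ => ?_
  rw [sum_image (fun a _ b _ h => mul_left_injective g h)]
  exact sum_congr rfl fun y _ => by rw [mul_assoc]

private theorem far_two [DecidableEq ι] [DecidableEq G] (s : ι → G) (R : ℕ)
    (ω : L (ι × G)) (l : List ι) (g : G) (A B : Finset G) :
    ∑ x ∈ A, ∑ y ∈ B, (Tl s l ω ((x⁻¹ * y)⁻¹ * g)) ^ 2 ≤
      cf s R ω l * √((A.card : ℝ) * (B.card : ℝ)) := by
  have h1 := far_one s R ω l g B A
  rw [mul_comm (B.card : ℝ)] at h1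
  rw [sum_comm]
  refine le_trans (le_of_eq ?_) h1
  refine sum_congr rfl fun y _ => sum_congr rfl fun x _ => ?_
  rw [mul_inv_rev, inv_inv]

private theorem key [DecidableEq ι] [DecidableEq G] (gen : ∀ g : G, ∃ l, pr s l = g)
    (hZ : Good s Z) (hu : Rep s Z u) (R m K : ℕ) (l : List ι) (hl : l.length = K * m) :
    ∃ F : G → ℝ, (∀ z, z ≠ 1 → cc s u (pr s l) z = NN s u m K l z + F z) ∧
      ∀ A B : Finset G, ∑ x ∈ A, ∑ y ∈ B, (F (x⁻¹ * y)) ^ 2 ≤
        ff s u R m K l * √((A.card : ℝ) * (B.card : ℝ)) := by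
  induction K generalizing l with
  | zero =>
    rw [Nat.zero_mul, List.length_eq_zero_iff] at hl
    subst hl
    refine ⟨fun _ => 0, fun z _ => ?_, fun A B => ?_⟩
    · have h1 : pr s ([] : List ι) = 1 := by simp [pr]
      rw [h1]
      unfold cc
      rw [u_one hu, map_zero]
      show (0 : L G) z = (0 : L G) z + 0
      rw [add_zero]
    · show _ ≤ (0 : ℝ) * _
      simp
  | succ K ih =>
    set a := l.take (K * m) with ha
    set b := l.drop (K * m) with hb
    have hla : a.length = K * m := by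
      rw [ha, List.length_take, hl, Nat.min_eq_left (Nat.mul_le_mul_right m (Nat.le_succ K))]
    obtain ⟨F, hF1, hF2⟩ := ih a hla
    have hpr : pr s l = pr s a * pr s b := by
      have h1 : l = a ++ b := (List.take_append_drop (K * m) l).symm
      rw [h1]
      simp [pr]
    have hNN : NN s u m (K + 1) l = NN s u m K a + CJ (pr s a) (off (cc s u (pr s b))) := rfl
    have hff : ff s u R m (K + 1) l = 2 * ff s u R m K a + 8 * cf s R (u (pr s a)) b := rfl
    refine ⟨fun z => F z + (Tl s b (u (pr s a)) (z * pr s a) +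
      Tl s b (u (pr s a)) (z⁻¹ * pr s a)), fun z hz => ?_, fun A B => ?_⟩
    · have hz' : (pr s a)⁻¹ * (z * pr s a) ≠ 1 := by
        intro h
        apply hz
        have h1 : z = pr s a * ((pr s a)⁻¹ * (z * pr s a)) * (pr s a)⁻¹ := by group
        rw [h1, h]
        group
      rw [hpr, cc_split hu, hF1 z hz, T_word gen hZ _ (hu.mem _), hNN, lp.coeFn_add,
        Pi.add_apply, CJ_apply, off_ne _ hz']
      ring
    · have h1 := hF2 A B
      have h2 := far_one s R (u (pr s a)) b (pr s a) A B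
      have h3 := far_two s R (u (pr s a)) b (pr s a) A B
      have h4 : ∀ p q r : ℝ, (p + (q + r)) ^ 2 ≤ 2 * p ^ 2 + (4 * q ^ 2 + 4 * r ^ 2) := by
        intro p q r
        nlinarith [sq_nonneg (p - (q + r)), sq_nonneg (q - r)]
      refine (sum_le_sum fun x _ => sum_le_sum fun y _ => h4 _ _ _).trans ?_
      simp only [sum_add_distrib, ← mul_sum]
      rw [hff]
      have h5 : (2 * ff s u R m K a + 8 * cf s R (u (pr s a)) b) *
          √((A.card : ℝ) * (B.card : ℝ)) = 2 * (ff s u R m K a * √((A.card : ℝ) * (B.card : ℝ))) +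
          (4 * (cf s R (u (pr s a)) b * √((A.card : ℝ) * (B.card : ℝ))) +
          4 * (cf s R (u (pr s a)) b * √((A.card : ℝ) * (B.card : ℝ)))) := by ring
      rw [h5]
      linarith

/-- Proof. Induction on `K`: there is `F : G → ℝ` with `cc s u (pr s l) z = NN s u m K l z + F z`
for `z ≠ 1` and `∑ x ∈ A, ∑ y ∈ B, F (x⁻¹ * y) ^ 2 ≤ ff s u R m K l * √(|A| |B|)` for all `A`, `B`.
Step: `l = a ++ b`, `cc_split` with `g = pr s a`, `h = pr s b`; `T s h (u g) = Tl s b (u g)`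
(`T_word`); `pair_conv` for `B g` instead of `B`, and with `A`, `B` exchanged for `z⁻¹`;
`(a + b + c) ^ 2 ≤ 2 a ^ 2 + 4 b ^ 2 + 4 c ^ 2`. The near part: for `x ∈ A`
`∑ y ∈ B, NN (x⁻¹ * y) ^ 2 ≤ ‖NN‖ ^ 2`, and the same for `y ∈ B`. -/
theorem self_bound [DecidableEq ι] [DecidableEq G] (gen : ∀ g : G, ∃ l, pr s l = g)
    (hZ : Good s Z) (hu : Rep s Z u) (R m K : ℕ) (l : List ι) (hl : l.length = K * m)
    (A B : Finset G) :
    ∑ x ∈ A, ∑ y ∈ B, (if x = y then 0 else (cc s u (pr s l) (x⁻¹ * y)) ^ 2) ≤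
      (2 * ‖NN s u m K l‖ ^ 2 + 2 * ff s u R m K l) * √((A.card : ℝ) * (B.card : ℝ)) := by
  obtain ⟨F, hF1, hF2⟩ := key gen hZ hu R m K l hl
  have h1 : ∀ x y : G, (if x = y then 0 else (cc s u (pr s l) (x⁻¹ * y)) ^ 2) ≤
      2 * (NN s u m K l (x⁻¹ * y)) ^ 2 + 2 * (F (x⁻¹ * y)) ^ 2 := by
    intro x y
    by_cases h : x = y
    · rw [if_pos h]
      positivity
    · rw [if_neg h, hF1 _ (fun h2 => h (inv_mul_eq_one.1 h2))]
      nlinarith [sq_nonneg (NN s u m K l (x⁻¹ * y) - F (x⁻¹ * y))]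
  refine (sum_le_sum fun x _ => sum_le_sum fun y _ => h1 x y).trans ?_
  simp only [sum_add_distrib, ← mul_sum]
  have h2 := near_bound (NN s u m K l) A B
  have h3 := hF2 A B
  rw [add_mul, mul_assoc, mul_assoc]
  linarith

end Pool.Agent.Lib.MP_354e85_al.L2C
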