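import Pool.Agent.Lib.MP_354e85_al.L2C.Blk

/-! The means of the near part and of the far bound. -/

set_option autoImplicit false

namespace Pool.Agent.Lib.MP_354e85_al.L2C

open Finset L2B
open scoped InnerProductSpace

variable {G : Type} [Group G] {ι : Type} [Fintype ι] {s : ι → G}
  {Z : Submodule ℝ (L (ι × G))} {u : G → L (ι × G)}

private theorem EL_split {V : Type*} [AddCommGroup V] [Module ℝ V] (K m : ℕ)
    (F : List ι → V) :
    EL ((K + 1) * m) F = EL (K * m) (fun a => EL m (fun b => F (a ++ b))) := by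
  rw [Nat.succ_mul]
  exact EL_append (K * m) m F

private theorem NN_app (m K : ℕ) (a b : List ι) (ha : a.length = K * m) :
    NN s u m (K + 1) (a ++ b) =
      NN s u m K a + CJ (pr s a) (off (cc s u (pr s b))) := by
  change NN s u m K ((a ++ b).take (K * m)) +
      CJ (pr s ((a ++ b).take (K * m))) (off (cc s u (pr s ((a ++ b).drop (K * m))))) = _
  rw [← ha, List.take_left, List.drop_left]

private theorem ff_app [DecidableEq ι] (R m K : ℕ) (a b : List ι) (ha : a.length = K * m) :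
    ff s u R m (K + 1) (a ++ b) = 2 * ff s u R m K a + 8 * cf s R (u (pr s a)) b := by
  change 2 * ff s u R m K ((a ++ b).take (K * m)) +
      8 * cf s R (u (pr s ((a ++ b).take (K * m)))) ((a ++ b).drop (K * m)) = _
  rw [← ha, List.take_left, List.drop_left]

private theorem mul_EL (n : ℕ) (c : ℝ) (F : List ι → ℝ) :
    EL n (fun l => c * F l) = c * EL n F := by
  have h := EL_smul n c F
  simpa only [smul_eq_mul] using h

/-- The first moment of the norm of one block. -/
private theorem mean_off [Nonempty ι] (m : ℕ) {C : ℝ}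
    (hC : EL m (fun b => ‖off (cc s u (pr s b))‖ ^ 2) ≤ C) :
    EL m (fun b => ‖off (cc s u (pr s b))‖) ≤ √C := by
  refine Real.le_sqrt_of_sq_le ?_
  exact (EL_sq m (fun b => ‖off (cc s u (pr s b))‖)).trans hC

/-- The first moment of the near part. -/
private theorem mean_NN1 [Nonempty ι] (m : ℕ) {C : ℝ}
    (hC : EL m (fun b => ‖off (cc s u (pr s b))‖ ^ 2) ≤ C) (K : ℕ) :
    EL (K * m) (fun l => ‖NN s u m K l‖) ≤ K * √C := by
  induction K with
  | zero =>
    have h : EL (0 * m) (fun l : List ι => ‖NN s u m 0 l‖) = 0 := by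
      have e : (fun l : List ι => ‖NN s u m 0 l‖) = fun _ => (0 : ℝ) := by
        funext l
        change ‖(0 : L G)‖ = 0
        exact norm_zero
      rw [e, EL_const]
    rw [h]
    simp
  | succ K ih =>
    rw [EL_split]
    have h1 : EL (K * m) (fun a => EL m (fun b => ‖NN s u m (K + 1) (a ++ b)‖)) ≤
        EL (K * m) (fun a => ‖NN s u m K a‖ + √C) := by
      refine EL_mono _ fun a ha => ?_
      have h2 : EL m (fun b => ‖NN s u m (K + 1) (a ++ b)‖) ≤
          EL m (fun b => ‖NN s u m K a‖ + ‖off (cc s u (pr s b))‖) := by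
        refine EL_mono _ fun b _ => ?_
        rw [NN_app m K a b ha]
        refine (norm_add_le _ _).trans ?_
        rw [LinearIsometry.norm_map]
      rw [EL_add, EL_const] at h2
      have h3 := mean_off m hC
      linarith
    rw [EL_add, EL_const] at h1
    push_cast
    linarith

/-- Proof. `e K = EL (K * m) (‖NN K‖ ^ 2)`: `EL_append (K * m) m`, on `a ++ b` with
`a.length = K * m`: `NN (K + 1) (a ++ b) = NN K a + CJ (pr s a) (off (cc (pr b)))`; the mean over
`b` of the mixed term is `2 ⟪NN K a, CJ (pr s a) (EL m ..)⟫ ≤ 2 ‖NN K a‖ θ` and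
`EL (K * m) ‖NN K‖ ≤ K √C`. So `e (K + 1) ≤ e K + 2 K √C θ + C`. -/
theorem mean_NN [Nonempty ι] (m : ℕ) {C θ : ℝ} (hC0 : 0 ≤ C) (hθ0 : 0 ≤ θ)
    (hC : EL m (fun b => ‖off (cc s u (pr s b))‖ ^ 2) ≤ C)
    (hθ : ‖EL m (fun b => off (cc s u (pr s b)))‖ ≤ θ) (K : ℕ) :
    EL (K * m) (fun l => ‖NN s u m K l‖ ^ 2) ≤ K * C + K ^ 2 * (√C * θ) := by
  induction K with
  | zero =>
    have h : EL (0 * m) (fun l : List ι => ‖NN s u m 0 l‖ ^ 2) = 0 := by
      have e : (fun l : List ι => ‖NN s u m 0 l‖ ^ 2) = fun _ => (0 : ℝ) := by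
        funext l
        change ‖(0 : L G)‖ ^ 2 = 0
        rw [norm_zero]
        norm_num
      rw [e, EL_const]
    rw [h]
    simp
  | succ K ih =>
    rw [EL_split]
    have h1 : EL (K * m) (fun a => EL m (fun b => ‖NN s u m (K + 1) (a ++ b)‖ ^ 2)) ≤
        EL (K * m) (fun a => (‖NN s u m K a‖ ^ 2 + (2 * θ) * ‖NN s u m K a‖) + C) := by
      refine EL_mono _ fun a ha => ?_
      set x := NN s u m K a with hx
      have h2 : EL m (fun b => ‖NN s u m (K + 1) (a ++ b)‖ ^ 2) =
          EL m (fun b => (‖x‖ ^ 2 + 2 * ⟪x, CJ (pr s a) (off (cc s u (pr s b)))⟫_ℝ) +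
            ‖off (cc s u (pr s b))‖ ^ 2) := by
        refine EL_congr _ fun b _ => ?_
        rw [NN_app m K a b ha, norm_add_sq_real, LinearIsometry.norm_map]
      rw [h2, EL_add, EL_add, EL_const, mul_EL]
      have h3 := EL_map m ((innerSL ℝ x).toLinearMap ∘ₗ (CJ (pr s a)).toLinearMap)
        (fun b => off (cc s u (pr s b)))
      simp only [LinearMap.coe_comp, Function.comp_apply, ContinuousLinearMap.coe_coe,
        innerSL_apply_apply] at h3
      change ⟪x, CJ (pr s a) (EL m (fun b => off (cc s u (pr s b))))⟫_ℝ =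
        EL m (fun b => ⟪x, CJ (pr s a) (off (cc s u (pr s b)))⟫_ℝ) at h3
      rw [← h3]
      have h4 : ⟪x, CJ (pr s a) (EL m (fun b => off (cc s u (pr s b))))⟫_ℝ ≤ ‖x‖ * θ := by
        refine (real_inner_le_norm _ _).trans ?_
        rw [LinearIsometry.norm_map]
        exact mul_le_mul_of_nonneg_left hθ (norm_nonneg _)
      linarith
    rw [EL_add, EL_add, EL_const, mul_EL] at h1
    have h5 := mean_NN1 m hC K
    have h6 : (2 * θ) * EL (K * m) (fun l => ‖NN s u m K l‖) ≤ (2 * θ) * (K * √C) :=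
      mul_le_mul_of_nonneg_left h5 (by linarith)
    have h7 : 0 ≤ √C * θ := mul_nonneg (Real.sqrt_nonneg _) hθ0
    push_cast
    nlinarith

/-- Proof. `e K = EL (K * m) (ff K)`: `e (K + 1) ≤ 2 e K + 8 * ε * m * EL (K * m) (‖u (pr a)‖ ^ 2)`
and `EL (K * m) (‖u (pr a)‖ ^ 2) = K * m * (dm Z / card ι)` (`EL_W`, `mom1`). -/
theorem mean_ff [Nonempty ι] [DecidableEq ι] (hu : Rep s Z u) (R m : ℕ) {ε : ℝ} (hε : 0 ≤ ε)
    (hcf : ∀ ω : L (ι × G), EL m (cf s R ω) ≤ ε * m * ‖ω‖ ^ 2) (K : ℕ) :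
    EL (K * m) (ff s u R m K) ≤
      8 * 2 ^ K * K * (ε * m ^ 2 * (dm Z / Fintype.card ι)) := by
  have hd : 0 ≤ dm Z := by
    rw [hu.dm_eq]
    exact Finset.sum_nonneg fun i _ => sq_nonneg _
  have hD : 0 ≤ ε * m ^ 2 * (dm Z / Fintype.card ι) := by positivity
  induction K with
  | zero =>
    have h : EL (0 * m) (ff s u R m 0) = 0 := by
      have e : (ff s u R m 0 : List ι → ℝ) = fun _ => (0 : ℝ) := by
        funext l
        rfl
      rw [e, EL_const]
    rw [h]
    simp
  | succ K ih =>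
    rw [EL_split]
    have h1 : EL (K * m) (fun a => EL m (fun b => ff s u R m (K + 1) (a ++ b))) ≤
        EL (K * m) (fun a => 2 * ff s u R m K a + (8 * (ε * m)) * ‖u (pr s a)‖ ^ 2) := by
      refine EL_mono _ fun a ha => ?_
      have h2 : EL m (fun b => ff s u R m (K + 1) (a ++ b)) =
          EL m (fun b => 2 * ff s u R m K a + 8 * cf s R (u (pr s a)) b) :=
        EL_congr _ fun b _ => ff_app R m K a b ha
      rw [h2, EL_add, EL_const, mul_EL]
      have h3 := hcf (u (pr s a))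
      have h4 : EL m (fun b => cf s R (u (pr s a)) b) ≤ ε * m * ‖u (pr s a)‖ ^ 2 := h3
      linarith
    rw [EL_add, mul_EL, mul_EL] at h1
    have h5 : EL (K * m) (fun a => ‖u (pr s a)‖ ^ 2) =
        ((K * m : ℕ) : ℝ) * (dm Z / Fintype.card ι) := by
      have h6 := EL_W s (K * m) (fun g => ‖u g‖ ^ 2)
      rw [h6]
      exact mom1 hu (K * m)
    rw [h5] at h1
    have h7 : EL (K * m) (fun l => ff s u R m K l) ≤
        8 * 2 ^ K * K * (ε * m ^ 2 * (dm Z / Fintype.card ι)) := ih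
    have h8 : (8 * (ε * m)) * (((K * m : ℕ) : ℝ) * (dm Z / Fintype.card ι)) =
        8 * K * (ε * m ^ 2 * (dm Z / Fintype.card ι)) := by
      push_cast
      ring
    rw [h8] at h1
    have h9 : (K : ℝ) ≤ 2 ^ K := by
      exact_mod_cast (Nat.lt_two_pow_self (n := K)).le
    have h10 : (8 * (K : ℝ)) * (ε * m ^ 2 * (dm Z / Fintype.card ι)) ≤
        (8 * 2 ^ K) * (ε * m ^ 2 * (dm Z / Fintype.card ι)) :=
      mul_le_mul_of_nonneg_right (by linarith) hD
    have h11 : 0 ≤ (8 * (2 : ℝ) ^ K) * (ε * m ^ 2 * (dm Z / Fintype.card ι)) := by positivity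
    have h12 : (8 * (2 : ℝ) ^ (K + 1) * ((K + 1 : ℕ) : ℝ)) *
        (ε * m ^ 2 * (dm Z / Fintype.card ι)) =
        2 * (8 * 2 ^ K * K * (ε * m ^ 2 * (dm Z / Fintype.card ι))) +
          2 * ((8 * 2 ^ K) * (ε * m ^ 2 * (dm Z / Fintype.card ι))) := by
      push_cast
      ring
    rw [h12]
    linarith

end Pool.Agent.Lib.MP_354e85_al.L2C
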