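import Pool.Agent.Lib.MP_354e85_al.L2C.Avg

/-! Square of a sum along a word: the near pairs and the far pairs. -/

set_option autoImplicit false

namespace Pool.Agent.Lib.MP_354e85_al.L2C

open Finset L2B
open scoped InnerProductSpace

variable {G : Type} [Group G] {ι : Type}

/-- `Vl s D l x = ∑ k, D (l k) (x * pr s (l.take k))`. -/
noncomputable def Vl (s : ι → G) (D : ι → L G) : List ι → L G
  | [] => 0
  | j :: l => D j + RR (s j) (Vl s D l)

/-- The terms of `Vl` with position at least `R`. -/
noncomputable def Vd (s : ι → G) (D : ι → L G) (R : ℕ) (l : List ι) : L G :=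
  RR (pr s (l.take R)) (Vl s D (l.drop R))

/-- Twice the sum of the inner products over the pairs of positions at distance more than `R`. -/
noncomputable def La (s : ι → G) (D : ι → L G) (R : ℕ) : List ι → ℝ
  | [] => 0
  | j :: l => 2 * ⟪D j, RR (s j) (Vd s D R l)⟫_ℝ + La s D R l

end Pool.Agent.Lib.MP_354e85_al.L2C
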