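import Pool.Agent.Lib.MP_354e85_al.L2C.Cut

/-! The convolution bound. -/

set_option autoImplicit false

namespace Pool.Agent.Lib.MP_354e85_al.L2C

open Finset L2B
open scoped InnerProductSpace

variable {G : Type} [Group G] {ι : Type}

/-- the sum of the squares of the terms -/
private def Sq (s : ι → G) (D : ι → G → ℝ) : List ι → G → ℝ
  | [], _ => 0
  | j :: l, z => D j z + Sq s D l (z * s j)

/-- the sum of the squares of the first `n` terms -/
private def Tk (s : ι → G) (D : ι → L G) : ℕ → List ι → G → ℝ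
  | 0, _, _ => 0
  | _ + 1, [], _ => 0
  | n + 1, j :: l, z => (D j z) ^ 2 + Tk s D n l (z * s j)

/-- the sum of `(n - k) a_k ^ 2` over the first `n` terms -/
private def Ph (s : ι → G) (D : ι → L G) : ℕ → List ι → G → ℝ
  | 0, _, _ => 0
  | _ + 1, [], _ => 0
  | n + 1, j :: l, z => ((n : ℝ) + 1) * (D j z) ^ 2 + Ph s D n l (z * s j)

/-- the far pairs at one point -/
private noncomputable def Fr (s : ι → G) (D : ι → L G) (R : ℕ) : List ι → G → ℝ
  | [], _ => 0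
  | j :: l, z => 2 * (D j z * Vd s D R l (z * s j)) + Fr s D R l (z * s j)

private theorem Tk_nonneg (s : ι → G) (D : ι → L G) (n : ℕ) (l : List ι) (z : G) :
    0 ≤ Tk s D n l z := by
  induction n generalizing l z with
  | zero => exact le_rfl
  | succ n ih =>
    cases l with
    | nil => exact le_rfl
    | cons j l => exact add_nonneg (sq_nonneg _) (ih l _)

private theorem Ph_nonneg (s : ι → G) (D : ι → L G) (n : ℕ) (l : List ι) (z : G) :
    0 ≤ Ph s D n l z := by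
  induction n generalizing l z with
  | zero => exact le_rfl
  | succ n ih =>
    cases l with
    | nil => exact le_rfl
    | cons j l => exact add_nonneg (mul_nonneg (by positivity) (sq_nonneg _)) (ih l _)

private theorem Ph_succ (s : ι → G) (D : ι → L G) (n : ℕ) (l : List ι) (z : G) :
    Ph s D (n + 1) l z = Tk s D (n + 1) l z + Ph s D n l z := by
  induction n generalizing l z with
  | zero =>
    cases l with
    | nil => simp [Ph, Tk]
    | cons j l => simp [Ph, Tk]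
  | succ n ih =>
    cases l with
    | nil => simp [Ph, Tk]
    | cons j l =>
      have h := ih l (z * s j)
      change (((n + 1 : ℕ) : ℝ) + 1) * (D j z) ^ 2 + Ph s D (n + 1) l (z * s j)
        = ((D j z) ^ 2 + Tk s D (n + 1) l (z * s j))
          + (((n : ℝ) + 1) * (D j z) ^ 2 + Ph s D n l (z * s j))
      rw [h]
      push_cast
      ring

private theorem Vl_cons (s : ι → G) (D : ι → L G) (j : ι) (l : List ι) (z : G) :
    Vl s D (j :: l) z = D j z + Vl s D l (z * s j) := rfl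

private theorem Vd_zero (s : ι → G) (D : ι → L G) (l : List ι) (z : G) :
    Vd s D 0 l z = Vl s D l z := by
  change Vl s D (l.drop 0) (z * pr s (l.take 0)) = _
  simp [pr]

private theorem Vd_nil (s : ι → G) (D : ι → L G) (n : ℕ) (z : G) :
    Vd s D n [] z = 0 := by
  change Vl s D (List.drop n []) (z * pr s (List.take n [])) = _
  rw [List.drop_nil]
  rfl

private theorem Vd_cons (s : ι → G) (D : ι → L G) (n : ℕ) (j : ι) (l : List ι) (z : G) :
    Vd s D (n + 1) (j :: l) z = Vd s D n l (z * s j) := by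
  change Vl s D (List.drop (n + 1) (j :: l)) (z * pr s (List.take (n + 1) (j :: l)))
    = Vl s D (l.drop n) (z * s j * pr s (l.take n))
  rw [List.drop_succ_cons, List.take_succ_cons]
  have h : pr s (j :: List.take n l) = s j * pr s (List.take n l) := by
    simp [pr]
  rw [h, mul_assoc]

private theorem near (s : ι → G) (D : ι → L G) (c : ℝ) (n : ℕ) (l : List ι) (z : G) :
    2 * c * (Vl s D l z - Vd s D n l z) ≤ n * c ^ 2 + Tk s D n l z := by
  induction n generalizing l z with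
  | zero =>
    rw [Vd_zero]
    simp [Tk]
  | succ n ih =>
    cases l with
    | nil =>
      rw [Vd_nil]
      have h : Vl s D [] z = 0 := rfl
      rw [h]
      have h2 : (0 : ℝ) ≤ ((n + 1 : ℕ) : ℝ) * c ^ 2 := by positivity
      simp only [sub_zero, mul_zero]
      exact add_nonneg h2 (Tk_nonneg s D _ _ _)
    | cons j l =>
      rw [Vd_cons, Vl_cons]
      have h := ih l (z * s j)
      change _ ≤ ((n + 1 : ℕ) : ℝ) * c ^ 2 + ((D j z) ^ 2 + Tk s D n l (z * s j))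
      have h2 : 2 * c * D j z ≤ c ^ 2 + (D j z) ^ 2 := by nlinarith [sq_nonneg (c - D j z)]
      push_cast
      linarith

private theorem pt (s : ι → G) (D : ι → L G) (R : ℕ) (l : List ι) (z : G) :
    (Vl s D l z) ^ 2 + Ph s D R l z
      ≤ (2 * R + 1) * Sq s (fun i z => (D i z) ^ 2) l z + Fr s D R l z := by
  induction l generalizing z with
  | nil =>
    have h1 : Vl s D [] z = 0 := rfl
    have h2 : Ph s D R [] z = 0 := by
      cases R with
      | zero => rfl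
      | succ n => rfl
    rw [h1, h2]
    simp [Sq, Fr]
  | cons j l ih =>
    have h := ih (z * s j)
    have hn := near s D (D j z) R l (z * s j)
    have hp : Ph s D R (j :: l) z = R * (D j z) ^ 2 + (Ph s D R l (z * s j)
        - Tk s D R l (z * s j)) := by
      cases R with
      | zero =>
        simp [Ph, Tk]
      | succ n =>
        rw [Ph_succ s D n l]
        change ((n : ℝ) + 1) * (D j z) ^ 2 + Ph s D n l (z * s j) = _
        push_cast
        ring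
    rw [hp, Vl_cons]
    change _ ≤ (2 * (R : ℝ) + 1) * ((D j z) ^ 2
        + Sq s (fun i z => (D i z) ^ 2) l (z * s j))
      + (2 * (D j z * Vd s D R l (z * s j)) + Fr s D R l (z * s j))
    nlinarith [h, hn]

private theorem Vl_nonneg (s : ι → G) (D : ι → L G) (hD : ∀ i x, 0 ≤ D i x) (l : List ι)
    (z : G) : 0 ≤ Vl s D l z := by
  induction l generalizing z with
  | nil => exact le_rfl
  | cons j l ih =>
    rw [Vl_cons]
    exact add_nonneg (hD j z) (ih _)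

private theorem Vd_nonneg (s : ι → G) (D : ι → L G) (hD : ∀ i x, 0 ≤ D i x) (R : ℕ)
    (l : List ι) (z : G) : 0 ≤ Vd s D R l z :=
  Vl_nonneg s D hD (l.drop R) (z * pr s (l.take R))

private theorem Fr_nonneg (s : ι → G) (D : ι → L G) (hD : ∀ i x, 0 ≤ D i x) (R : ℕ)
    (l : List ι) (z : G) : 0 ≤ Fr s D R l z := by
  induction l generalizing z with
  | nil => exact le_rfl
  | cons j l ih =>
    exact add_nonneg (mul_nonneg (by norm_num) (mul_nonneg (hD j z) (Vd_nonneg s D hD R l _)))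
      (ih _)

private theorem Fr_hasSum (s : ι → G) (D : ι → L G) (R : ℕ) (l : List ι) :
    HasSum (Fr s D R l) (La s D R l) := by
  induction l with
  | nil => exact hasSum_zero
  | cons j l ih =>
    have h1 : HasSum (fun z => 2 * (D j z * Vd s D R l (z * s j)))
        (2 * ⟪D j, RR (s j) (Vd s D R l)⟫_ℝ) :=
      (L_inner (D j) (RR (s j) (Vd s D R l))).mul_left 2
    have h2 : HasSum (fun z => Fr s D R l (z * s j)) (La s D R l) :=
      ((Equiv.mulRight (s j)).hasSum_iff (f := Fr s D R l)).2 ih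
    exact h1.add h2

private theorem conv_le {Λ : G → ℝ} {T : ℝ} (h0 : ∀ z, 0 ≤ Λ z) (hs : HasSum Λ T)
    (A B : Finset G) :
    ∑ x ∈ A, ∑ y ∈ B, Λ (x⁻¹ * y) ≤ √((A.card : ℝ) * (B.card : ℝ)) * T := by
  have hT : 0 ≤ T := hs.nonneg h0
  have key : ∀ (S : Finset G) (f : G → G), Function.Injective f → ∑ y ∈ S, Λ (f y) ≤ T := by
    intro S f hf
    have h1 : ∑ y ∈ S, Λ (f y) = ∑ w ∈ S.map ⟨f, hf⟩, Λ w := by
      rw [sum_map]
      rfl
    rw [h1]
    exact sum_le_hasSum _ (fun i _ => h0 i) hs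
  have h1 : ∑ x ∈ A, ∑ y ∈ B, Λ (x⁻¹ * y) ≤ A.card * T := by
    have h2 : ∑ x ∈ A, ∑ y ∈ B, Λ (x⁻¹ * y) ≤ ∑ _x ∈ A, T :=
      sum_le_sum fun x _ => key B (fun y => x⁻¹ * y) (mul_right_injective x⁻¹)
    rw [sum_const, nsmul_eq_mul] at h2
    exact h2
  have h2 : ∑ x ∈ A, ∑ y ∈ B, Λ (x⁻¹ * y) ≤ B.card * T := by
    rw [sum_comm]
    have h2 : ∑ y ∈ B, ∑ x ∈ A, Λ (x⁻¹ * y) ≤ ∑ _y ∈ B, T :=
      sum_le_sum fun y _ => key A (fun x => x⁻¹ * y) (by
        intro a b hab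
        exact inv_injective (mul_left_injective y hab))
    rw [sum_const, nsmul_eq_mul] at h2
    exact h2
  have h3 : 0 ≤ ∑ x ∈ A, ∑ y ∈ B, Λ (x⁻¹ * y) :=
    sum_nonneg fun x _ => sum_nonneg fun y _ => h0 _
  have hA : (0 : ℝ) ≤ A.card := Nat.cast_nonneg _
  have hB : (0 : ℝ) ≤ B.card := Nat.cast_nonneg _
  refine abs_le_of_sq_le_sq' ?_ (mul_nonneg (Real.sqrt_nonneg _) hT) |>.2
  rw [mul_pow, Real.sq_sqrt (mul_nonneg hA hB)]
  calc (∑ x ∈ A, ∑ y ∈ B, Λ (x⁻¹ * y)) ^ 2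
      = (∑ x ∈ A, ∑ y ∈ B, Λ (x⁻¹ * y)) * (∑ x ∈ A, ∑ y ∈ B, Λ (x⁻¹ * y)) := sq _
    _ ≤ (A.card * T) * (B.card * T) := mul_le_mul h1 h2 h3 (mul_nonneg hA hT)
    _ = A.card * B.card * T ^ 2 := by ring

/-- the square of a square summable function -/
private noncomputable def sqL (f : L G) : L G :=
  ⟨fun y => (f y) ^ 2, L_mem (by
    have h := L_hasSum f
    refine Summable.of_nonneg_of_le (fun y => sq_nonneg _) (fun y => ?_)
      (h.summable.mul_left (‖f‖ ^ 2))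
    have h1 : (f y) ^ 2 ≤ ‖f‖ ^ 2 := le_hasSum h y (fun z _ => sq_nonneg _)
    calc ((f y) ^ 2) ^ 2 = (f y) ^ 2 * (f y) ^ 2 := sq _
      _ ≤ ‖f‖ ^ 2 * (f y) ^ 2 := mul_le_mul_of_nonneg_right h1 (sq_nonneg _))⟩

/-- the sum of the left translates of the square -/
private noncomputable def psi (f : L G) (A : Finset G) : L G := ∑ x ∈ A, LL x⁻¹ (sqL f)

private theorem psi_apply (f : L G) (A : Finset G) (y : G) :
    psi f A y = ∑ x ∈ A, (f (x⁻¹ * y)) ^ 2 := by
  classical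
  unfold psi
  induction A using Finset.induction_on with
  | empty => simp
  | insert a S ha ih =>
    rw [sum_insert ha, sum_insert ha, ← ih]
    rfl

private theorem psi_le (f : L G) (A : Finset G) (y : G) : psi f A y ≤ ‖f‖ ^ 2 := by
  rw [psi_apply]
  have hf : Function.Injective fun x : G => x⁻¹ * y := by
    intro a b hab
    exact inv_injective (mul_left_injective y hab)
  have h1 : ∑ x ∈ A, (f (x⁻¹ * y)) ^ 2 = ∑ w ∈ A.map ⟨_, hf⟩, (f w) ^ 2 := by
    rw [sum_map]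
    rfl
  rw [h1]
  exact sum_le_hasSum _ (fun i _ => sq_nonneg _) (L_hasSum f)

private theorem psi_nonneg (f : L G) (A : Finset G) (y : G) : 0 ≤ psi f A y := by
  rw [psi_apply]
  exact sum_nonneg fun x _ => sq_nonneg _

private theorem psi_hasSum (f : L G) (A : Finset G) :
    HasSum (fun y => psi f A y) (A.card * ‖f‖ ^ 2) := by
  have h1 : ∀ x ∈ A, HasSum (fun y => (f (x⁻¹ * y)) ^ 2) (‖f‖ ^ 2) := fun x _ =>
    ((Equiv.mulLeft x⁻¹).hasSum_iff (f := fun y => (f y) ^ 2)).2 (L_hasSum f)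
  have h2 := hasSum_sum h1
  rw [sum_const, nsmul_eq_mul] at h2
  have h3 : (fun y => psi f A y) = fun y => ∑ x ∈ A, (f (x⁻¹ * y)) ^ 2 := by
    funext y
    exact psi_apply f A y
  rw [h3]
  exact h2

private theorem psi_norm (f : L G) (A : Finset G) : ‖psi f A‖ ≤ √(A.card : ℝ) * ‖f‖ ^ 2 := by
  have h1 := L_hasSum (psi f A)
  have h2 := (psi_hasSum f A).mul_left (‖f‖ ^ 2)
  have h3 : ‖psi f A‖ ^ 2 ≤ ‖f‖ ^ 2 * (A.card * ‖f‖ ^ 2) := by
    refine hasSum_le (fun y => ?_) h1 h2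
    rw [sq]
    exact mul_le_mul_of_nonneg_right (psi_le f A y) (psi_nonneg f A y)
  refine abs_le_of_sq_le_sq' ?_ (mul_nonneg (Real.sqrt_nonneg _) (sq_nonneg _)) |>.2
  rw [mul_pow, Real.sq_sqrt (Nat.cast_nonneg _)]
  linarith

omit [Group G] in
private theorem sum_le_norm (g : L G) (B : Finset G) : ∑ y ∈ B, g y ≤ √(B.card : ℝ) * ‖g‖ := by
  have h1 : ∑ y ∈ B, (g y) ^ 2 ≤ ‖g‖ ^ 2 :=
    sum_le_hasSum _ (fun i _ => sq_nonneg _) (L_hasSum g)
  have h2 : (∑ y ∈ B, g y) ^ 2 ≤ B.card * ∑ y ∈ B, (g y) ^ 2 := sq_sum_le_card_mul_sum_sq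
  refine abs_le_of_sq_le_sq' ?_ (mul_nonneg (Real.sqrt_nonneg _) (norm_nonneg _)) |>.2
  rw [mul_pow, Real.sq_sqrt (Nat.cast_nonneg _)]
  exact h2.trans (mul_le_mul_of_nonneg_left h1 (Nat.cast_nonneg _))

private theorem Sq_AV [Fintype ι] [DecidableEq ι] (s : ι → G) (f : ι → L G) (l : List ι)
    (y : G) : ∑ i, AV s i l (f i) y = Sq s (fun i z => f i z) l y := by
  induction l generalizing y with
  | nil =>
    have h : ∀ i, AV s i [] (f i) y = 0 := fun i => rfl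
    simp only [h, sum_const_zero]
    rfl
  | cons j l ih =>
    have h : ∀ i, AV s i (j :: l) (f i) y
        = (if j = i then f i y else 0) + AV s i l (f i) (y * s j) := by
      intro i
      have e : AV s i (j :: l) = (if j = i then ContinuousLinearMap.id ℝ (L G) else 0)
          + (RR (s j)).toContinuousLinearMap ∘L AV s i l := rfl
      rw [e]
      by_cases h : j = i
      · rw [if_pos h, if_pos h]
        rfl
      · rw [if_neg h, if_neg h]
        rfl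
    simp only [h, sum_add_distrib, sum_ite_eq, mem_univ, if_true]
    rw [ih]
    rfl

private theorem Sq_sum (s : ι → G) (f : ι → L G) (A : Finset G) (l : List ι) (y : G) :
    Sq s (fun i z => psi (f i) A z) l y
      = ∑ x ∈ A, Sq s (fun i z => (f i z) ^ 2) l (x⁻¹ * y) := by
  induction l generalizing y with
  | nil => exact (sum_const_zero).symm
  | cons j l ih =>
    change psi (f j) A y + Sq s (fun i z => psi (f i) A z) l (y * s j)
      = ∑ x ∈ A, ((f j (x⁻¹ * y)) ^ 2 + Sq s (fun i z => (f i z) ^ 2) l (x⁻¹ * y * s j))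
    rw [ih, psi_apply, sum_add_distrib]
    simp only [mul_assoc]

private theorem sq_part [Fintype ι] [DecidableEq ι] (s : ι → G) (D : ι → L G) (l : List ι)
    (A B : Finset G) :
    ∑ x ∈ A, ∑ y ∈ B, Sq s (fun i z => (D i z) ^ 2) l (x⁻¹ * y)
      ≤ (∑ i, ‖AV s i l‖ * ‖D i‖ ^ 2) * √((A.card : ℝ) * (B.card : ℝ)) := by
  have h1 : ∑ x ∈ A, ∑ y ∈ B, Sq s (fun i z => (D i z) ^ 2) l (x⁻¹ * y)
      = ∑ i, ∑ y ∈ B, AV s i l (psi (D i) A) y := by
    rw [sum_comm, sum_comm (s := univ)]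
    refine sum_congr rfl fun y _ => ?_
    rw [Sq_AV s (fun i => psi (D i) A) l y, Sq_sum]
  rw [h1, sum_mul]
  refine sum_le_sum fun i _ => ?_
  have h2 := sum_le_norm (AV s i l (psi (D i) A)) B
  have h3 : ‖AV s i l (psi (D i) A)‖ ≤ ‖AV s i l‖ * (√(A.card : ℝ) * ‖D i‖ ^ 2) :=
    (ContinuousLinearMap.le_opNorm _ _).trans
      (mul_le_mul_of_nonneg_left (psi_norm (D i) A) (norm_nonneg _))
  have h4 := mul_le_mul_of_nonneg_left h3 (Real.sqrt_nonneg (B.card : ℝ))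
  have h5 : √((A.card : ℝ) * (B.card : ℝ)) = √(A.card : ℝ) * √(B.card : ℝ) :=
    Real.sqrt_mul (Nat.cast_nonneg _) _
  rw [h5]
  calc ∑ y ∈ B, AV s i l (psi (D i) A) y ≤ _ := h2.trans h4
    _ = ‖AV s i l‖ * ‖D i‖ ^ 2 * (√(A.card : ℝ) * √(B.card : ℝ)) := by ring

/-- Convolution bound. Proof. Pointwise (`a_k = D (l k) (z * pr s (l.take k)) ≥ 0`):
`(∑ a_k) ^ 2 ≤ (2 R + 1) ∑ a_k ^ 2 + 2 ∑ (k + R < k') a_k a_k'`. The second part, summed over all
`z` of the group, is `La` (translate `z` by `pr s (l.take k)`), and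
`∑ x ∈ A, ∑ y ∈ B, Λ (x⁻¹ * y) ≤ min |A| |B| * ∑ z, Λ z ≤ √(|A| |B|) * ∑ z, Λ z` for `Λ ≥ 0`.
For the first part put `ψ_i y = ∑ x ∈ A, D i (x⁻¹ * y) ^ 2`, an element of `L G` of norm at most
`√|A| * ‖D i‖ ^ 2` (because `ψ_i ≤ ‖D i‖ ^ 2` and `∑ ψ_i = |A| ‖D i‖ ^ 2`); then
`∑ x ∈ A, ∑ y ∈ B, ∑ k, a_k (x⁻¹ * y) ^ 2 = ∑ i, ∑ y ∈ B, (AV s i l ψ_i) y
 ≤ ∑ i, √|B| * ‖AV s i l ψ_i‖ ≤ ∑ i, √|B| * ‖AV s i l‖ * √|A| * ‖D i‖ ^ 2`. -/
theorem conv_bound [Fintype ι] [DecidableEq ι] (s : ι → G) (D : ι → L G)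
    (hD : ∀ i x, 0 ≤ D i x) (R : ℕ) (l : List ι) (A B : Finset G) :
    ∑ x ∈ A, ∑ y ∈ B, (Vl s D l (x⁻¹ * y)) ^ 2 ≤
      ((2 * R + 1) * ∑ i, ‖AV s i l‖ * ‖D i‖ ^ 2 + La s D R l) *
        √((A.card : ℝ) * (B.card : ℝ)) := by
  have h1 : ∑ x ∈ A, ∑ y ∈ B, (Vl s D l (x⁻¹ * y)) ^ 2
      ≤ ∑ x ∈ A, ∑ y ∈ B, ((2 * (R : ℝ) + 1) * Sq s (fun i z => (D i z) ^ 2) l (x⁻¹ * y)
        + Fr s D R l (x⁻¹ * y)) := by
    refine sum_le_sum fun x _ => sum_le_sum fun y _ => ?_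
    have h2 := pt s D R l (x⁻¹ * y)
    have h3 := Ph_nonneg s D R l (x⁻¹ * y)
    linarith
  have h2 : ∑ x ∈ A, ∑ y ∈ B, ((2 * (R : ℝ) + 1) * Sq s (fun i z => (D i z) ^ 2) l (x⁻¹ * y)
        + Fr s D R l (x⁻¹ * y))
      = (2 * (R : ℝ) + 1) * ∑ x ∈ A, ∑ y ∈ B, Sq s (fun i z => (D i z) ^ 2) l (x⁻¹ * y)
        + ∑ x ∈ A, ∑ y ∈ B, Fr s D R l (x⁻¹ * y) := by
    simp only [sum_add_distrib, mul_sum]
  have h3 := sq_part s D l A B
  have h4 := conv_le (Fr_nonneg s D hD R l) (Fr_hasSum s D R l) A B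
  have h5 : (0 : ℝ) ≤ 2 * (R : ℝ) + 1 := by positivity
  have h6 := mul_le_mul_of_nonneg_left h3 h5
  rw [h2] at h1
  calc ∑ x ∈ A, ∑ y ∈ B, (Vl s D l (x⁻¹ * y)) ^ 2 ≤ _ := h1
    _ ≤ (2 * (R : ℝ) + 1) * ((∑ i, ‖AV s i l‖ * ‖D i‖ ^ 2) * √((A.card : ℝ) * (B.card : ℝ)))
        + √((A.card : ℝ) * (B.card : ℝ)) * La s D R l := add_le_add h6 h4
    _ = _ := by ring

end Pool.Agent.Lib.MP_354e85_al.L2C
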