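import Pool.Agent.Lib.MP_354e85_al.L2C.Cut

/-! The mean of the far pairs. -/

set_option autoImplicit false

namespace Pool.Agent.Lib.MP_354e85_al.L2C

open Finset L2B
open scoped InnerProductSpace

variable {G : Type} [Group G] {ι : Type}

omit [Group G] in
private theorem inner_nn (f g : L G) (hf : ∀ x, 0 ≤ f x) (hg : ∀ x, 0 ≤ g x) : 0 ≤ ⟪f, g⟫_ℝ :=
  (L_inner f g).nonneg fun x => mul_nonneg (hf x) (hg x)

private theorem Vl_nn (s : ι → G) (D : ι → L G) (hD : ∀ i x, 0 ≤ D i x) (l : List ι) (x : G) :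
    0 ≤ Vl s D l x := by
  induction l generalizing x with
  | nil => exact le_rfl
  | cons j l ih =>
    have h : Vl s D (j :: l) x = D j x + Vl s D l (x * s j) := rfl
    rw [h]
    exact add_nonneg (hD j x) (ih _)

theorem La_nonneg (s : ι → G) (D : ι → L G) (hD : ∀ i x, 0 ≤ D i x) (R : ℕ) (l : List ι) :
    0 ≤ La s D R l := by
  induction l with
  | nil => exact le_rfl
  | cons j l ih =>
    have h : La s D R (j :: l) = 2 * ⟪D j, RR (s j) (Vd s D R l)⟫_ℝ + La s D R l := rfl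
    rw [h]
    refine add_nonneg (mul_nonneg (by norm_num) (inner_nn _ _ (hD j) fun x => ?_)) ih
    exact Vl_nn s D hD _ _

section

variable [Fintype ι]

private theorem PR_eq (s : ι → G) (f : L G) :
    PR s f = (Fintype.card ι : ℝ)⁻¹ • ∑ i, RR (s i) f := by
  unfold PR
  rw [smul_apply, _root_.sum_apply]
  rfl

private theorem EL_RR (s : ι → G) (n : ℕ) (f : L G) :
    EL n (fun l => RR (pr s l) f) = (PR s ^ n) f := by
  induction n with
  | zero =>
    rw [EL_zero]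
    refine L_ext fun x => ?_
    simp [pr]
  | succ n ih =>
    rw [EL_succ, pow_succ']
    have h1 : ∀ i : ι, EL n (fun l => RR (pr s (i :: l)) f) = RR (s i) ((PR s ^ n) f) := by
      intro i
      rw [← ih]
      have h2 := EL_map n (RR (s i)).toLinearMap (fun l => RR (pr s l) f)
      refine Eq.trans ?_ h2.symm
      refine EL_congr n fun l _ => ?_
      have e : pr s (i :: l) = s i * pr s l := by simp [pr]
      rw [e, ← RR_RR]
      rfl
    simp only [h1]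
    exact (PR_eq s _).symm

private theorem EL_Vl [Nonempty ι] (s : ι → G) (D : ι → L G) (n : ℕ) :
    EL (n + 1) (Vl s D) = (Fintype.card ι : ℝ)⁻¹ • ∑ j, D j + PR s (EL n (Vl s D)) := by
  rw [EL_succ, PR_eq, ← smul_add, ← sum_add_distrib]
  congr 1
  refine sum_congr rfl fun j _ => ?_
  have h1 : EL n (fun l => Vl s D (j :: l)) = EL n (fun l => D j + RR (s j) (Vl s D l)) := rfl
  rw [h1, EL_add n (fun _ => D j) (fun l => RR (s j) (Vl s D l)), EL_const]
  congr 1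
  exact (EL_map n (RR (s j)).toLinearMap (Vl s D)).symm

/-- The mean norm of the terms. -/
private noncomputable def kk (D : ι → L G) : ℝ := (Fintype.card ι : ℝ)⁻¹ * ∑ j, ‖D j‖

omit [Group G] in
private theorem kk_nn (D : ι → L G) : 0 ≤ kk D :=
  mul_nonneg (by positivity) (sum_nonneg fun _ _ => norm_nonneg _)

private theorem Vl_norm [Nonempty ι] (s : ι → G) {r : ℝ} (hr0 : 0 ≤ r) (hr1 : r < 1)
    (hr : ∀ f : L G, ‖PR s f‖ ≤ r * ‖f‖) (D : ι → L G) (n : ℕ) :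
    ‖EL n (Vl s D)‖ ≤ kk D / (1 - r) := by
  have h1r : 0 < 1 - r := by linarith
  induction n with
  | zero =>
    rw [EL_zero]
    have h : Vl s D [] = 0 := rfl
    rw [h, norm_zero]
    exact div_nonneg (kk_nn D) h1r.le
  | succ n ih =>
    rw [EL_Vl]
    have h1 : ‖(Fintype.card ι : ℝ)⁻¹ • ∑ j, D j‖ ≤ kk D := by
      rw [norm_smul, Real.norm_of_nonneg (by positivity : (0 : ℝ) ≤ (Fintype.card ι : ℝ)⁻¹)]
      exact mul_le_mul_of_nonneg_left (norm_sum_le _ _) (by positivity)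
    have h2 : ‖PR s (EL n (Vl s D))‖ ≤ r * (kk D / (1 - r)) :=
      (hr _).trans (mul_le_mul_of_nonneg_left ih hr0)
    refine (norm_add_le _ _).trans ((add_le_add h1 h2).trans (le_of_eq ?_))
    field_simp
    ring

private theorem PR_pow (s : ι → G) {r : ℝ} (hr0 : 0 ≤ r)
    (hr : ∀ f : L G, ‖PR s f‖ ≤ r * ‖f‖) (n : ℕ) (f : L G) : ‖(PR s ^ n) f‖ ≤ r ^ n * ‖f‖ := by
  induction n with
  | zero => simp
  | succ n ih =>
    rw [pow_succ', pow_succ', mul_assoc]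
    exact (hr _).trans (mul_le_mul_of_nonneg_left ih hr0)

private theorem Vd_norm [Nonempty ι] (s : ι → G) {r : ℝ} (hr0 : 0 ≤ r) (hr1 : r < 1)
    (hr : ∀ f : L G, ‖PR s f‖ ≤ r * ‖f‖) (D : ι → L G) (R n : ℕ) :
    ‖EL n (Vd s D R)‖ ≤ r ^ R * (kk D / (1 - r)) := by
  have h1r : 0 < 1 - r := by linarith
  have hk : 0 ≤ r ^ R * (kk D / (1 - r)) :=
    mul_nonneg (pow_nonneg hr0 _) (div_nonneg (kk_nn D) h1r.le)
  rcases le_or_gt n R with h | h
  · have h0 : EL n (Vd s D R) = EL n (fun _ : List ι => (0 : L G)) := by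
      refine EL_congr n fun l hl => ?_
      have e : l.drop R = [] := List.drop_eq_nil_of_le (by omega)
      have e2 : Vd s D R l = RR (pr s (l.take R)) (Vl s D (l.drop R)) := rfl
      rw [e2, e]
      exact map_zero _
    rw [h0, EL_const, norm_zero]
    exact hk
  · obtain ⟨m, rfl⟩ := Nat.exists_eq_add_of_le h.le
    rw [EL_append]
    have h1 : EL R (fun l => EL m (fun l' => Vd s D R (l ++ l'))) =
        EL R (fun l => RR (pr s l) (EL m (Vl s D))) := by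
      refine EL_congr R fun l hl => ?_
      have h2 := EL_map m (RR (pr s l)).toLinearMap (Vl s D)
      refine Eq.trans ?_ h2.symm
      refine EL_congr m fun l' _ => ?_
      have e2 : Vd s D R (l ++ l') =
        RR (pr s ((l ++ l').take R)) (Vl s D ((l ++ l').drop R)) := rfl
      rw [e2, List.take_left' hl, List.drop_left' hl]
      rfl
    rw [h1, EL_RR]
    exact (PR_pow s hr0 hr R _).trans
      (mul_le_mul_of_nonneg_left (Vl_norm s hr0 hr1 hr D m) (pow_nonneg hr0 _))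

omit [Group G] in
private theorem kk_sq [Nonempty ι] (D : ι → L G) : kk D * kk D ≤ ∑ i, ‖D i‖ ^ 2 := by
  have hq : (1 : ℝ) ≤ (Fintype.card ι : ℝ) := by
    exact_mod_cast Nat.one_le_iff_ne_zero.2 Fintype.card_ne_zero
  have hq0 : (0 : ℝ) < (Fintype.card ι : ℝ) := by linarith
  have h1 : (∑ j, ‖D j‖) ^ 2 ≤ (Fintype.card ι : ℝ) * ∑ j, ‖D j‖ ^ 2 := by
    have h := sq_sum_le_card_mul_sum_sq (s := (univ : Finset ι)) (f := fun j => ‖D j‖)
    rw [card_univ] at h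
    exact h
  have hS : 0 ≤ ∑ j, ‖D j‖ ^ 2 := sum_nonneg fun _ _ => sq_nonneg _
  have h2 : kk D * kk D = (Fintype.card ι : ℝ)⁻¹ ^ 2 * (∑ j, ‖D j‖) ^ 2 := by
    unfold kk
    ring
  rw [h2]
  calc (Fintype.card ι : ℝ)⁻¹ ^ 2 * (∑ j, ‖D j‖) ^ 2
      ≤ (Fintype.card ι : ℝ)⁻¹ ^ 2 * ((Fintype.card ι : ℝ) * ∑ j, ‖D j‖ ^ 2) :=
        mul_le_mul_of_nonneg_left h1 (by positivity)
    _ = (Fintype.card ι : ℝ)⁻¹ * ∑ j, ‖D j‖ ^ 2 := by
        field_simp
    _ ≤ 1 * ∑ j, ‖D j‖ ^ 2 :=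
        mul_le_mul_of_nonneg_right (inv_le_one_of_one_le₀ hq) hS
    _ = ∑ j, ‖D j‖ ^ 2 := one_mul _

end

/-- Proof. `EL (n+1) La = 2 q⁻¹ ∑ j, ⟪D j, RR (s j) (EL n (Vd R))⟫ + EL n La`;
`EL n (Vd R) = PR ^ R (EL (n - R) Vl)` (0 for `n ≤ R`), `EL (n+1) Vl = q⁻¹ ∑ j, D j + PR (EL n Vl)`,
so `‖EL n Vl‖ ≤ (q⁻¹ ∑ j, ‖D j‖) / (1 - r)`, and `(q⁻¹ ∑ j, ‖D j‖) ^ 2 ≤ q⁻¹ ∑ j, ‖D j‖ ^ 2`. -/
theorem mean_La [Fintype ι] [Nonempty ι] (s : ι → G) {r : ℝ} (hr0 : 0 ≤ r) (hr1 : r < 1)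
    (hr : ∀ f : L G, ‖PR s f‖ ≤ r * ‖f‖) (D : ι → L G) (R n : ℕ) :
    EL n (La s D R) ≤ 2 * r ^ R / (1 - r) * n * ∑ i, ‖D i‖ ^ 2 := by
  have h1r : 0 < 1 - r := by linarith
  have hq0 : (0 : ℝ) < (Fintype.card ι : ℝ) := by
    exact_mod_cast Fintype.card_pos
  induction n with
  | zero =>
    rw [EL_zero]
    have h : La s D R [] = 0 := rfl
    rw [h]
    simp
  | succ n ih =>
    have h1 : ∀ j : ι, EL n (fun l => La s D R (j :: l)) =
        2 * ⟪D j, RR (s j) (EL n (Vd s D R))⟫_ℝ + EL n (La s D R) := by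
      intro j
      have h2 : EL n (fun l => La s D R (j :: l)) =
          EL n (fun l => 2 * ⟪D j, RR (s j) (Vd s D R l)⟫_ℝ + La s D R l) := rfl
      rw [h2, EL_add n (fun l => 2 * ⟪D j, RR (s j) (Vd s D R l)⟫_ℝ) (La s D R)]
      congr 1
      have h3 := EL_map n
        ((2 : ℝ) • ((innerₛₗ ℝ (D j)) ∘ₗ (RR (s j)).toLinearMap)) (Vd s D R)
      exact h3.symm
    have h4 : ∀ j : ι, EL n (fun l => La s D R (j :: l)) ≤
        2 * (‖D j‖ * (r ^ R * (kk D / (1 - r)))) + EL n (La s D R) := by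
      intro j
      rw [h1 j]
      have h5 : ⟪D j, RR (s j) (EL n (Vd s D R))⟫_ℝ ≤ ‖D j‖ * (r ^ R * (kk D / (1 - r))) := by
        refine (real_inner_le_norm _ _).trans ?_
        rw [LinearIsometry.norm_map]
        exact mul_le_mul_of_nonneg_left (Vd_norm s hr0 hr1 hr D R n) (norm_nonneg _)
      linarith
    rw [EL_succ, smul_eq_mul]
    have h6 : (Fintype.card ι : ℝ)⁻¹ * ∑ j, EL n (fun l => La s D R (j :: l)) ≤
        (Fintype.card ι : ℝ)⁻¹ * ∑ j : ι, (2 * (‖D j‖ * (r ^ R * (kk D / (1 - r)))) +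
          EL n (La s D R)) :=
      mul_le_mul_of_nonneg_left (sum_le_sum fun j _ => h4 j) (by positivity)
    refine h6.trans ?_
    rw [sum_add_distrib, ← mul_sum, ← sum_mul, sum_const, card_univ, nsmul_eq_mul, mul_add,
      inv_mul_cancel_left₀ hq0.ne']
    have h7 : (Fintype.card ι : ℝ)⁻¹ * (2 * ((∑ j, ‖D j‖) * (r ^ R * (kk D / (1 - r))))) =
        2 * r ^ R / (1 - r) * (kk D * kk D) := by
      unfold kk
      ring
    rw [h7]
    have h8 : 2 * r ^ R / (1 - r) * (kk D * kk D) ≤ 2 * r ^ R / (1 - r) * ∑ i, ‖D i‖ ^ 2 :=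
      mul_le_mul_of_nonneg_left (kk_sq D)
        (div_nonneg (mul_nonneg (by norm_num) (pow_nonneg hr0 _)) h1r.le)
    push_cast
    nlinarith [h8, ih]

end Pool.Agent.Lib.MP_354e85_al.L2C
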