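import Pool.Agent.Lib.MP_354e85_al.L2C.Wd

/-! Averages over tuples of independent words. -/

set_option autoImplicit false

namespace Pool.Agent.Lib.MP_354e85_al.L2C

open Finset L2B

variable {ι : Type} [Fintype ι]

/-- The average of `F` over `k` independent words of length `n`. -/
noncomputable def Ek (n : ℕ) : (k : ℕ) → ((Fin k → List ι) → ℝ) → ℝ
  | 0, F => F Fin.elim0
  | k + 1, F => EL n (fun g => Ek n k (fun h => F (Fin.cons g h)))

theorem Ek_succ (n k : ℕ) (F : (Fin (k + 1) → List ι) → ℝ) :
    Ek n (k + 1) F = EL n (fun g => Ek n k (fun h => F (Fin.cons g h))) := rfl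

theorem Ek_mul (n k : ℕ) (c : ℝ) (F : (Fin k → List ι) → ℝ) :
    Ek n k (fun g => c * F g) = c * Ek n k F := by
  induction k with
  | zero => rfl
  | succ k ih =>
    rw [Ek_succ, Ek_succ, ← smul_eq_mul, ← EL_smul]
    congr 1
    funext g
    rw [smul_eq_mul]
    exact ih _

theorem Ek_sum (n k : ℕ) {κ : Type} (t : Finset κ) (F : κ → (Fin k → List ι) → ℝ) :
    Ek n k (fun g => ∑ a ∈ t, F a g) = ∑ a ∈ t, Ek n k (F a) := by
  induction k with
  | zero => rfl
  | succ k ih =>
    rw [Ek_succ]
    have h : ∀ a ∈ t, Ek n (k + 1) (F a)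
        = EL n (fun g => Ek n k (fun h => F a (Fin.cons g h))) := fun a _ => rfl
    rw [sum_congr rfl h, ← EL_sum]
    congr 1
    funext g
    exact ih _

theorem Ek_mono (n k : ℕ) {F F' : (Fin k → List ι) → ℝ}
    (h : ∀ g, (∀ i, (g i).length = n) → F g ≤ F' g) : Ek n k F ≤ Ek n k F' := by
  induction k with
  | zero => exact h _ (fun i => i.elim0)
  | succ k ih =>
    rw [Ek_succ, Ek_succ]
    refine EL_mono n fun l hl => ih fun h' hh' => h _ ?_
    refine Fin.cases ?_ ?_
    · simpa using hl
    · intro i
      simpa using hh' i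

theorem Ek_const [Nonempty ι] (n k : ℕ) (c : ℝ) :
    Ek n k (fun _ : Fin k → List ι => c) = c := by
  induction k with
  | zero => rfl
  | succ k ih =>
    rw [Ek_succ]
    have h : (fun _ : List ι => Ek n k (fun _ : Fin k → List ι => c)) = fun _ => c := by
      funext g
      exact ih
    rw [h]
    exact EL_const n c

theorem Ek_one [Nonempty ι] (n k : ℕ) (i : Fin k) (F : List ι → ℝ) :
    Ek n k (fun g => F (g i)) = EL n F := by
  induction k with
  | zero => exact i.elim0
  | succ k ih =>
    rw [Ek_succ]
    refine Fin.cases ?_ (fun j => ?_) i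
    · congr 1
      funext g
      exact Ek_const n k (F g)
    · have h : (fun g : List ι => Ek n k (fun h => F ((Fin.cons g h : Fin (k + 1) → List ι) j.succ)))
          = fun _ => EL n F := by
        funext g
        exact ih j
      rw [h]
      exact EL_const n _

theorem Ek_two [Nonempty ι] (n k : ℕ) (i j : Fin k) (hij : i ≠ j) (F : List ι → List ι → ℝ) :
    Ek n k (fun g => F (g i) (g j)) = EL n (fun a => EL n (fun b => F a b)) := by
  induction k with
  | zero => exact i.elim0
  | succ k ih =>
    rw [Ek_succ]
    revert hij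
    refine Fin.cases ?_ (fun i' => ?_) i
    · refine Fin.cases (fun h => absurd rfl h) (fun j' _ => ?_) j
      congr 1
      funext g
      exact Ek_one n k j' (F g)
    · refine Fin.cases (fun _ => ?_) (fun j' hij => ?_) j
      · rw [EL_comm]
        congr 1
        funext g
        exact Ek_one n k i' (fun a => F a g)
      · have h : (fun g : List ι => Ek n k (fun h => F ((Fin.cons g h : Fin (k + 1) → List ι) i'.succ)
            ((Fin.cons g h : Fin (k + 1) → List ι) j'.succ)))
            = fun _ => EL n (fun a => EL n (fun b => F a b)) := by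
          funext g
          exact ih i' j' (fun h => hij (h ▸ rfl))
        rw [h]
        exact EL_const n _

theorem Ek_prod (n k : ℕ) (F : List ι → ℝ) :
    Ek n k (fun g => ∏ i, F (g i)) = (EL n F) ^ k := by
  induction k with
  | zero => simp [Ek]
  | succ k ih =>
    rw [Ek_succ]
    have h : (fun g : List ι => Ek n k (fun h => ∏ i, F ((Fin.cons g h : Fin (k + 1) → List ι) i)))
        = fun g => (EL n F) ^ k • F g := by
      funext g
      have h1 : (fun h : Fin k → List ι => ∏ i, F ((Fin.cons g h : Fin (k + 1) → List ι) i))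
          = fun h => F g * ∏ i, F (h i) := by
        funext h
        rw [Fin.prod_univ_succ]
        simp
      rw [h1, Ek_mul, ih, smul_eq_mul, mul_comm]
    rw [h, EL_smul, smul_eq_mul, pow_succ]

/-- if the average of `F` is smaller than that of `F'`, then `F` is smaller at some tuple -/
theorem Ek_exists (n k : ℕ) {F F' : (Fin k → List ι) → ℝ} (h : Ek n k F < Ek n k F') :
    ∃ g : Fin k → List ι, (∀ i, (g i).length = n) ∧ F g < F' g := by
  by_contra hcon
  push Not at hcon
  exact absurd (Ek_mono n k fun g hg => hcon g hg) (not_le.2 h)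

end Pool.Agent.Lib.MP_354e85_al.L2C
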