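import Pool.Agent.Lib.MP_354e85_al.L2C.Main
import Pool.Agent.Lib.MP_354e85_al.L2B.Fin

/-! Tarski number at most six for all finitely generated groups with a nonzero gradient of a
harmonic Dirichlet function. -/

set_option autoImplicit false

namespace Pool.Agent.Lib.MP_354e85_al.L2C

open Finset L2B

theorem main_six {G : Type} [Group G] {ι : Type} [Fintype ι] (s : ι → G)
    (gen : ∀ g : G, ∃ l, pr s l = g) (σ : ι → ι) (hσ : Function.Involutive σ)
    (hs : ∀ i, s (σ i) = (s i)⁻¹) (hD : 0 < dm (HD s)) : TarskiLE G 6 := by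
  refine reduce s gen σ hs hD le_rfl 6 ?_
  intro Q _ _ r hgen hicc hr hd
  have hι : Nonempty ι := by
    by_contra hcon
    rw [not_nonempty_iff] at hcon
    have h1 : ∀ g : Q, g = 1 := by
      intro g
      obtain ⟨l, rfl⟩ := hgen g
      have h2 : l = [] := List.eq_nil_iff_forall_not_mem.2 fun a _ => hcon.elim a
      rw [h2]
      simp [pr]
    have h3 : Subsingleton Q := ⟨fun a c => (h1 a).trans (h1 c).symm⟩
    exact not_finite Q
  exact main_icc_pos hgen hicc σ hσ hr (hD.trans_le hd)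

/-- Generation by a finite symmetric set, in terms of words. -/
theorem gen_of_closure {G : Type} [Group G] (S : Finset G) (hS : ∀ s ∈ S, s⁻¹ ∈ S)
    (h : Subgroup.closure (S : Set G) = ⊤) (g : G) :
    ∃ l, pr (fun s : {x // x ∈ S} => (s : G)) l = g := by
  have hg : g ∈ Subgroup.closure (S : Set G) := by rw [h]; exact Subgroup.mem_top g
  induction hg using Subgroup.closure_induction with
  | mem x hx => exact ⟨[⟨x, hx⟩], by simp [pr]⟩
  | one => exact ⟨[], by simp [pr]⟩
  | mul x y _ _ ihx ihy =>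
    obtain ⟨l, rfl⟩ := ihx
    obtain ⟨l', rfl⟩ := ihy
    exact ⟨l ++ l', by simp [pr]⟩
  | inv x _ ih =>
    obtain ⟨l, rfl⟩ := ih
    refine ⟨(l.map fun s : {x // x ∈ S} => (⟨(s : G)⁻¹, hS s s.2⟩ : {x // x ∈ S})).reverse, ?_⟩
    unfold pr
    rw [List.prod_inv_reverse, List.map_reverse, List.map_map, List.map_map]
    rfl

/-- The dimension, with any instance of decidable equality. -/
theorem dm_single {G : Type} [Group G] {ι : Type} [Fintype ι] [inst : DecidableEq (ι × G)]
    (Z : Submodule ℝ (L (ι × G))) : dm Z =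
      ∑ i : ι, ‖Z.topologicalClosure.starProjection
        (lp.single 2 ((i, 1) : ι × G) (1 : ℝ))‖ ^ 2 := by
  unfold dm
  refine Finset.sum_congr rfl fun i _ => ?_
  have h : ∀ a b : DecidableEq (ι × G), ‖Z.topologicalClosure.starProjection
      (@lp.single (ι × G) (fun _ => ℝ) _ a 2 ((i, 1) : ι × G) (1 : ℝ))‖ ^ 2 =
      ‖Z.topologicalClosure.starProjection
      (@lp.single (ι × G) (fun _ => ℝ) _ b 2 ((i, 1) : ι × G) (1 : ℝ))‖ ^ 2 := by
    intro a b
    rw [Subsingleton.elim a b]
  exact h _ _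

/-- The theorem for a finite symmetric generating set. -/
theorem main_set {G : Type} [Group G] (S : Finset G) (hS : ∀ s ∈ S, s⁻¹ ∈ S)
    (h : Subgroup.closure (S : Set G) = ⊤)
    (hD : 0 < dm (HD (fun s : {x // x ∈ S} => (s : G)))) : TarskiLE G 6 := by
  let τ : {x // x ∈ S} → {x // x ∈ S} := fun s => ⟨(s : G)⁻¹, hS s s.2⟩
  refine main_six (fun s : {x // x ∈ S} => (s : G)) (gen_of_closure S hS h) τ ?_ ?_ hD
  · intro s
    exact Subtype.ext (inv_inv (s : G))
  · intro s
    rfl

end Pool.Agent.Lib.MP_354e85_al.L2C
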