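import Pool.Agent.Lib.MP_354e85_al.L2C.BlkM
import Pool.Agent.Lib.MP_354e85_al.L2C.Ek

/-! Choice of four elements. -/

set_option autoImplicit false

namespace Pool.Agent.Lib.MP_354e85_al.L2C

open Finset Filter Topology L2B
open scoped InnerProductSpace

variable {G : Type} [Group G] {ι : Type} [Fintype ι] {s : ι → G}
  {Z : Submodule ℝ (L (ι × G))} {u : G → L (ι × G)}

private theorem cc_one (hu : Rep s Z u) (g : G) : T s g (u g) 1 = ‖u g‖ ^ 2 := by
  rw [hu.rep _ (hu.mem g) g 1, lam_one, real_inner_self_eq_norm_sq]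

private theorem sqrt_le_sum {k : ℕ} (a : Fin k → ℝ) (ha : ∀ i, 0 ≤ a i) (i j : Fin k) :
    √(a i * a j) ≤ ∑ l, a l := by
  have h1 : ∀ i, a i ≤ ∑ l, a l := fun i => single_le_sum (fun l _ => ha l) (mem_univ i)
  have h2 : 0 ≤ ∑ l, a l := sum_nonneg fun l _ => ha l
  rw [Real.sqrt_le_left h2, sq]
  exact mul_le_mul (h1 i) (h1 j) (ha j) h2

/-- the good words have positive density -/
private theorem good_words [Nonempty ι] (hu : Rep s Z u) (hD : 0 < dm Z) {n : ℕ} (hn : 0 < n)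
    {E0 : ℝ} (hE0 : 0 < E0)
    (hcc : EL n (fun l => ‖cc s u (pr s l)‖ ^ 2) ≤ E0 ^ 2 * n ^ 2) (χ : List ι → ℝ)
    (hχ : ∀ l, χ l = if n * (dm Z / Fintype.card ι) / 2 ≤ ‖u (pr s l)‖ ^ 2 then 1 else 0) :
    (dm Z / (2 * Fintype.card ι * E0)) ^ 2 ≤ EL n χ := by
  have hq : (0 : ℝ) < Fintype.card ι := by exact_mod_cast Fintype.card_pos
  have hn' : (0 : ℝ) < n := by exact_mod_cast hn
  set c0 : ℝ := n * (dm Z / Fintype.card ι) / 2 with hc0
  have hc0' : 0 < c0 := by positivity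
  have h1 : EL n (fun l : List ι => ‖u (pr s l)‖ ^ 2) = 2 * c0 := by
    rw [EL_W s n (fun g => ‖u g‖ ^ 2), mom1 hu n, hc0]
    ring
  have h2 : EL n (fun l : List ι => (‖u (pr s l)‖ ^ 2) ^ 2) ≤ E0 ^ 2 * n ^ 2 := by
    refine le_trans (EL_mono n fun l _ => ?_) hcc
    have h := cc_le hu (pr s l) 1
    have h3 : (cc s u (pr s l)) 1 = ‖u (pr s l)‖ ^ 2 := cc_one hu _
    rw [← h3]
    exact le_hasSum (L_hasSum (cc s u (pr s l))) 1 fun _ _ => sq_nonneg _
  have h3 : c0 ≤ EL n (fun l : List ι => ‖u (pr s l)‖ ^ 2 * χ l) := by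
    have h4 : EL n (fun l : List ι => ‖u (pr s l)‖ ^ 2) ≤
        EL n (fun l : List ι => c0 + ‖u (pr s l)‖ ^ 2 * χ l) := by
      refine EL_mono n fun l _ => ?_
      rw [hχ]
      split_ifs with h
      · linarith
      · push Not at h
        linarith
    rw [EL_add n (fun _ => c0), EL_const n c0, h1] at h4
    linarith
  have ht : 0 < c0 / (E0 ^ 2 * n ^ 2) := by positivity
  have h5 := EL_cs n (fun l : List ι => ‖u (pr s l)‖ ^ 2) χ ht
  have h6 : EL n (fun l : List ι => χ l ^ 2) = EL n χ := by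
    congr 1
    funext l
    rw [hχ]
    split_ifs <;> norm_num
  rw [h6] at h5
  have h7 : c0 / (E0 ^ 2 * n ^ 2) * EL n (fun l : List ι => (‖u (pr s l)‖ ^ 2) ^ 2) ≤ c0 := by
    calc c0 / (E0 ^ 2 * n ^ 2) * EL n (fun l : List ι => (‖u (pr s l)‖ ^ 2) ^ 2)
        ≤ c0 / (E0 ^ 2 * n ^ 2) * (E0 ^ 2 * n ^ 2) := mul_le_mul_of_nonneg_left h2 ht.le
      _ = c0 := by field_simp
  have h8 : c0 ≤ (c0 / (E0 ^ 2 * n ^ 2))⁻¹ * EL n χ := by linarith
  rw [inv_div, div_mul_eq_mul_div, le_div_iff₀ hc0'] at h8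
  have h9 : (dm Z / (2 * Fintype.card ι * E0)) ^ 2 * (E0 ^ 2 * n ^ 2) = c0 * c0 := by
    rw [hc0]
    field_simp
  have h10 : (dm Z / (2 * Fintype.card ι * E0)) ^ 2 * (E0 ^ 2 * n ^ 2) ≤
      EL n χ * (E0 ^ 2 * n ^ 2) := by
    rw [h9]
    linarith
  exact le_of_mul_le_mul_right h10 (by positivity)

theorem exists_four [Nonempty ι] [DecidableEq ι] [DecidableEq G]
    (gen : ∀ g : G, ∃ l, pr s l = g)
    (icc : ∀ g : G, g ≠ 1 → (Set.range fun x : G => x * g * x⁻¹).Infinite) (σ : ι → ι)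
    (hσ : Function.Involutive σ) (hs : ∀ i, s (σ i) = (s i)⁻¹) (hZ : Good s Z)
    (hu : Rep s Z u) (hD : 0 < dm Z) {r : ℝ} (hr0 : 0 ≤ r) (hr1 : r < 1)
    (hr : ∀ f : L G, ‖PR s f‖ ≤ r * ‖f‖) :
    ∃ (g : Fin 4 → G) (c0 : ℝ), 0 < c0 ∧ (∀ i, c0 ≤ T s (g i) (u (g i)) 1) ∧
      ∀ A : Fin 4 → Finset G, ∑ i, ∑ j, ∑ x ∈ A i, ∑ y ∈ A j,
        (if i = j ∧ x = y then 0 else (T s (g j) (u (g i)) (x⁻¹ * y)) ^ 2) ≤
          c0 ^ 2 * ∑ i, ((A i).card : ℝ) := by
  have hq : (0 : ℝ) < Fintype.card ι := by exact_mod_cast Fintype.card_pos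
  set q : ℝ := (Fintype.card ι : ℝ) with hqdef
  set D : ℝ := dm Z with hDdef
  set E0 : ℝ := (D + 1) / q with hE0def
  have hE0 : 0 < E0 := by positivity
  set p0 : ℝ := (D / (2 * q * E0)) ^ 2 with hp0def
  have hp0 : 0 < p0 := by positivity
  set κ : ℝ := p0 ^ 4 * (D / (2 * q)) ^ 2 with hκdef
  have hκ : 0 < κ := by positivity
  -- the parameters
  obtain ⟨K, hK⟩ := exists_nat_gt (32 * E0 ^ 2 / κ)
  have hK0 : (0 : ℝ) < K := lt_of_le_of_lt (by positivity) hK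
  have hKn : 0 < K := by exact_mod_cast hK0
  have hK1 : (1 : ℝ) ≤ K := by exact_mod_cast hKn
  set δ : ℝ := κ / (32 * E0) with hδdef
  have hδ : 0 < δ := by positivity
  set ε : ℝ := κ / (4 * (D / q) * (64 * 2 ^ K + 12)) with hεdef
  have hε : 0 < ε := by positivity
  obtain ⟨R, n0, hcf⟩ := cf_mean s hr0 hr1 hr hε
  obtain ⟨n1, hn1⟩ := eventually_atTop.1 (cc_sq gen icc σ hσ hs hZ hu)
  obtain ⟨n2, hn2⟩ := eventually_atTop.1 (off_mean gen icc σ hσ hs hZ hu hδ)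
  set m : ℕ := n0 + n1 + n2 + 1 with hmdef
  have hm0 : (0 : ℝ) < m := by
    rw [hmdef]
    positivity
  have hmn : 0 < m := by omega
  set n : ℕ := K * m with hndef
  have hnm : m ≤ n := Nat.le_mul_of_pos_left m hKn
  have hn0 : 0 < n := lt_of_lt_of_le hmn hnm
  have hnR : (n : ℝ) = K * m := by
    rw [hndef]
    push_cast
    ring
  -- means of the parts
  have hNN : EL n (fun l => ‖NN s u m K l‖ ^ 2) ≤
      K * (E0 ^ 2 * m ^ 2) + K ^ 2 * (√(E0 ^ 2 * m ^ 2) * (δ * m)) := by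
    refine mean_NN m (by positivity) (by positivity) ?_ (hn2 m (by omega)) K
    refine le_trans (EL_mono m fun l _ => ?_) (hn1 m (by omega))
    exact pow_le_pow_left₀ (norm_nonneg _) (off_norm _) 2
  have hsq : √(E0 ^ 2 * (m : ℝ) ^ 2) = E0 * m := by
    rw [← mul_pow]
    exact Real.sqrt_sq (by positivity)
  rw [hsq] at hNN
  have hff : EL n (ff s u R m K) ≤ 8 * 2 ^ K * K * (ε * m ^ 2 * (D / q)) :=
    mean_ff hu R m hε.le (fun ω => hcf m (by omega) ω) K
  have hX : EL n (fun a => EL n (fun b => cf s R (u (pr s a)) b)) ≤ ε * n * (n * (D / q)) := by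
    have h1 : EL n (fun a : List ι => EL n (fun b => cf s R (u (pr s a)) b)) ≤
        EL n (fun a : List ι => (ε * n) • ‖u (pr s a)‖ ^ 2) := by
      refine EL_mono n fun a _ => ?_
      rw [smul_eq_mul]
      exact hcf n (by omega) _
    rw [EL_smul, EL_W s n (fun g => ‖u g‖ ^ 2), mom1 hu n, smul_eq_mul] at h1
    exact h1
  -- the total function
  set S : List ι → ℝ := fun l => 2 * ‖NN s u m K l‖ ^ 2 + 2 * ff s u R m K l with hS
  set X : List ι → List ι → ℝ := fun a b => cf s R (u (pr s a)) b with hXdef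
  set Q : (Fin 4 → List ι) → ℝ := fun w => ∑ i, ∑ j, if i = j then S (w i) else X (w i) (w j)
    with hQdef
  have hS0 : ∀ l, 0 ≤ S l := fun l => by
    have := ff_nonneg s u R m K l
    rw [hS]
    positivity
  have hX0 : ∀ a b, 0 ≤ X a b := fun a b => cf_nonneg s R _ _
  have hQ0 : ∀ w, 0 ≤ Q w := fun w => by
    refine sum_nonneg fun i _ => sum_nonneg fun j _ => ?_
    split_ifs
    · exact hS0 _
    · exact hX0 _ _
  have hES : EL n S ≤ 2 * (K * (E0 ^ 2 * m ^ 2) + K ^ 2 * (E0 * m * (δ * m))) +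
      2 * (8 * 2 ^ K * K * (ε * m ^ 2 * (D / q))) := by
    have h1 : EL n S = 2 * EL n (fun l => ‖NN s u m K l‖ ^ 2) + 2 * EL n (ff s u R m K) := by
      rw [hS, EL_add n (fun l => 2 * ‖NN s u m K l‖ ^ 2)]
      have h2 := EL_smul n (2 : ℝ) (fun l : List ι => ‖NN s u m K l‖ ^ 2)
      have h3 := EL_smul n (2 : ℝ) (ff s u R m K)
      simp only [smul_eq_mul] at h2 h3
      rw [h2, h3]
    rw [h1]
    linarith
  have hEQ : Ek n 4 Q = 4 * EL n S + 12 * EL n (fun a => EL n (fun b => X a b)) := by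
    have h1 : Ek n 4 Q = ∑ i : Fin 4, ∑ j : Fin 4,
        if i = j then EL n S else EL n (fun a => EL n (fun b => X a b)) := by
      rw [hQdef, Ek_sum]
      refine sum_congr rfl fun i _ => ?_
      rw [Ek_sum]
      refine sum_congr rfl fun j _ => ?_
      by_cases hij : i = j
      · simp only [hij, if_true]
        exact Ek_one n 4 j S
      · simp only [hij, if_false]
        exact Ek_two n 4 i j hij X
    rw [h1]
    simp only [Fin.sum_univ_four]
    norm_num [Fin.ext_iff]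
    ring
  have hEQ2 : Ek n 4 Q < κ * K ^ 2 * m ^ 2 := by
    rw [hEQ]
    have h1 : EL n (fun a => EL n (fun b => X a b)) ≤ ε * n * (n * (D / q)) := hX
    have h2 : 4 * EL n S + 12 * EL n (fun a => EL n (fun b => X a b)) ≤
        (8 * E0 ^ 2 / K + 8 * E0 * δ + (64 * 2 ^ K / K + 12) * (ε * (D / q))) *
          (K ^ 2 * m ^ 2) := by
      rw [hnR] at h1
      have h3 : (8 * E0 ^ 2 / K + 8 * E0 * δ + (64 * 2 ^ K / K + 12) * (ε * (D / q))) *
          (K ^ 2 * (m : ℝ) ^ 2) =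
          4 * (2 * (K * (E0 ^ 2 * m ^ 2) + K ^ 2 * (E0 * m * (δ * m))) +
            2 * (8 * 2 ^ K * K * (ε * m ^ 2 * (D / q)))) + 12 * (ε * (K * m) * (K * m * (D / q))) := by
        field_simp
        ring
      rw [h3]
      linarith
    refine lt_of_le_of_lt h2 ?_
    have h4 : 8 * E0 ^ 2 / K < κ / 4 := by
      rw [div_lt_iff₀ hκ] at hK
      rw [div_lt_div_iff₀ hK0 (by norm_num)]
      nlinarith
    have h5 : 8 * E0 * δ = κ / 4 := by
      rw [hδdef]
      field_simp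
      ring
    have h6 : (64 * 2 ^ K / K + 12) * (ε * (D / q)) ≤ κ / 4 := by
      have h7 : (64 * 2 ^ K / K + 12 : ℝ) ≤ 64 * 2 ^ K + 12 := by
        have h8 : (64 * 2 ^ K / K : ℝ) ≤ 64 * 2 ^ K := div_le_self (by positivity) hK1
        linarith
      have h9 : (64 * 2 ^ K + 12 : ℝ) * (ε * (D / q)) = κ / 4 := by
        rw [hεdef]
        field_simp
      calc (64 * 2 ^ K / K + 12 : ℝ) * (ε * (D / q)) ≤ (64 * 2 ^ K + 12) * (ε * (D / q)) :=
            mul_le_mul_of_nonneg_right h7 (by positivity)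
        _ = κ / 4 := h9
    have h10 : 8 * E0 ^ 2 / K + 8 * E0 * δ + (64 * 2 ^ K / K + 12) * (ε * (D / q)) < κ := by
      linarith
    calc (8 * E0 ^ 2 / K + 8 * E0 * δ + (64 * 2 ^ K / K + 12) * (ε * (D / q))) *
          (K ^ 2 * (m : ℝ) ^ 2) < κ * (K ^ 2 * m ^ 2) :=
            mul_lt_mul_of_pos_right h10 (by positivity)
      _ = κ * K ^ 2 * m ^ 2 := by ring
  -- the good words
  set c0 : ℝ := n * (D / q) / 2 with hc0
  have hc0' : 0 < c0 := by
    have : (0 : ℝ) < n := by exact_mod_cast hn0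
    positivity
  set χ : List ι → ℝ := fun l => if c0 ≤ ‖u (pr s l)‖ ^ 2 then 1 else 0 with hχ
  have hχ0 : ∀ l, 0 ≤ χ l := fun l => by
    rw [hχ]
    dsimp only
    split_ifs <;> norm_num
  have hχ1 : ∀ l, χ l ≤ 1 := fun l => by
    rw [hχ]
    dsimp only
    split_ifs <;> norm_num
  have hEχ : p0 ≤ EL n χ := by
    refine good_words hu hD hn0 hE0 (hn1 n (by omega)) χ fun l => ?_
    rfl
  have hlt : Ek n 4 (fun w => (∏ i, χ (w i)) * Q w) < Ek n 4 (fun w => c0 ^ 2 * ∏ i, χ (w i)) := by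
    have h1 : Ek n 4 (fun w => (∏ i, χ (w i)) * Q w) ≤ Ek n 4 Q := by
      refine Ek_mono n 4 fun w _ => ?_
      have h2 : ∏ i, χ (w i) ≤ 1 := prod_le_one (fun i _ => hχ0 _) fun i _ => hχ1 _
      calc (∏ i, χ (w i)) * Q w ≤ 1 * Q w := mul_le_mul_of_nonneg_right h2 (hQ0 w)
        _ = Q w := one_mul _
    refine lt_of_le_of_lt h1 (lt_of_lt_of_le hEQ2 ?_)
    rw [Ek_mul, Ek_prod n 4 χ]
    have h3 : κ * K ^ 2 * m ^ 2 = c0 ^ 2 * p0 ^ 4 := by
      rw [hκdef, hc0, hnR]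
      field_simp
    rw [h3]
    exact mul_le_mul_of_nonneg_left (pow_le_pow_left₀ hp0.le hEχ 4) (by positivity)
  obtain ⟨w, hwl, hw⟩ := Ek_exists n 4 hlt
  have hgood : ∀ i, c0 ≤ ‖u (pr s (w i))‖ ^ 2 := by
    intro i
    by_contra hcon
    have h1 : χ (w i) = 0 := by
      rw [hχ]
      dsimp only
      rw [if_neg hcon]
    have h2 : ∏ j, χ (w j) = 0 := prod_eq_zero (mem_univ i) h1
    rw [h2] at hw
    simp at hw
  have hprod : ∏ i, χ (w i) = 1 := by
    refine prod_eq_one fun i _ => ?_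
    rw [hχ]
    dsimp only
    rw [if_pos (hgood i)]
  have hQw : Q w < c0 ^ 2 := by
    rw [hprod] at hw
    linarith
  refine ⟨fun i => pr s (w i), c0, hc0', fun i => ?_, fun A => ?_⟩
  · rw [cc_one hu]
    exact hgood i
  · set N : ℝ := ∑ i, ((A i).card : ℝ) with hN
    have hN0 : 0 ≤ N := sum_nonneg fun i _ => Nat.cast_nonneg _
    have h1 : ∀ i j, ∑ x ∈ A i, ∑ y ∈ A j,
        (if i = j ∧ x = y then 0 else (T s (pr s (w j)) (u (pr s (w i))) (x⁻¹ * y)) ^ 2) ≤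
          (if i = j then S (w i) else X (w i) (w j)) * N := by
      intro i j
      have hs1 := sqrt_le_sum (fun l => ((A l).card : ℝ)) (fun l => Nat.cast_nonneg _) i j
      by_cases hij : i = j
      · subst hij
        simp only [true_and, if_true]
        refine le_trans (self_bound gen hZ hu R m K (w i) (hwl i) (A i) (A i)) ?_
        exact mul_le_mul_of_nonneg_left hs1 (hS0 _)
      · simp only [hij, false_and, if_false]
        have h2 : T s (pr s (w j)) (u (pr s (w i))) = Tl s (w j) (u (pr s (w i))) :=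
          T_word gen hZ (w j) (hu.mem _)
        rw [h2]
        refine le_trans (pair_conv s R (u (pr s (w i))) (w j) (A i) (A j)) ?_
        exact mul_le_mul_of_nonneg_left hs1 (hX0 _ _)
    calc ∑ i, ∑ j, ∑ x ∈ A i, ∑ y ∈ A j,
        (if i = j ∧ x = y then 0 else (T s (pr s (w j)) (u (pr s (w i))) (x⁻¹ * y)) ^ 2)
        ≤ ∑ i, ∑ j, (if i = j then S (w i) else X (w i) (w j)) * N :=
          sum_le_sum fun i _ => sum_le_sum fun j _ => h1 i j
      _ = Q w * N := by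
          rw [hQdef]
          simp only [sum_mul]
      _ ≤ c0 ^ 2 * N := mul_le_mul_of_nonneg_right hQw.le hN0

end Pool.Agent.Lib.MP_354e85_al.L2C
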