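import Pool.Agent.Lib.MP_354e85_al.L2C.AV
import Pool.Agent.Lib.MP_354e85_al.L2B.Grow

/-! Growth of all finite sets gives a spectral gap. -/

set_option autoImplicit false

namespace Pool.Agent.Lib.MP_354e85_al.L2C

open Finset L2B
open scoped InnerProductSpace Pointwise

variable {G : Type} [Group G] {ι : Type} [Fintype ι]

private theorem gpow [DecidableEq G] (K : Finset G) {η : ℝ} (hη : 0 < η)
    (h : ∀ A : Finset G, (1 + η) * (A.card : ℝ) ≤ ((A * K).card : ℝ)) (m : ℕ) :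
    ∀ A : Finset G, (1 + η) ^ m * (A.card : ℝ) ≤ ((A * K ^ m).card : ℝ) := by
  induction m with
  | zero =>
    intro A
    simp
  | succ m ih =>
    intro A
    have h1 := ih A
    have h2 := h (A * K ^ m)
    rw [pow_succ K m, ← mul_assoc A (K ^ m) K]
    have h3 : (1 + η) * ((1 + η) ^ m * (A.card : ℝ)) ≤ (1 + η) * ((A * K ^ m).card : ℝ) :=
      mul_le_mul_of_nonneg_left h1 (by linarith)
    calc (1 + η) ^ (m + 1) * (A.card : ℝ) = (1 + η) * ((1 + η) ^ m * (A.card : ℝ)) := by ring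
      _ ≤ _ := h3.trans h2

private theorem dbl [DecidableEq G] (K : Finset G) {η : ℝ} (hη : 0 < η)
    (h : ∀ A : Finset G, (1 + η) * (A.card : ℝ) ≤ ((A * K).card : ℝ)) :
    ∃ S : Finset G, ∀ A : Finset G, 2 * A.card ≤ (A * S).card := by
  obtain ⟨m, hm⟩ := exists_nat_ge (1 / η)
  refine ⟨K ^ m, fun A => ?_⟩
  have h2 : (2 : ℝ) ≤ (1 + η) ^ m := by
    have h3 := one_add_mul_le_pow (a := η) (by linarith) m
    have h4 : 1 ≤ m * η := by rwa [div_le_iff₀ hη] at hm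
    linarith
  have h3 := gpow K hη h m A
  have h4 : (2 : ℝ) * A.card ≤ (1 + η) ^ m * A.card :=
    mul_le_mul_of_nonneg_right h2 (Nat.cast_nonneg _)
  have h5 : (2 : ℝ) * A.card ≤ ((A * K ^ m).card : ℝ) := h4.trans h3
  exact_mod_cast h5

private theorem hallF [DecidableEq G] (S : Finset G)
    (h : ∀ A : Finset G, 2 * A.card ≤ (A * S).card) :
    ∃ F : G × Bool → G, Function.Injective F ∧ ∀ x b, ∃ k ∈ S, F (x, b) = x * k := by
  have h1 := (Finset.all_card_le_biUnion_card_iff_exists_injective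
    (fun p : G × Bool => S.image fun k => p.1 * k)).1 ?_
  · obtain ⟨F, hF, hF2⟩ := h1
    refine ⟨F, hF, fun x b => ?_⟩
    obtain ⟨k, hk, hk2⟩ := Finset.mem_image.1 (hF2 (x, b))
    exact ⟨k, hk, hk2.symm⟩
  · intro A
    have h2 : A.card ≤ 2 * (A.image Prod.fst).card := by
      have h3 : A ⊆ (A.image Prod.fst) ×ˢ (univ : Finset Bool) := by
        intro p hp
        exact Finset.mem_product.2 ⟨Finset.mem_image_of_mem _ hp, Finset.mem_univ _⟩
      have h4 := Finset.card_le_card h3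
      rw [Finset.card_product, Finset.card_univ, Fintype.card_bool] at h4
      omega
    have h5 := h (A.image Prod.fst)
    have h6 : (A.image Prod.fst) * S ⊆
        A.biUnion fun p : G × Bool => S.image fun k => p.1 * k := by
      intro y hy
      obtain ⟨a, ha, k, hk, rfl⟩ := Finset.mem_mul.1 hy
      obtain ⟨p, hp, rfl⟩ := Finset.mem_image.1 ha
      exact Finset.mem_biUnion.2 ⟨p, hp, Finset.mem_image_of_mem _ hk⟩
    exact h2.trans (h5.trans (Finset.card_le_card h6))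

private theorem step3 (S : Finset G) (F : G × Bool → G) (hF : Function.Injective F)
    (hS : ∀ x b, ∃ k ∈ S, F (x, b) = x * k) (f : L G) :
    (1 / 16) * ‖f‖ ^ 2 ≤ ∑ k ∈ S, ‖RR k f - f‖ ^ 2 := by
  have hsum : Summable fun p : G × Bool => (f (F p)) ^ 2 :=
    (L_hasSum f).summable.comp_injective hF
  have hg : ∀ b, Summable fun x : G => (f (F (x, b))) ^ 2 := fun b =>
    hsum.comp_injective (i := fun x : G => (x, b)) (fun x y h => (Prod.mk.inj h).1)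
  let g : Bool → L G := fun b => ⟨fun x => f (F (x, b)), L_mem (hg b)⟩
  have h1 : ‖g true‖ ^ 2 + ‖g false‖ ^ 2 ≤ ‖f‖ ^ 2 := by
    have ha := L_hasSum (g true)
    have hb := L_hasSum (g false)
    have hc : HasSum (fun x : G => ∑ b : Bool, (f (F (x, b))) ^ 2)
        (∑' p : G × Bool, (f (F p)) ^ 2) :=
      hsum.hasSum.prod_fiberwise fun x => hasSum_fintype _
    have hd : (fun x : G => ∑ b : Bool, (f (F (x, b))) ^ 2)
        = fun x : G => (g true x) ^ 2 + (g false x) ^ 2 := by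
      funext x
      rw [Fintype.sum_bool]
    rw [hd] at hc
    rw [(ha.add hb).unique hc]
    exact hasSum_le_inj F hF (fun _ _ => sq_nonneg _) (fun _ => le_rfl) hsum.hasSum (L_hasSum f)
  have h2 : ∃ b, ‖g b‖ ^ 2 ≤ ‖f‖ ^ 2 / 2 := by
    by_contra hcon
    push Not at hcon
    have h3 := hcon true
    have h4 := hcon false
    linarith
  obtain ⟨b, hb⟩ := h2
  have h3 : (1 / 16) * ‖f‖ ^ 2 ≤ ‖g b - f‖ ^ 2 := by
    have h4 : ‖f‖ ≤ ‖g b‖ + ‖g b - f‖ := by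
      have h5 : f = g b - (g b - f) := by abel
      calc ‖f‖ = ‖g b - (g b - f)‖ := by rw [← h5]
        _ ≤ _ := norm_sub_le _ _
    have h6 : 0 ≤ ‖g b‖ := norm_nonneg _
    have h7 : 0 ≤ ‖g b - f‖ := norm_nonneg _
    have h8 : 0 ≤ ‖f‖ := norm_nonneg _
    by_contra hcon
    push Not at hcon
    have h9 : ‖g b - f‖ < ‖f‖ / 4 := by
      by_contra h10
      push Not at h10
      nlinarith
    have h10 : 3 / 4 * ‖f‖ < ‖g b‖ := by linarith
    nlinarith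
  refine h3.trans ?_
  have h4 : HasSum (fun x => (f (F (x, b)) - f x) ^ 2) (‖g b - f‖ ^ 2) := L_hasSum (g b - f)
  have h5 : HasSum (fun x => ∑ k ∈ S, (f (x * k) - f x) ^ 2) (∑ k ∈ S, ‖RR k f - f‖ ^ 2) :=
    hasSum_sum fun k _ => L_hasSum (RR k f - f)
  refine hasSum_le (fun x => ?_) h4 h5
  obtain ⟨k, hk, hk2⟩ := hS x b
  rw [hk2]
  exact Finset.single_le_sum (f := fun k => (f (x * k) - f x) ^ 2) (fun _ _ => sq_nonneg _) hk

omit [Fintype ι] in
private theorem word_le (s : ι → G) (f : L G) {D : ℝ} (hD : ∀ i, ‖RR (s i) f - f‖ ≤ D)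
    (l : List ι) : ‖RR (pr s l) f - f‖ ≤ l.length * D := by
  induction l with
  | nil => simp [pr, RR_one]
  | cons i l ih =>
    have e : pr s (i :: l) = s i * pr s l := by simp [pr]
    have e2 : RR (pr s (i :: l)) f - f = RR (s i) (RR (pr s l) f - f) + (RR (s i) f - f) := by
      rw [e, ← RR_RR, map_sub]
      abel
    rw [e2]
    refine (norm_add_le _ _).trans ?_
    rw [LinearIsometry.norm_map, List.length_cons]
    push_cast
    linarith [hD i]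

private theorem PR_app (s : ι → G) (f : L G) :
    PR s f = (Fintype.card ι : ℝ)⁻¹ • ∑ i, RR (s i) f := by
  unfold PR
  rw [ContinuousLinearMap.smul_apply, ContinuousLinearMap.sum_apply]
  rfl

private theorem PR_inner (s : ι → G) (f g : L G) :
    ⟪PR s f, g⟫_ℝ = (Fintype.card ι : ℝ)⁻¹ * ∑ i, ⟪RR (s i) f, g⟫_ℝ := by
  rw [PR_app, real_inner_smul_left, sum_inner]

private theorem energy [Nonempty ι] (s : ι → G) (f : L G) :
    ∑ i, ‖RR (s i) f - f‖ ^ 2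
      = 2 * (Fintype.card ι : ℝ) * (‖f‖ ^ 2 - ⟪PR s f, f⟫_ℝ) := by
  have hq : (Fintype.card ι : ℝ) ≠ 0 := by exact_mod_cast Fintype.card_ne_zero
  have h2 : ∀ i, ‖RR (s i) f - f‖ ^ 2 = 2 * ‖f‖ ^ 2 - 2 * ⟪RR (s i) f, f⟫_ℝ := by
    intro i
    rw [norm_sub_sq_real, LinearIsometry.norm_map]
    ring
  simp only [h2, sum_sub_distrib, ← mul_sum]
  rw [PR_inner, sum_const, card_univ, nsmul_eq_mul]
  field_simp

private theorem RR_symm (g : G) (f h : L G) : ⟪RR g f, h⟫_ℝ = ⟪f, RR g⁻¹ h⟫_ℝ := by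
  have h1 : ⟪RR g⁻¹ (RR g f), RR g⁻¹ h⟫_ℝ = ⟪RR g f, h⟫_ℝ := LinearIsometry.inner_map_map _ _ _
  rw [RR_RR, inv_mul_cancel, RR_one] at h1
  exact h1.symm

private theorem PR_symm (s : ι → G) (σ : ι → ι) (hσ : Function.Involutive σ)
    (hs : ∀ i, s (σ i) = (s i)⁻¹) (f g : L G) : ⟪PR s f, g⟫_ℝ = ⟪f, PR s g⟫_ℝ := by
  rw [PR_inner, PR_app, real_inner_smul_right, inner_sum]
  congr 1
  refine Fintype.sum_equiv (Function.Involutive.toPerm σ hσ) _ _ fun i => ?_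
  rw [Function.Involutive.coe_toPerm, hs, RR_symm]

private theorem abs_mem (f : L G) : Summable fun x => (|f x|) ^ 2 := by
  simp only [sq_abs]
  exact (L_hasSum f).summable

private noncomputable def ab (f : L G) : L G := ⟨fun x => |f x|, L_mem (abs_mem f)⟩

private theorem ab_norm (f : L G) : ‖ab f‖ = ‖f‖ := by
  have h1 : HasSum (fun x => (|f x|) ^ 2) (‖ab f‖ ^ 2) := L_hasSum (ab f)
  simp only [sq_abs] at h1
  exact (pow_left_inj₀ (norm_nonneg _) (norm_nonneg _) (by norm_num)).1 (h1.unique (L_hasSum f))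

private theorem ab_inner (g : G) (f : L G) : |⟪RR g f, f⟫_ℝ| ≤ ⟪RR g (ab f), ab f⟫_ℝ := by
  have h1 : HasSum (fun x => f (x * g) * f x) ⟪RR g f, f⟫_ℝ := L_inner (RR g f) f
  have h2 : HasSum (fun x => |f (x * g)| * |f x|) ⟪RR g (ab f), ab f⟫_ℝ :=
    L_inner (RR g (ab f)) (ab f)
  rw [abs_le]
  constructor
  · refine hasSum_le (fun x => ?_) h2.neg h1
    rw [← abs_mul]
    exact neg_abs_le _
  · refine hasSum_le (fun x => ?_) h1 h2
    rw [← abs_mul]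
    exact le_abs_self _

private theorem PR_abs (s : ι → G) (f : L G) : |⟪PR s f, f⟫_ℝ| ≤ ⟪PR s (ab f), ab f⟫_ℝ := by
  rw [PR_inner, PR_inner, abs_mul, abs_of_nonneg (by positivity : (0 : ℝ) ≤ (Fintype.card ι : ℝ)⁻¹)]
  refine mul_le_mul_of_nonneg_left ?_ (by positivity)
  exact (Finset.abs_sum_le_sum_abs _ _).trans (Finset.sum_le_sum fun i _ => ab_inner _ _)

private theorem polar (s : ι → G) (σ : ι → ι) (hσ : Function.Involutive σ)
    (hs : ∀ i, s (σ i) = (s i)⁻¹) {r : ℝ} (h : ∀ f : L G, |⟪PR s f, f⟫_ℝ| ≤ r * ‖f‖ ^ 2)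
    (f : L G) : ‖PR s f‖ ≤ r * ‖f‖ := by
  by_cases hf : f = 0
  · rw [hf, map_zero, norm_zero, mul_zero]
  by_cases hp : PR s f = 0
  · have h1 := h f
    have h2 := abs_nonneg ⟪PR s f, f⟫_ℝ
    have h3 : 0 < ‖f‖ := norm_pos_iff.2 hf
    have h4 : 0 ≤ r * ‖f‖ ^ 2 := h2.trans h1
    rw [hp, norm_zero]
    have h5 : 0 ≤ r := by
      by_contra hcon
      push Not at hcon
      nlinarith [mul_pos h3 h3]
    positivity
  have h3 : 0 < ‖f‖ := norm_pos_iff.2 hf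
  have h4 : 0 < ‖PR s f‖ := norm_pos_iff.2 hp
  set t : ℝ := ‖f‖ / ‖PR s f‖ with ht
  set g : L G := t • PR s f with hg
  have hgn : ‖g‖ = ‖f‖ := by
    rw [hg, norm_smul, Real.norm_eq_abs, abs_of_nonneg (by positivity), ht]
    field_simp
  have h5 : ⟪PR s f, g⟫_ℝ = ‖f‖ * ‖PR s f‖ := by
    rw [hg, real_inner_smul_right, real_inner_self_eq_norm_sq, ht]
    field_simp
  have h6 : ⟪PR s g, f⟫_ℝ = ‖f‖ * ‖PR s f‖ := by
    rw [PR_symm s σ hσ hs, real_inner_comm, h5]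
  have h7 : ⟪PR s (f + g), f + g⟫_ℝ - ⟪PR s (f - g), f - g⟫_ℝ = 4 * (‖f‖ * ‖PR s f‖) := by
    rw [map_add, map_sub]
    simp only [inner_add_left, inner_add_right, inner_sub_left, inner_sub_right]
    rw [h5, h6]
    ring
  have h8 := (abs_le.1 (h (f + g))).2
  have h9 := (abs_le.1 (h (f - g))).1
  have h10 : ‖f + g‖ ^ 2 + ‖f - g‖ ^ 2 = 4 * ‖f‖ ^ 2 := by
    have h11 := parallelogram_law_with_norm ℝ f g
    rw [hgn] at h11
    nlinarith
  have h11 : 4 * (‖f‖ * ‖PR s f‖) ≤ r * (4 * ‖f‖ ^ 2) := by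
    rw [← h10, ← h7]
    linarith
  have h12 : ‖f‖ * ‖PR s f‖ ≤ ‖f‖ * (r * ‖f‖) := by nlinarith
  exact le_of_mul_le_mul_left h12 h3

/-- Proof. (1) Iterate: for some `m` and `K' = K ^ m` (see `growth_pow`, private in Grow.lean)
`2 |A| ≤ |A K'|` for all finite `A`. (2) Hall's marriage theorem
(`Finset.all_card_le_biUnion_card_iff_exists_injective`, index type `G × Bool`, sets `x K'`):
an injective `F : G × Bool → G` with `F (x, b) ∈ x K'`. (3) For `f : L G`: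
`∑ x, f (F (x, true)) ^ 2 + ∑ x, f (F (x, false)) ^ 2 ≤ ‖f‖ ^ 2`, so for one `b` the function
`f ∘ F (·, b)` has norm at most `‖f‖ / √2`, hence
`(1 / 16) ‖f‖ ^ 2 ≤ ‖f ∘ F (·, b) - f‖ ^ 2 ≤ ∑ k ∈ K', ‖RR k f - f‖ ^ 2`.
(4) `‖RR (pr s l) f - f‖ ≤ l.length * max_i ‖RR (s i) f - f‖`, so
`c ‖f‖ ^ 2 ≤ ∑ i, ‖RR (s i) f - f‖ ^ 2 = 2 q (‖f‖ ^ 2 - ⟪PR s f, f⟫)` with `c > 0`.
(5) `PR s` is self-adjoint (symmetric family), `|⟪PR s f, f⟫| ≤ ⟪PR s |f|, |f|⟫ ≤ r ‖f‖ ^ 2`, and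
polarization gives `‖PR s f‖ ≤ r ‖f‖`. -/
theorem gap [Nonempty ι] [DecidableEq G] (s : ι → G) (gen : ∀ g : G, ∃ l, pr s l = g)
    (σ : ι → ι) (hσ : Function.Involutive σ) (hs : ∀ i, s (σ i) = (s i)⁻¹)
    (K : Finset G) {η : ℝ} (hη : 0 < η)
    (h : ∀ A : Finset G, (1 + η) * (A.card : ℝ) ≤ ((A * K).card : ℝ)) :
    ∃ r : ℝ, 0 ≤ r ∧ r < 1 ∧ ∀ f : L G, ‖PR s f‖ ≤ r * ‖f‖ := by
  classical
  obtain ⟨S, hS⟩ := dbl K hη h
  obtain ⟨F, hF, hF2⟩ := hallF S hS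
  choose w hw using gen
  set q : ℝ := (Fintype.card ι : ℝ) with hq
  have hq1 : 1 ≤ q := by
    rw [hq]
    exact_mod_cast Fintype.card_pos
  set C : ℝ := ∑ k ∈ S, ((w k).length : ℝ) ^ 2 with hC
  have hC0 : 0 ≤ C := Finset.sum_nonneg fun _ _ => sq_nonneg _
  have hE : ∀ f : L G, (1 / 16) * ‖f‖ ^ 2 ≤ (C + 1) * ∑ i, ‖RR (s i) f - f‖ ^ 2 := by
    intro f
    have hE0 : 0 ≤ ∑ i, ‖RR (s i) f - f‖ ^ 2 := Finset.sum_nonneg fun _ _ => sq_nonneg _
    refine (step3 S F hF hF2 f).trans ?_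
    have h1 : ∀ i, ‖RR (s i) f - f‖ ≤ Real.sqrt (∑ i, ‖RR (s i) f - f‖ ^ 2) := by
      intro i
      refine Real.le_sqrt_of_sq_le ?_
      exact Finset.single_le_sum (f := fun i => ‖RR (s i) f - f‖ ^ 2) (fun _ _ => sq_nonneg _)
        (Finset.mem_univ i)
    have h2 : ∀ k ∈ S, ‖RR k f - f‖ ^ 2
        ≤ ((w k).length : ℝ) ^ 2 * ∑ i, ‖RR (s i) f - f‖ ^ 2 := by
      intro k _
      have h3 := word_le s f h1 (w k)
      rw [hw k] at h3
      calc ‖RR k f - f‖ ^ 2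
          ≤ ((w k).length * Real.sqrt (∑ i, ‖RR (s i) f - f‖ ^ 2)) ^ 2 :=
            pow_le_pow_left₀ (norm_nonneg _) h3 2
        _ = _ := by rw [mul_pow, Real.sq_sqrt hE0]
    have h3 := Finset.sum_le_sum h2
    rw [← Finset.sum_mul, ← hC] at h3
    linarith
  refine ⟨1 - 1 / (32 * q * (C + 1)), ?_, ?_, ?_⟩
  · have h1 : 1 ≤ 32 * q * (C + 1) := by nlinarith
    have h2 : 1 / (32 * q * (C + 1)) ≤ 1 := by
      rw [div_le_one (by positivity)]
      exact h1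
    linarith
  · have h1 : 0 < 1 / (32 * q * (C + 1)) := by positivity
    linarith
  · refine polar s σ hσ hs fun f => ?_
    refine (PR_abs s f).trans ?_
    rw [← ab_norm f]
    have h1 := hE (ab f)
    rw [energy, ← hq] at h1
    have h2 : 0 < 32 * q * (C + 1) := by positivity
    have h3 : ‖ab f‖ ^ 2 / (32 * q * (C + 1)) ≤ ‖ab f‖ ^ 2 - ⟪PR s (ab f), ab f⟫_ℝ := by
      rw [div_le_iff₀ h2]
      nlinarith
    have h4 : (1 - 1 / (32 * q * (C + 1))) * ‖ab f‖ ^ 2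
        = ‖ab f‖ ^ 2 - ‖ab f‖ ^ 2 / (32 * q * (C + 1)) := by ring
    rw [h4]
    linarith

end Pool.Agent.Lib.MP_354e85_al.L2C
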