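import Mathlib

/-! The rank of a Gram matrix and the number of vertices. -/

set_option autoImplicit false

namespace Pool.Agent.Lib.MP_354e85_al.L2C

open Finset
open scoped InnerProductSpace

/-- The squared lengths of the projections of the basis vectors add up to the dimension. -/
private theorem sum_proj {β : Type} [Fintype β] [DecidableEq β]
    (E : Submodule ℝ (EuclideanSpace ℝ β)) :
    ∑ b : β, ‖E.starProjection (EuclideanSpace.basisFun β ℝ b)‖ ^ 2 = (Module.finrank ℝ E : ℝ) := by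
  have hp : LinearMap.IsProj E (E.starProjection : EuclideanSpace ℝ β →ₗ[ℝ] EuclideanSpace ℝ β) :=
    ⟨fun x => Submodule.starProjection_apply_mem _ _,
      fun x hx => Submodule.starProjection_eq_self_iff.2 hx⟩
  rw [← hp.trace, LinearMap.trace_eq_sum_inner _ (EuclideanSpace.basisFun β ℝ)]
  refine sum_congr rfl fun b _ => ?_
  have h := Submodule.starProjection_inner_eq_zero (K := E) (EuclideanSpace.basisFun β ℝ b)
    (E.starProjection (EuclideanSpace.basisFun β ℝ b)) (Submodule.starProjection_apply_mem _ _)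
  rw [inner_sub_left, sub_eq_zero] at h
  rw [← real_inner_self_eq_norm_sq]
  exact h.symm

/-- One basis vector. -/
private theorem one_vec {β : Type} [Fintype β] [DecidableEq β]
    (E : Submodule ℝ (EuclideanSpace ℝ β)) (w : EuclideanSpace ℝ β) (hw : w ∈ E) (b : β) :
    (w b) ^ 2 ≤ ‖w‖ ^ 2 * ‖E.starProjection (EuclideanSpace.basisFun β ℝ b)‖ ^ 2 := by
  have h := Submodule.starProjection_inner_eq_zero (K := E) (EuclideanSpace.basisFun β ℝ b) w hw
  rw [inner_sub_left, sub_eq_zero] at h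
  have h2 : ⟪EuclideanSpace.basisFun β ℝ b, w⟫_ℝ = w b := by
    simp [EuclideanSpace.inner_single_left]
  rw [h2] at h
  have h3 := abs_real_inner_le_norm (E.starProjection (EuclideanSpace.basisFun β ℝ b)) w
  rw [← h] at h3
  rw [← sq_abs, ← mul_pow, mul_comm ‖w‖]
  exact pow_le_pow_left₀ (abs_nonneg _) h3 2

/-- Restricted gradients as a linear image of the functions on a finite set. -/
private noncomputable def gr {G : Type} [Group G] {k : ℕ} (g : Fin k → G) (A : Fin k → Finset G)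
    (U : Finset G) (h1 : ∀ i, ∀ x ∈ A i, x ∈ U) (h2 : ∀ i, ∀ x ∈ A i, x * g i ∈ U) :
    (U → ℝ) →ₗ[ℝ] EuclideanSpace ℝ (Σ i : Fin k, {x // x ∈ A i}) where
  toFun h := WithLp.toLp 2 fun b =>
    h ⟨b.2.1 * g b.1, h2 b.1 b.2.1 b.2.2⟩ - h ⟨b.2.1, h1 b.1 b.2.1 b.2.2⟩
  map_add' h h' := by
    ext b
    simp only [Pi.add_apply, PiLp.add_apply]
    ring
  map_smul' c h := by
    ext b
    simp only [Pi.smul_apply, PiLp.smul_apply, smul_eq_mul, RingHom.id_apply]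
    ring

private theorem tangent {c0 d o p : ℝ} (hc0 : 0 < c0) (hd : c0 ≤ d) (ho : 0 ≤ o)
    (h : d ^ 2 ≤ (d ^ 2 + o) * p) : 3 / 4 - o / (4 * c0 ^ 2) ≤ p := by
  have hc : 0 < c0 ^ 2 := by positivity
  have hd2 : c0 ^ 2 ≤ d ^ 2 := pow_le_pow_left₀ hc0.le hd 2
  have hs : 0 < d ^ 2 + o := by linarith
  by_contra hcon
  push Not at hcon
  have h1 : (d ^ 2 + o) * p < (d ^ 2 + o) * (3 / 4 - o / (4 * c0 ^ 2)) :=
    mul_lt_mul_of_pos_left hcon hs
  have h2 : (d ^ 2 + o) * (3 / 4 - o / (4 * c0 ^ 2)) * (4 * c0 ^ 2) ≤ d ^ 2 * (4 * c0 ^ 2) := by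
    have h3 : (d ^ 2 + o) * (3 / 4 - o / (4 * c0 ^ 2)) * (4 * c0 ^ 2)
        = (d ^ 2 + o) * (3 * c0 ^ 2 - o) := by
      field_simp
    rw [h3]
    nlinarith [mul_nonneg ho (sub_nonneg.2 hd2), sq_nonneg (o - c0 ^ 2),
      mul_nonneg hc.le (sub_nonneg.2 hd2)]
  have h4 : (d ^ 2 + o) * (3 / 4 - o / (4 * c0 ^ 2)) ≤ d ^ 2 :=
    le_of_mul_le_mul_right h2 (by positivity)
  linarith

/-- Proof. Put `E = Σ i, A i`, `V` the vertex set on the right, `M e e' = f i (x⁻¹ * y * g j) -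
f i (x⁻¹ * y)` for `e = (i, x)`, `e' = (j, y)`. The rows `w e = M e ·` lie in a subspace `S` of
`EuclideanSpace ℝ E` of dimension at most `|V|` (range of the linear map
`(V → ℝ) → EuclideanSpace ℝ E`, `h ↦ (h (y * g j) - h y)`). Hence
`(w e e) ^ 2 ≤ ‖w e‖ ^ 2 * ‖P_S e_e‖ ^ 2` and `∑ e, ‖P_S e_e‖ ^ 2 = dim S ≤ |V|` (`one_vec`,
`sum_proj` of L2B/Exp.lean). With `d = w e e ≥ c0`, `‖w e‖ ^ 2 = d ^ 2 + o e`:
`|V| ≥ ∑ e, d ^ 2 / (d ^ 2 + o e) ≥ ∑ e, c0 ^ 2 / (c0 ^ 2 + o e) ≥ |E| ^ 2 / (|E| + ∑ o e / c0 ^ 2)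
≥ |E| / 2`. -/
theorem gram_card {G : Type} [Group G] [DecidableEq G] {k : ℕ} (g : Fin k → G)
    (f : Fin k → G → ℝ) {c0 : ℝ} (hc0 : 0 < c0) (hd : ∀ i, c0 ≤ f i (g i) - f i 1)
    (A : Fin k → Finset G)
    (hoff : ∑ i, ∑ j, ∑ x ∈ A i, ∑ y ∈ A j,
      (if i = j ∧ x = y then 0 else (f i (x⁻¹ * y * g j) - f i (x⁻¹ * y)) ^ 2) ≤
        c0 ^ 2 * ∑ i, ((A i).card : ℝ)) :
    ∑ i, ((A i).card : ℝ) ≤ 2 * (((univ : Finset (Fin k)).biUnion
      fun i => A i ∪ (A i).image (fun x => x * g i)).card : ℝ) := by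
  classical
  set U : Finset G := (univ : Finset (Fin k)).biUnion
    fun i => A i ∪ (A i).image (fun x => x * g i) with hU
  have h1 : ∀ i, ∀ x ∈ A i, x ∈ U := fun i x hx =>
    mem_biUnion.2 ⟨i, mem_univ _, mem_union_left _ hx⟩
  have h2 : ∀ i, ∀ x ∈ A i, x * g i ∈ U := fun i x hx =>
    mem_biUnion.2 ⟨i, mem_univ _, mem_union_right _ (mem_image_of_mem _ hx)⟩
  set S : Submodule ℝ (EuclideanSpace ℝ (Σ i : Fin k, {x // x ∈ A i})) :=
    LinearMap.range (gr g A U h1 h2) with hS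
  have hdim : (Module.finrank ℝ S : ℝ) ≤ (U.card : ℝ) := by
    have h := LinearMap.finrank_range_le (gr g A U h1 h2)
    rw [Module.finrank_fintype_fun_eq_card, Fintype.card_coe] at h
    exact_mod_cast h
  let m : (Σ i : Fin k, {x // x ∈ A i}) → (Σ i : Fin k, {x // x ∈ A i}) → ℝ :=
    fun e e' => f e.1 (e.2.1⁻¹ * e'.2.1 * g e'.1) - f e.1 (e.2.1⁻¹ * e'.2.1)
  let o : (Σ i : Fin k, {x // x ∈ A i}) → ℝ :=
    fun e => ∑ e', (if e.1 = e'.1 ∧ e.2.1 = e'.2.1 then 0 else (m e e') ^ 2)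
  have hcond : ∀ e e' : (Σ i : Fin k, {x // x ∈ A i}),
      (e.1 = e'.1 ∧ e.2.1 = e'.2.1) ↔ e = e' := by
    rintro ⟨i, x, hx⟩ ⟨j, y, hy⟩
    constructor
    · rintro ⟨h3, h4⟩
      dsimp only at h3 h4
      subst h3
      subst h4
      rfl
    · intro h
      rw [h]
      exact ⟨rfl, rfl⟩
  have ho : ∀ e, 0 ≤ o e := fun e => sum_nonneg fun e' _ => by
    split_ifs
    · exact le_rfl
    · exact sq_nonneg _
  have hsum : ∀ e, ∑ e', (m e e') ^ 2 = (m e e) ^ 2 + o e := by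
    intro e
    have h3 : ∀ e', (m e e') ^ 2 = (if e = e' then (m e e') ^ 2 else 0) +
        (if e.1 = e'.1 ∧ e.2.1 = e'.2.1 then 0 else (m e e') ^ 2) := by
      intro e'
      by_cases h : e = e'
      · rw [if_pos h, if_pos ((hcond e e').2 h), add_zero]
      · rw [if_neg h, if_neg fun h4 => h ((hcond e e').1 h4), zero_add]
    rw [sum_congr rfl fun e' _ => h3 e', sum_add_distrib]
    simp only [sum_ite_eq, mem_univ, if_true]
    rfl
  have key : ∀ e : (Σ i : Fin k, {x // x ∈ A i}), 3 / 4 - o e / (4 * c0 ^ 2) ≤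
      ‖S.starProjection (EuclideanSpace.basisFun (Σ i : Fin k, {x // x ∈ A i}) ℝ e)‖ ^ 2 := by
    intro e
    let w : EuclideanSpace ℝ (Σ i : Fin k, {x // x ∈ A i}) :=
      gr g A U h1 h2 fun u => f e.1 (e.2.1⁻¹ * u.1)
    have hw : w ∈ S := ⟨_, rfl⟩
    have hwa : ∀ b, w b = m e b := by
      intro b
      change f e.1 (e.2.1⁻¹ * (b.2.1 * g b.1)) - f e.1 (e.2.1⁻¹ * b.2.1) = _
      rw [← mul_assoc]
    have hn : ‖w‖ ^ 2 = (m e e) ^ 2 + o e := by
      rw [EuclideanSpace.norm_sq_eq, ← hsum e]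
      refine sum_congr rfl fun b _ => ?_
      rw [Real.norm_eq_abs, sq_abs, hwa b]
    have h6 := one_vec S w hw e
    rw [hwa e, hn] at h6
    have hde : c0 ≤ m e e := by
      change c0 ≤ f e.1 (e.2.1⁻¹ * e.2.1 * g e.1) - f e.1 (e.2.1⁻¹ * e.2.1)
      rw [inv_mul_cancel, one_mul]
      exact hd e.1
    exact tangent hc0 hde (ho e) h6
  have h9 : ∑ e, (3 / 4 - o e / (4 * c0 ^ 2)) ≤ ∑ e,
      ‖S.starProjection (EuclideanSpace.basisFun (Σ i : Fin k, {x // x ∈ A i}) ℝ e)‖ ^ 2 :=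
    sum_le_sum fun e _ => key e
  rw [sum_proj S] at h9
  have hE : (Fintype.card (Σ i : Fin k, {x // x ∈ A i}) : ℝ) = ∑ i, ((A i).card : ℝ) := by
    rw [Fintype.card_sigma]
    push_cast
    refine sum_congr rfl fun i _ => ?_
    rw [Fintype.card_coe]
  have hoo : ∑ e, o e = ∑ i, ∑ j, ∑ x ∈ A i, ∑ y ∈ A j,
      (if i = j ∧ x = y then 0 else (f i (x⁻¹ * y * g j) - f i (x⁻¹ * y)) ^ 2) := by
    rw [Fintype.sum_sigma]
    refine sum_congr rfl fun i _ => ?_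
    symm
    rw [sum_comm]
    rw [← sum_coe_sort (A i)]
    refine sum_congr rfl fun x _ => ?_
    symm
    change ∑ e' : (Σ i : Fin k, {x // x ∈ A i}), _ = _
    rw [Fintype.sum_sigma]
    refine sum_congr rfl fun j _ => ?_
    rw [← sum_coe_sort (A j)]
  rw [← hoo, ← hE] at hoff
  rw [← hE]
  have h10 : ∑ e : (Σ i : Fin k, {x // x ∈ A i}), (3 / 4 - o e / (4 * c0 ^ 2)) =
      3 / 4 * (Fintype.card (Σ i : Fin k, {x // x ∈ A i}) : ℝ) - (∑ e, o e) / (4 * c0 ^ 2) := by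
    rw [sum_sub_distrib, sum_const, card_univ, nsmul_eq_mul, sum_div]
    ring
  rw [h10] at h9
  have h11 : (∑ e, o e) / (4 * c0 ^ 2) ≤
      1 / 4 * (Fintype.card (Σ i : Fin k, {x // x ∈ A i}) : ℝ) := by
    rw [div_le_iff₀ (by positivity)]
    refine hoff.trans (le_of_eq ?_)
    ring
  linarith

end Pool.Agent.Lib.MP_354e85_al.L2C
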