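import Pool.Agent.Lib.MP_354e85_al.L2B.MomF

/-! Cocycles which represent the increments of a part of the harmonic functions: the first and
second moments. -/

set_option autoImplicit false

namespace Pool.Agent.Lib.MP_354e85_al.L2C

open Finset Filter Topology L2B
open scoped InnerProductSpace

variable {G : Type} [Group G] {ι : Type} [Fintype ι] {κ : Type} {s : ι → G}
  {Z : Submodule ℝ (L (ι × G))} {J : L (κ × G) →L[ℝ] L (ι × G)} {v : G → L (κ × G)}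

/-- A cocycle `v` with values in the square summable functions on `κ × G`, and a map `J` with
`T s g (J (v g')) x = ⟪lam x (v g'), v g⟫`. For `J = id` and `v` = the representers of the
increments on `Z` see `RepJ.of_rep`. -/
structure RepJ (s : ι → G) (Z : Submodule ℝ (L (ι × G))) (J : L (κ × G) →L[ℝ] L (ι × G))
    (v : G → L (κ × G)) : Prop where
  mem : ∀ g, J (v g) ∈ Z
  lamJ : ∀ (y : G) (ω : L (κ × G)), J (lam y ω) = lam y (J ω)
  norm : ∀ ω : L (κ × G), ‖J ω‖ ≤ ‖ω‖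
  rep : ∀ g g' x : G, T s g (J (v g')) x = ⟪lam x (v g'), v g⟫_ℝ
  mul : ∀ g h, v (g * h) = v g + lam g⁻¹ (v h)
  sum : ∑ i, v (s i) = 0

theorem RepJ.of_rep {u : G → L (ι × G)} (hu : Rep s Z u) :
    RepJ s Z (ContinuousLinearMap.id ℝ (L (ι × G))) u where
  mem g := hu.mem g
  lamJ _ _ := rfl
  norm _ := le_rfl
  rep g g' x := hu.rep _ (hu.mem g') g x
  mul := hu.mul
  sum := hu.sum

/-- The sum of the squares of the norms of the letters. -/
noncomputable def dJ (s : ι → G) (v : G → L (κ × G)) : ℝ := ∑ i, ‖v (s i)‖ ^ 2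

/-- The coefficient function. -/
noncomputable def cJ (s : ι → G) (J : L (κ × G) →L[ℝ] L (ι × G)) (v : G → L (κ × G)) (g : G) :
    L G := T s g (J (v g))

omit [Group G] in
theorem dJ_nonneg (s : ι → G) (v : G → L (κ × G)) : 0 ≤ dJ s v :=
  Finset.sum_nonneg fun _ _ => sq_nonneg _

theorem lam_inner' (y : G) (a b : L (κ × G)) : ⟪lam y a, b⟫_ℝ = ⟪a, lam y⁻¹ b⟫_ℝ := by
  have h : ⟪lam y⁻¹ (lam y a), lam y⁻¹ b⟫_ℝ = ⟪lam y a, b⟫_ℝ := LinearIsometry.inner_map_map _ _ _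
  rw [← h, lam_lam, mul_inv_cancel, lam_one]

namespace RepJ

theorem one (hv : RepJ s Z J v) : v 1 = 0 := by
  have h := hv.mul 1 1
  rw [mul_one, inv_one, lam_one] at h
  simpa using h

theorem lam_mem (hZ : Good s Z) (hv : RepJ s Z J v) (y g : G) : J (lam y (v g)) ∈ Z := by
  rw [hv.lamJ]
  exact hZ.inv _ _ (hv.mem g)

/-- the representation for translates -/
theorem rep' (hv : RepJ s Z J v) (g g' y x : G) :
    T s g (J (lam y (v g'))) x = ⟪lam x (lam y (v g')), v g⟫_ℝ := by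
  rw [hv.lamJ, T_lam, LL_apply, hv.rep, lam_lam]

theorem inv (hv : RepJ s Z J v) (g : G) : v g⁻¹ = - lam g (v g) := by
  have h := hv.mul g g⁻¹
  rw [mul_inv_cancel, hv.one] at h
  have h' := congrArg (lam g) h
  rw [map_zero, map_add, lam_lam, inv_mul_cancel, lam_one] at h'
  exact eq_neg_of_add_eq_zero_right h'.symm

theorem mom1_step (hv : RepJ s Z J v) (g : G) :
    ∑ i, ‖v (g * s i)‖ ^ 2 = (Fintype.card ι : ℝ) * ‖v g‖ ^ 2 + dJ s v := by
  have h1 : ∀ i, ‖v (g * s i)‖ ^ 2 = ‖v g‖ ^ 2 + 2 * ⟪v g, lam g⁻¹ (v (s i))⟫_ℝ +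
      ‖v (s i)‖ ^ 2 := by
    intro i
    rw [hv.mul, norm_add_sq_real, LinearIsometry.norm_map]
  rw [Finset.sum_congr rfl fun i _ => h1 i, Finset.sum_add_distrib, Finset.sum_add_distrib,
    ← Finset.mul_sum, ← inner_sum, ← map_sum, hv.sum]
  unfold dJ
  simp

theorem mom1 [Nonempty ι] (hv : RepJ s Z J v) (n : ℕ) :
    W s n (fun g => ‖v g‖ ^ 2) = n * (dJ s v / Fintype.card ι) := by
  induction n with
  | zero =>
    change ‖v 1‖ ^ 2 = _
    rw [hv.one]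
    simp
  | succ n ih =>
    change W s n (fun g => (Fintype.card ι : ℝ)⁻¹ • ∑ i, ‖v (g * s i)‖ ^ 2) = _
    have hq : (Fintype.card ι : ℝ) ≠ 0 := by exact_mod_cast Fintype.card_ne_zero
    have e : (fun g => (Fintype.card ι : ℝ)⁻¹ • ∑ i, ‖v (g * s i)‖ ^ 2) =
        fun g => ‖v g‖ ^ 2 + dJ s v / Fintype.card ι := by
      funext g
      rw [hv.mom1_step, smul_eq_mul]
      field_simp
    rw [e, W_add, ih, W_const]
    push_cast
    ring

end RepJ

/-- the two mixed terms -/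
noncomputable def jA (s : ι → G) (J : L (κ × G) →L[ℝ] L (ι × G)) (v : G → L (κ × G)) (g : G)
    (i : ι) : L G := T s g (J (lam g⁻¹ (v (s i))))

noncomputable def jB (s : ι → G) (J : L (κ × G) →L[ℝ] L (ι × G)) (v : G → L (κ × G)) (g : G)
    (i : ι) : L G := RR g (T s (s i) (J (v g)))

namespace RepJ

theorem c_mul (gen : ∀ g : G, ∃ l, pr s l = g) (hZ : Good s Z) (hv : RepJ s Z J v) (g : G)
    (i : ι) : cJ s J v (g * s i) = cJ s J v g + CJ g (cJ s J v (s i)) +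
      (jA s J v g i + jB s J v g i) := by
  unfold cJ
  rw [T_mul gen hZ g (s i) (hv.mem _), hv.mul, map_add, map_add, map_add, map_add,
    hv.lamJ g⁻¹, T_lam s (s i)]
  change T s g (J (v g)) + T s g (lam g⁻¹ (J (v (s i)))) + (RR g (T s (s i) (J (v g))) +
      RR g (LL g⁻¹ (T s (s i) (J (v (s i)))))) = T s g (J (v g)) +
      RR g (LL g⁻¹ (T s (s i) (J (v (s i))))) +
    (T s g (J (lam g⁻¹ (v (s i)))) + RR g (T s (s i) (J (v g))))
  rw [hv.lamJ]
  abel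

theorem sum_jA (hv : RepJ s Z J v) (g : G) : ∑ i, jA s J v g i = 0 := by
  unfold jA
  rw [← map_sum, ← map_sum, ← map_sum, hv.sum, map_zero, map_zero, map_zero]

theorem sum_jB (gen : ∀ g : G, ∃ l, pr s l = g) (hZ : Good s Z) (hv : RepJ s Z J v) (g : G) :
    ∑ i, jB s J v g i = 0 := by
  unfold jB
  rw [← map_sum, Finset.sum_congr rfl fun i _ => T_gen gen hZ i (hv.mem g), hZ.harm _ (hv.mem g),
    map_zero]

theorem norm_jA (hv : RepJ s Z J v) (g : G) (i : ι) :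
    ‖jA s J v g i‖ = ‖T s (s i) (J (v g))‖ := by
  have h : jA s J v g i = cmp (Equiv.inv G) (jB s J v g i) := by
    apply L_ext
    intro x
    rw [cmp_apply]
    change T s g (J (lam g⁻¹ (v (s i)))) x = T s (s i) (J (v g)) (x⁻¹ * g)
    rw [hv.rep', hv.rep, lam_lam, lam_inner', real_inner_comm]
    congr 2
    group
  rw [h, LinearIsometry.norm_map]
  unfold jB
  rw [LinearIsometry.norm_map]

theorem c_inv (gen : ∀ g : G, ∃ l, pr s l = g) (hZ : Good s Z) (hv : RepJ s Z J v) (g : G) :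
    cJ s J v g⁻¹ = CJ g⁻¹ (cJ s J v g) := by
  have h1 : ∀ ω ∈ Z, T s g⁻¹ ω = - RR g⁻¹ (T s g ω) := by
    intro ω hω
    have h := T_mul gen hZ g⁻¹ g hω
    rw [inv_mul_cancel, T_one gen hZ hω] at h
    exact eq_neg_of_add_eq_zero_left h.symm
  unfold cJ
  rw [h1 _ (hv.mem _), hv.inv, map_neg, map_neg, map_neg, neg_neg, hv.lamJ, T_lam]
  change _ = RR g⁻¹ (LL (g⁻¹)⁻¹ (T s g (J (v g))))
  rw [inv_inv]

end RepJ

/-- the mean of the coefficient functions of the letters -/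
noncomputable def ThJ (s : ι → G) (J : L (κ × G) →L[ℝ] L (ι × G)) (v : G → L (κ × G)) : L G :=
  (Fintype.card ι : ℝ)⁻¹ • ∑ i, cJ s J v (s i)

namespace RepJ

theorem mean_c [Nonempty ι] (gen : ∀ g : G, ∃ l, pr s l = g) (hZ : Good s Z)
    (hv : RepJ s Z J v) (g : G) :
    (Fintype.card ι : ℝ)⁻¹ • ∑ i, cJ s J v (g * s i) = cJ s J v g + CJ g (ThJ s J v) := by
  have hq : (Fintype.card ι : ℝ) ≠ 0 := by exact_mod_cast Fintype.card_ne_zero
  rw [Finset.sum_congr rfl fun i _ => hv.c_mul gen hZ g i, Finset.sum_add_distrib,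
    Finset.sum_add_distrib, Finset.sum_add_distrib, hv.sum_jA, hv.sum_jB gen hZ]
  simp only [Finset.sum_const, Finset.card_univ, add_zero, smul_add]
  congr 1
  · rw [← Nat.cast_smul_eq_nsmul ℝ, smul_smul, inv_mul_cancel₀ hq, one_smul]
  · unfold ThJ
    rw [map_smul, map_sum]

theorem W_c [Nonempty ι] (gen : ∀ g : G, ∃ l, pr s l = g) (hZ : Good s Z) (hv : RepJ s Z J v)
    (n : ℕ) : W s n (cJ s J v) = ∑ j ∈ range n, (P s ^ j) (ThJ s J v) := by
  induction n with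
  | zero =>
    change cJ s J v 1 = _
    unfold cJ
    rw [hv.one, map_zero, map_zero]
    simp
  | succ n ih =>
    change W s n (fun g => (Fintype.card ι : ℝ)⁻¹ • ∑ i, cJ s J v (g * s i)) = _
    rw [show (fun g => (Fintype.card ι : ℝ)⁻¹ • ∑ i, cJ s J v (g * s i)) =
      fun g => cJ s J v g + CJ g (ThJ s J v) from funext fun g => hv.mean_c gen hZ g,
      W_add, W_conj, ih, Finset.sum_range_succ]

/-- the error constant -/
private noncomputable def kJ (s : ι → G) (J : L (κ × G) →L[ℝ] L (ι × G)) (v : G → L (κ × G)) : ℝ :=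
  (Fintype.card ι : ℝ)⁻¹ * ∑ i, ‖cJ s J v (s i)‖ ^ 2

private theorem mom2_point [Nonempty ι] (gen : ∀ g : G, ∃ l, pr s l = g) (hZ : Good s Z)
    (hv : RepJ s Z J v) (g : G) :
    (Fintype.card ι : ℝ)⁻¹ • ∑ i, ‖cJ s J v (g * s i)‖ ^ 2 ≤
      ‖cJ s J v g‖ ^ 2 + 2 * ⟪cJ s J v g⁻¹, ThJ s J v⟫_ℝ +
        (8 / Fintype.card ι) * ‖v g‖ ^ 2 + 2 * kJ s J v := by
  have hq : (0 : ℝ) < Fintype.card ι := by exact_mod_cast Fintype.card_pos
  have h1 : ∀ i, ‖cJ s J v (g * s i)‖ ^ 2 ≤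
      ‖cJ s J v g‖ ^ 2 + 2 * ⟪cJ s J v g, CJ g (cJ s J v (s i))⟫_ℝ +
      2 * ⟪cJ s J v g, jA s J v g i + jB s J v g i⟫_ℝ + 2 * ‖cJ s J v (s i)‖ ^ 2 +
      (8 * ‖T s (s i) (J (v g))‖ ^ 2) := by
    intro i
    rw [hv.c_mul gen hZ]
    have h := split_sq (cJ s J v g) (CJ g (cJ s J v (s i))) (jA s J v g i) (jB s J v g i)
      (one_pos : (0 : ℝ) < 1)
    rw [hv.norm_jA] at h
    have hB : ‖jB s J v g i‖ = ‖T s (s i) (J (v g))‖ := by
      unfold jB
      rw [LinearIsometry.norm_map]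
    rw [hB, LinearIsometry.norm_map] at h
    have e : (1 : ℝ)⁻¹ = 1 := inv_one
    rw [e] at h
    linarith
  have h2 := Finset.sum_le_sum fun i (_ : i ∈ univ) => h1 i
  have h3 : ∑ i, (‖cJ s J v g‖ ^ 2 + 2 * ⟪cJ s J v g, CJ g (cJ s J v (s i))⟫_ℝ +
      2 * ⟪cJ s J v g, jA s J v g i + jB s J v g i⟫_ℝ + 2 * ‖cJ s J v (s i)‖ ^ 2 +
      (8 * ‖T s (s i) (J (v g))‖ ^ 2)) = (Fintype.card ι : ℝ) * ‖cJ s J v g‖ ^ 2 +
      2 * ((Fintype.card ι : ℝ) * ⟪cJ s J v g, CJ g (ThJ s J v)⟫_ℝ) +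
      2 * ((Fintype.card ι : ℝ) * kJ s J v) + (8 * ‖J (v g)‖ ^ 2) := by
    simp only [Finset.sum_add_distrib, ← Finset.mul_sum, ← inner_sum]
    rw [hv.sum_jA, hv.sum_jB gen hZ, sum_T gen hZ (hv.mem g)]
    have h4 : (Fintype.card ι : ℝ) * ⟪cJ s J v g, CJ g (ThJ s J v)⟫_ℝ =
        ⟪cJ s J v g, ∑ i, CJ g (cJ s J v (s i))⟫_ℝ := by
      unfold ThJ
      rw [map_smul, map_sum, inner_smul_right]
      field_simp
    have h5 : (Fintype.card ι : ℝ) * kJ s J v = ∑ i, ‖cJ s J v (s i)‖ ^ 2 := by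
      unfold kJ
      field_simp
    rw [h4, h5]
    simp
  rw [h3] at h2
  have h6 : ⟪cJ s J v g, CJ g (ThJ s J v)⟫_ℝ = ⟪cJ s J v g⁻¹, ThJ s J v⟫_ℝ := by
    have h := (CJ g⁻¹).inner_map_map (cJ s J v g) (CJ g (ThJ s J v))
    rw [← h, ← hv.c_inv gen hZ]
    congr 1
    apply L_ext
    intro x
    simp only [CJ_apply]
    congr 1
    group
  rw [h6] at h2
  have h7 : ‖J (v g)‖ ^ 2 ≤ ‖v g‖ ^ 2 := pow_le_pow_left₀ (norm_nonneg _) (hv.norm _) 2
  rw [smul_eq_mul, inv_mul_le_iff₀ hq]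
  refine (h2.trans (add_le_add le_rfl (mul_le_mul_of_nonneg_left h7 (by norm_num)))).trans
    (le_of_eq ?_)
  field_simp
  ring

private theorem P_le' [Nonempty ι] (s : ι → G) (f : L G) : ‖P s f‖ ≤ ‖f‖ := by
  have hc : (0 : ℝ) < Fintype.card ι := by exact_mod_cast Fintype.card_pos
  have e : P s f = (Fintype.card ι : ℝ)⁻¹ • ∑ i, CJ (s i) f := by
    unfold P
    rw [smul_apply, _root_.sum_apply]
    rfl
  rw [e, norm_smul, Real.norm_of_nonneg (inv_nonneg.2 hc.le)]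
  have h1 : ‖∑ i, CJ (s i) f‖ ≤ Fintype.card ι * ‖f‖ := by
    refine (norm_sum_le _ _).trans ?_
    have h2 : ∀ i ∈ (univ : Finset ι), ‖CJ (s i) f‖ = ‖f‖ := fun i _ => (CJ (s i)).norm_map f
    rw [sum_congr rfl h2, sum_const, card_univ, nsmul_eq_mul]
  calc (Fintype.card ι : ℝ)⁻¹ * ‖∑ i, CJ (s i) f‖
      ≤ (Fintype.card ι : ℝ)⁻¹ * (Fintype.card ι * ‖f‖) :=
        mul_le_mul_of_nonneg_left h1 (inv_nonneg.2 hc.le)
    _ = ‖f‖ := by rw [← mul_assoc, inv_mul_cancel₀ hc.ne', one_mul]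

private theorem P_pow_le [Nonempty ι] (s : ι → G) (n : ℕ) (f : L G) : ‖(P s ^ n) f‖ ≤ ‖f‖ := by
  induction n with
  | zero => exact le_rfl
  | succ n ih =>
    have h1 : (P s ^ (n + 1)) f = P s ((P s ^ n) f) := by rw [pow_succ']; rfl
    rw [h1]
    exact (P_le' s _).trans ih

private theorem mom2_step [Nonempty ι] (gen : ∀ g : G, ∃ l, pr s l = g) (σ : ι → ι)
    (hσ : Function.Involutive σ) (hs : ∀ i, s (σ i) = (s i)⁻¹) (hZ : Good s Z)
    (hv : RepJ s Z J v) (n : ℕ) :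
    W s (n + 1) (fun g => ‖cJ s J v g‖ ^ 2) ≤ W s n (fun g => ‖cJ s J v g‖ ^ 2) +
      2 * (n * ‖ThJ s J v‖ ^ 2) +
      (8 / Fintype.card ι) * (n * (dJ s v / Fintype.card ι)) + 2 * kJ s J v := by
  change W s n (fun g => (Fintype.card ι : ℝ)⁻¹ • ∑ i, ‖cJ s J v (g * s i)‖ ^ 2) ≤ _
  refine (W_mono s n (mom2_point gen hZ hv)).trans ?_
  rw [W_add, W_add, W_add, W_const]
  have h1 : W s n (fun g => 2 * ⟪cJ s J v g⁻¹, ThJ s J v⟫_ℝ) =
      2 * ⟪∑ j ∈ range n, (P s ^ j) (ThJ s J v), ThJ s J v⟫_ℝ := by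
    have h2 := W_smul s n (2 : ℝ) (fun g => ⟪cJ s J v g⁻¹, ThJ s J v⟫_ℝ)
    simp only [smul_eq_mul] at h2
    rw [h2, W_inv s σ hσ hs n (fun g => ⟪cJ s J v g, ThJ s J v⟫_ℝ), ← hv.W_c gen hZ]
    congr 1
    have h3 := W_map s n ((innerSL ℝ (ThJ s J v)).toLinearMap) (cJ s J v)
    simp only [ContinuousLinearMap.coe_coe, innerSL_apply_apply] at h3
    rw [real_inner_comm, h3]
    congr 1
    funext g
    exact real_inner_comm _ _
  have h4 : W s n (fun g => (8 / (Fintype.card ι : ℝ)) * ‖v g‖ ^ 2) =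
      (8 / Fintype.card ι) * (n * (dJ s v / Fintype.card ι)) := by
    have h2 := W_smul s n (8 / (Fintype.card ι : ℝ)) (fun g => ‖v g‖ ^ 2)
    simp only [smul_eq_mul] at h2
    rw [h2, hv.mom1]
  rw [h1, h4]
  have h5 : ⟪∑ j ∈ range n, (P s ^ j) (ThJ s J v), ThJ s J v⟫_ℝ ≤ n * ‖ThJ s J v‖ ^ 2 := by
    rw [sum_inner]
    refine (Finset.sum_le_sum fun j _ => (real_inner_le_norm _ _).trans
      (mul_le_mul_of_nonneg_right (P_pow_le s j _) (norm_nonneg _))).trans (le_of_eq ?_)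
    rw [Finset.sum_const, Finset.card_range, nsmul_eq_mul]
    ring
  linarith

/-- The second moment grows at most quadratically. -/
theorem c_sq [Nonempty ι] (gen : ∀ g : G, ∃ l, pr s l = g) (σ : ι → ι)
    (hσ : Function.Involutive σ) (hs : ∀ i, s (σ i) = (s i)⁻¹) (hZ : Good s Z)
    (hv : RepJ s Z J v) :
    ∃ C : ℝ, 0 < C ∧ ∀ n : ℕ, W s n (fun g => ‖cJ s J v g‖ ^ 2) ≤ C * n ^ 2 := by
  have hq : (0 : ℝ) < Fintype.card ι := by exact_mod_cast Fintype.card_pos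
  have hk0 : 0 ≤ kJ s J v := by
    unfold kJ
    positivity
  have hd := dJ_nonneg s v
  refine ⟨‖ThJ s J v‖ ^ 2 + 4 * dJ s v / (Fintype.card ι : ℝ) ^ 2 + 2 * kJ s J v + 1,
    by positivity, fun n => ?_⟩
  set C : ℝ := ‖ThJ s J v‖ ^ 2 + 4 * dJ s v / (Fintype.card ι : ℝ) ^ 2 + 2 * kJ s J v + 1 with hC
  induction n with
  | zero =>
    change ‖cJ s J v 1‖ ^ 2 ≤ _
    unfold cJ
    rw [hv.one, map_zero, map_zero]
    simp
  | succ n ih =>
    refine (mom2_step gen σ hσ hs hZ hv n).trans ?_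
    have e : (8 / (Fintype.card ι : ℝ)) * (n * (dJ s v / Fintype.card ι)) =
        2 * n * (4 * dJ s v / (Fintype.card ι : ℝ) ^ 2) := by
      field_simp
      ring
    rw [e]
    have hn : (0 : ℝ) ≤ n := Nat.cast_nonneg n
    have h1 : 0 ≤ 4 * dJ s v / (Fintype.card ι : ℝ) ^ 2 := by positivity
    have h2 : 0 ≤ ‖ThJ s J v‖ ^ 2 := by positivity
    have h3 : C * ((n + 1 : ℕ) : ℝ) ^ 2 = C * n ^ 2 + 2 * n * C + C := by
      push_cast
      ring
    rw [h3]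
    have h4 : 2 * (n * ‖ThJ s J v‖ ^ 2) + 2 * n * (4 * dJ s v / (Fintype.card ι : ℝ) ^ 2) ≤
        2 * n * C := by
      rw [hC]
      nlinarith
    have h5 : 2 * kJ s J v ≤ C := by
      rw [hC]
      linarith
    linarith

end RepJ

end Pool.Agent.Lib.MP_354e85_al.L2C
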