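import Pool.Agent.Lib.MP_354e85_al.L2C.Off
import Pool.Agent.Lib.MP_354e85_al.L2C.JMom

/-! Second moment and mean off the unit element, for `cJ`. -/

set_option autoImplicit false

namespace Pool.Agent.Lib.MP_354e85_al.L2C

open Finset Filter Topology L2B
open scoped InnerProductSpace

variable {G : Type} [Group G] {ι : Type} [Fintype ι] {κ : Type} {s : ι → G}
  {Z : Submodule ℝ (L (ι × G))} {J : L (κ × G) →L[ℝ] L (ι × G)} {v : G → L (κ × G)}

/-- `RepJ.c_sq` and `EL_W`. -/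
theorem c_sq_EL [Nonempty ι] (gen : ∀ g : G, ∃ l, pr s l = g) (σ : ι → ι)
    (hσ : Function.Involutive σ) (hs : ∀ i, s (σ i) = (s i)⁻¹) (hZ : Good s Z)
    (hv : RepJ s Z J v) :
    ∃ C : ℝ, 0 < C ∧ ∀ n : ℕ, EL n (fun l => ‖cJ s J v (pr s l)‖ ^ 2) ≤ C * n ^ 2 := by
  obtain ⟨C, hC, h⟩ := hv.c_sq gen σ hσ hs hZ
  refine ⟨C, hC, fun n => ?_⟩
  rw [EL_W s n fun g => ‖cJ s J v g‖ ^ 2]
  exact h n

private theorem P_ap (s : ι → G) (f : L G) :
    P s f = (Fintype.card ι : ℝ)⁻¹ • ∑ i, CJ (s i) f := by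
  unfold P
  rw [smul_apply, _root_.sum_apply]
  rfl

private theorem CJ_adj (g : G) (f h : L G) : ⟪CJ g f, h⟫_ℝ = ⟪f, CJ g⁻¹ h⟫_ℝ := by
  have h1 : CJ g⁻¹ (CJ g f) = f := by
    refine L_ext fun x => ?_
    rw [CJ_apply, CJ_apply]
    group
  have h2 := (CJ g⁻¹).inner_map_map (CJ g f) h
  rw [h1] at h2
  exact h2.symm

private theorem P_adj (σ : ι → ι) (hσ : Function.Involutive σ) (hs : ∀ i, s (σ i) = (s i)⁻¹)
    (f h : L G) : ⟪P s f, h⟫_ℝ = ⟪f, P s h⟫_ℝ := by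
  rw [P_ap, P_ap, real_inner_smul_left, real_inner_smul_right, sum_inner, inner_sum]
  congr 1
  refine Fintype.sum_equiv (Function.Involutive.toPerm σ hσ) _ _ fun i => ?_
  rw [CJ_adj, Function.Involutive.coe_toPerm, hs]

private theorem P_pow_adj (σ : ι → ι) (hσ : Function.Involutive σ)
    (hs : ∀ i, s (σ i) = (s i)⁻¹) (j : ℕ) (f h : L G) :
    ⟪(P s ^ j) f, h⟫_ℝ = ⟪f, (P s ^ j) h⟫_ℝ := by
  induction j generalizing f h with
  | zero => rfl
  | succ j ih =>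
    have h1 : (P s ^ (j + 1)) f = P s ((P s ^ j) f) := by
      rw [pow_succ']
      rfl
    have h2 : (P s ^ (j + 1)) h = (P s ^ j) (P s h) := by
      rw [pow_succ]
      rfl
    rw [h1, h2, P_adj σ hσ hs, ih]

private theorem off_P (f : L G) : off (P s f) = P s (off f) := by
  rw [P_ap, P_ap, map_smul, map_sum]
  exact congrArg _ (sum_congr rfl fun i _ => off_CJ (s i) f)

private theorem off_P_pow (j : ℕ) (f : L G) : off ((P s ^ j) f) = (P s ^ j) (off f) := by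
  induction j generalizing f with
  | zero => rfl
  | succ j ih =>
    have h1 : ∀ h : L G, (P s ^ (j + 1)) h = (P s ^ j) (P s h) := fun h => by
      rw [pow_succ]
      rfl
    rw [h1, h1, ih, off_P]

/-- As `off_mean` of Off.lean (same proof, with `RepJ.W_c` and `ThJ` in place of `W_cc` and `Th`). -/
theorem off_meanJ [Nonempty ι] (gen : ∀ g : G, ∃ l, pr s l = g)
    (icc : ∀ g : G, g ≠ 1 → (Set.range fun x : G => x * g * x⁻¹).Infinite) (σ : ι → ι)
    (hσ : Function.Involutive σ) (hs : ∀ i, s (σ i) = (s i)⁻¹) (hZ : Good s Z)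
    (hv : RepJ s Z J v) {ε : ℝ} (hε : 0 < ε) :
    ∀ᶠ n : ℕ in atTop, ‖EL n (fun l => off (cJ s J v (pr s l)))‖ ≤ ε * n := by
  set φ : L G := off (ThJ s J v) with hφ
  have key : ∀ n : ℕ, EL n (fun l => off (cJ s J v (pr s l))) = ∑ j ∈ range n, (P s ^ j) φ := by
    intro n
    rw [← EL_map n (off (G := G)) fun l => cJ s J v (pr s l), EL_W s n (cJ s J v), hv.W_c gen hZ,
      map_sum]
    exact sum_congr rfl fun j _ => off_P_pow j _
  set a : ℕ → ℝ := fun n => ⟪∑ j ∈ range n, (P s ^ j) φ, φ⟫_ℝ with ha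
  have hshift : ∀ n k : ℕ, ⟪∑ j ∈ range n, (P s ^ j) φ, (P s ^ k) φ⟫_ℝ = a (k + n) - a k := by
    intro n k
    rw [← P_pow_adj σ hσ hs, map_sum]
    have h1 : ∀ j, (P s ^ k) ((P s ^ j) φ) = (P s ^ (k + j)) φ := fun j => by
      rw [pow_add]
      rfl
    rw [sum_congr rfl fun j _ => h1 j]
    show _ = ⟪∑ j ∈ range (k + n), (P s ^ j) φ, φ⟫_ℝ - ⟪∑ j ∈ range k, (P s ^ j) φ, φ⟫_ℝ
    rw [sum_range_add, inner_add_left]
    ring
  have hnorm : ∀ n : ℕ, ‖∑ j ∈ range n, (P s ^ j) φ‖ ^ 2 = ∑ k ∈ range n, (a (k + n) - a k) := by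
    intro n
    rw [← real_inner_self_eq_norm_sq, inner_sum]
    exact sum_congr rfl fun k _ => hshift n k
  -- the bound for `a`
  have h0 : Tendsto (fun n : ℕ => (n : ℝ)⁻¹ * a n) atTop (𝓝 0) := by
    have h1 := erg s gen icc φ
    rw [off_one, zero_pow two_ne_zero] at h1
    exact h1
  have hδ : 0 < ε ^ 2 / 6 := by positivity
  have h2 : ∀ᶠ n : ℕ in atTop, |(n : ℝ)⁻¹ * a n| < ε ^ 2 / 6 := by
    have h3 := h0.abs
    rw [abs_zero] at h3
    exact h3.eventually_lt_const hδ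
  obtain ⟨n0, hn0⟩ := Filter.eventually_atTop.1 h2
  set C : ℝ := ∑ m ∈ range (n0 + 1), |a m| with hC
  have hC0 : 0 ≤ C := sum_nonneg fun _ _ => abs_nonneg _
  have hb : ∀ m : ℕ, |a m| ≤ ε ^ 2 / 6 * m + C := by
    intro m
    rcases Nat.lt_or_ge m (n0 + 1) with h3 | h3
    · have h4 := single_le_sum (f := fun m => |a m|) (fun i _ => abs_nonneg _) (mem_range.2 h3)
      have h5 : 0 ≤ ε ^ 2 / 6 * m := by positivity
      exact h4.trans (le_add_of_nonneg_left h5)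
    · have h4 := hn0 m (by omega)
      have h5 : (0 : ℝ) < m := by exact_mod_cast (by omega : 0 < m)
      rw [abs_mul, abs_of_pos (inv_pos.2 h5), inv_mul_lt_iff₀ h5] at h4
      linarith
  have hsum : ∀ n : ℕ, ‖∑ j ∈ range n, (P s ^ j) φ‖ ^ 2 ≤ ε ^ 2 / 2 * n ^ 2 + 2 * C * n := by
    intro n
    rw [hnorm]
    have h3 : ∀ k ∈ range n, a (k + n) - a k ≤ ε ^ 2 / 2 * n + 2 * C := by
      intro k hk
      have h4 := le_abs_self (a (k + n))
      have h5 := neg_abs_le (a k)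
      have h6 := hb (k + n)
      have h7 := hb k
      have h8 : (k : ℝ) ≤ n := by exact_mod_cast (mem_range.1 hk).le
      have h9 := mul_le_mul_of_nonneg_left h8 hδ.le
      push_cast at h6
      linarith
    refine (sum_le_card_nsmul _ _ _ h3).trans (le_of_eq ?_)
    rw [card_range, nsmul_eq_mul]
    ring
  obtain ⟨n1, hn1⟩ := exists_nat_gt (4 * C / ε ^ 2)
  filter_upwards [Filter.eventually_ge_atTop n1] with n hn
  rw [key]
  have h3 : 4 * C ≤ ε ^ 2 * n := by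
    have h4 : (n1 : ℝ) ≤ n := by exact_mod_cast hn
    rw [div_lt_iff₀ (by positivity)] at hn1
    have h5 := mul_le_mul_of_nonneg_left h4 (sq_nonneg ε)
    linarith
  have h4 := hsum n
  have h5 : 4 * C * n ≤ ε ^ 2 * n * n := mul_le_mul_of_nonneg_right h3 (Nat.cast_nonneg n)
  refine (pow_le_pow_iff_left₀ (norm_nonneg _) (by positivity) two_ne_zero).1 ?_
  rw [mul_pow]
  nlinarith

end Pool.Agent.Lib.MP_354e85_al.L2C
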