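import Pool.Agent.Lib.MP_354e85_al.L2C.PairC
import Pool.Agent.Lib.MP_354e85_al.L2C.JOff

/-! Blocks: the coefficient function of a product of `K` blocks, for `RepJ`. -/

set_option autoImplicit false

namespace Pool.Agent.Lib.MP_354e85_al.L2C

open Finset L2B
open scoped InnerProductSpace

variable {G : Type} [Group G] {ι : Type} [Fintype ι] {κ : Type}

/-- The near part (each block with itself), off the unit element; blocks of length `m`. -/
noncomputable def NJ (s : ι → G) (J : L (κ × G) →L[ℝ] L (ι × G)) (v : G → L (κ × G)) (m : ℕ) :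
    ℕ → List ι → L G
  | 0, _ => 0
  | K + 1, l => NJ s J v m K (l.take (K * m)) +
      CJ (pr s (l.take (K * m))) (off (cJ s J v (pr s (l.drop (K * m)))))

/-- The bound for the far part (different blocks). -/
noncomputable def fJ [DecidableEq ι] (s : ι → G) (J : L (κ × G) →L[ℝ] L (ι × G))
    (v : G → L (κ × G)) (R m : ℕ) : ℕ → List ι → ℝ
  | 0, _ => 0
  | K + 1, l => 2 * fJ s J v R m K (l.take (K * m)) +
      8 * cf s R (J (v (pr s (l.take (K * m))))) (l.drop (K * m))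

theorem fJ_nonneg [DecidableEq ι] (s : ι → G) (J : L (κ × G) →L[ℝ] L (ι × G))
    (v : G → L (κ × G)) (R m K : ℕ) (l : List ι) : 0 ≤ fJ s J v R m K l := by
  induction K generalizing l with
  | zero => exact le_rfl
  | succ K ih =>
    have h1 := ih (l.take (K * m))
    have h2 := cf_nonneg s R (J (v (pr s (l.take (K * m))))) (l.drop (K * m))
    change 0 ≤ 2 * fJ s J v R m K (l.take (K * m)) +
      8 * cf s R (J (v (pr s (l.take (K * m))))) (l.drop (K * m))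
    linarith

/-- the square of a function, summed over `x⁻¹ * y` -/
private theorem conv_sq (f : L G) (A B : Finset G) :
    ∑ x ∈ A, ∑ y ∈ B, (f (x⁻¹ * y)) ^ 2 ≤ ‖f‖ ^ 2 * √((A.card : ℝ) * (B.card : ℝ)) := by
  have hs := L_hasSum f
  have key : ∀ (S : Finset G) (e : G → G), Function.Injective e →
      ∑ y ∈ S, (f (e y)) ^ 2 ≤ ‖f‖ ^ 2 := by
    intro S e he
    have h1 : ∑ y ∈ S, (f (e y)) ^ 2 = ∑ w ∈ S.map ⟨e, he⟩, (f w) ^ 2 := by
      rw [sum_map]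
      rfl
    rw [h1]
    exact sum_le_hasSum _ (fun i _ => sq_nonneg _) hs
  have h1 : ∑ x ∈ A, ∑ y ∈ B, (f (x⁻¹ * y)) ^ 2 ≤ A.card * ‖f‖ ^ 2 := by
    have h2 : ∑ x ∈ A, ∑ y ∈ B, (f (x⁻¹ * y)) ^ 2 ≤ ∑ _x ∈ A, ‖f‖ ^ 2 :=
      sum_le_sum fun x _ => key B (fun y => x⁻¹ * y) (mul_right_injective x⁻¹)
    rw [sum_const, nsmul_eq_mul] at h2
    exact h2
  have h2 : ∑ x ∈ A, ∑ y ∈ B, (f (x⁻¹ * y)) ^ 2 ≤ B.card * ‖f‖ ^ 2 := by
    rw [sum_comm]
    have h2 : ∑ y ∈ B, ∑ x ∈ A, (f (x⁻¹ * y)) ^ 2 ≤ ∑ _y ∈ B, ‖f‖ ^ 2 :=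
      sum_le_sum fun y _ => key A (fun x => x⁻¹ * y) (by
        intro a b hab
        exact inv_injective (mul_left_injective y hab))
    rw [sum_const, nsmul_eq_mul] at h2
    exact h2
  have h3 : 0 ≤ ∑ x ∈ A, ∑ y ∈ B, (f (x⁻¹ * y)) ^ 2 :=
    sum_nonneg fun x _ => sum_nonneg fun y _ => sq_nonneg _
  have hA : (0 : ℝ) ≤ A.card := Nat.cast_nonneg _
  have hB : (0 : ℝ) ≤ B.card := Nat.cast_nonneg _
  have hT : 0 ≤ ‖f‖ ^ 2 := sq_nonneg _
  refine abs_le_of_sq_le_sq' ?_ (mul_nonneg hT (Real.sqrt_nonneg _)) |>.2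
  rw [mul_pow, Real.sq_sqrt (mul_nonneg hA hB)]
  calc (∑ x ∈ A, ∑ y ∈ B, (f (x⁻¹ * y)) ^ 2) ^ 2
      = (∑ x ∈ A, ∑ y ∈ B, (f (x⁻¹ * y)) ^ 2) * (∑ x ∈ A, ∑ y ∈ B, (f (x⁻¹ * y)) ^ 2) := sq _
    _ ≤ (A.card * ‖f‖ ^ 2) * (B.card * ‖f‖ ^ 2) := mul_le_mul h1 h2 h3 (mul_nonneg hA hT)
    _ = (‖f‖ ^ 2) ^ 2 * (A.card * B.card) := by ring

variable {s : ι → G} {Z : Submodule ℝ (L (ι × G))} {J : L (κ × G) →L[ℝ] L (ι × G)}
  {v : G → L (κ × G)}

/-- `cJ s J v g z = T s g (J (v g)) z = ⟪lam z (v g), v g⟫` (`RepJ.rep`), `RepJ.mul`,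
`lam_inner'`, `RepJ.rep'`. -/
theorem cJ_split (hv : RepJ s Z J v) (g h z : G) :
    cJ s J v (g * h) z = cJ s J v g z + cJ s J v h (g⁻¹ * (z * g)) +
      (T s h (J (v g)) (z * g) + T s h (J (v g)) (z⁻¹ * g)) := by
  unfold cJ
  rw [hv.rep, hv.rep, hv.rep, hv.rep, hv.rep, hv.mul, map_add, inner_add_left, inner_add_right,
    inner_add_right]
  have h1 : ⟪lam z (v g), lam g⁻¹ (v h)⟫_ℝ = ⟪lam (z * g) (v g), v h⟫_ℝ := by
    rw [real_inner_comm, lam_inner', inv_inv, lam_lam, real_inner_comm]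
  have h2 : ⟪lam z (lam g⁻¹ (v h)), v g⟫_ℝ = ⟪lam (z⁻¹ * g) (v g), v h⟫_ℝ := by
    rw [lam_lam, lam_inner', real_inner_comm, mul_inv_rev, inv_inv]
  have h3 : ⟪lam z (lam g⁻¹ (v h)), lam g⁻¹ (v h)⟫_ℝ = ⟪lam (g⁻¹ * (z * g)) (v h), v h⟫_ℝ := by
    rw [real_inner_comm, lam_inner', inv_inv, lam_lam, lam_lam, real_inner_comm]
  rw [h1, h2, h3]
  ring

private theorem blk (gen : ∀ g : G, ∃ l, pr s l = g) (hZ : Good s Z) [DecidableEq ι]
    (hv : RepJ s Z J v) (R m K : ℕ) (l : List ι) (hl : l.length = K * m) :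
    ∃ F : G → ℝ, (∀ z, z ≠ 1 → cJ s J v (pr s l) z = NJ s J v m K l z + F z) ∧
      ∀ A B : Finset G, ∑ x ∈ A, ∑ y ∈ B, (F (x⁻¹ * y)) ^ 2 ≤
        fJ s J v R m K l * √((A.card : ℝ) * (B.card : ℝ)) := by
  induction K generalizing l with
  | zero =>
    have h0 : l = [] := by
      rw [zero_mul] at hl
      exact List.length_eq_zero_iff.1 hl
    subst h0
    refine ⟨fun _ => 0, fun z _ => ?_, fun A B => ?_⟩
    · have h1 : cJ s J v (pr s []) = 0 := by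
        have e : pr s [] = 1 := rfl
        unfold cJ
        rw [e, hv.one, map_zero, map_zero]
      have h2 : NJ s J v m 0 [] = 0 := rfl
      rw [h1, h2, add_zero]
    · have h2 : fJ s J v R m 0 [] = 0 := rfl
      rw [h2, zero_mul]
      simp
  | succ K ih =>
    set a := l.take (K * m) with ha
    set b := l.drop (K * m) with hb
    have hla : a.length = K * m := by
      rw [ha, List.length_take, hl]
      exact min_eq_left (Nat.mul_le_mul_right m (Nat.le_succ K))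
    obtain ⟨F, hF1, hF2⟩ := ih a hla
    have hab : pr s l = pr s a * pr s b := by
      have h1 : l = a ++ b := (List.take_append_drop (K * m) l).symm
      conv_lhs => rw [h1]
      unfold pr
      rw [List.map_append, List.prod_append]
    set g := pr s a with hg
    set h := pr s b with hh
    set ω := J (v g) with hω
    have hωZ : ω ∈ Z := hv.mem g
    refine ⟨fun z => F z + (Tl s b ω (z * g) + Tl s b ω (z⁻¹ * g)), fun z hz => ?_,
      fun A B => ?_⟩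
    · rw [hab, cJ_split hv, hF1 z hz, ← hω, hh, T_word gen hZ b hωZ]
      have h1 : NJ s J v m (K + 1) l = NJ s J v m K a + CJ g (off (cJ s J v (pr s b))) := rfl
      rw [h1]
      have h2 : (CJ g (off (cJ s J v (pr s b)))) z = cJ s J v (pr s b) (g⁻¹ * (z * g)) := by
        rw [CJ_apply, off_ne]
        intro h3
        apply hz
        have h4 : z = g * (g⁻¹ * (z * g)) * g⁻¹ := by group
        rw [h4, h3]
        group
      rw [lp.coeFn_add, Pi.add_apply, h2]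
      ring
    · have hp1 : ∑ x ∈ A, ∑ y ∈ B, (Tl s b ω (x⁻¹ * y * g)) ^ 2 ≤
          cf s R ω b * √((A.card : ℝ) * (B.card : ℝ)) := by
        have h1 := pair_conv s R ω b A (B.map (mulRightEmbedding g))
        rw [card_map] at h1
        refine le_trans (le_of_eq ?_) h1
        refine sum_congr rfl fun x _ => ?_
        rw [sum_map]
        refine sum_congr rfl fun y _ => ?_
        rw [mulRightEmbedding_apply, mul_assoc]
      have hp2 : ∑ x ∈ A, ∑ y ∈ B, (Tl s b ω ((x⁻¹ * y)⁻¹ * g)) ^ 2 ≤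
          cf s R ω b * √((A.card : ℝ) * (B.card : ℝ)) := by
        have h1 := pair_conv s R ω b B (A.map (mulRightEmbedding g))
        rw [card_map, mul_comm (B.card : ℝ)] at h1
        refine le_trans (le_of_eq ?_) h1
        rw [sum_comm]
        refine sum_congr rfl fun y _ => ?_
        rw [sum_map]
        refine sum_congr rfl fun x _ => ?_
        rw [mulRightEmbedding_apply, mul_inv_rev, inv_inv, mul_assoc]
      have h1 : ∀ x ∈ A, ∀ y ∈ B, (F (x⁻¹ * y) + (Tl s b ω (x⁻¹ * y * g) +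
          Tl s b ω ((x⁻¹ * y)⁻¹ * g))) ^ 2 ≤ 2 * (F (x⁻¹ * y)) ^ 2 +
          (4 * (Tl s b ω (x⁻¹ * y * g)) ^ 2 + 4 * (Tl s b ω ((x⁻¹ * y)⁻¹ * g)) ^ 2) := by
        intro x _ y _
        nlinarith [sq_nonneg (F (x⁻¹ * y) - (Tl s b ω (x⁻¹ * y * g) +
          Tl s b ω ((x⁻¹ * y)⁻¹ * g))), sq_nonneg (Tl s b ω (x⁻¹ * y * g) -
          Tl s b ω ((x⁻¹ * y)⁻¹ * g))]
      have h2 : ∑ x ∈ A, ∑ y ∈ B, (F (x⁻¹ * y) + (Tl s b ω (x⁻¹ * y * g) +
          Tl s b ω ((x⁻¹ * y)⁻¹ * g))) ^ 2 ≤ 2 * (∑ x ∈ A, ∑ y ∈ B, (F (x⁻¹ * y)) ^ 2) +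
          (4 * (∑ x ∈ A, ∑ y ∈ B, (Tl s b ω (x⁻¹ * y * g)) ^ 2) +
          4 * (∑ x ∈ A, ∑ y ∈ B, (Tl s b ω ((x⁻¹ * y)⁻¹ * g)) ^ 2)) := by
        refine (sum_le_sum fun x hx => sum_le_sum fun y hy => h1 x hx y hy).trans (le_of_eq ?_)
        simp only [sum_add_distrib, mul_sum]
      have h3 := hF2 A B
      have h4 : fJ s J v R m (K + 1) l = 2 * fJ s J v R m K a + 8 * cf s R ω b := rfl
      rw [h4]
      refine h2.trans ?_
      nlinarith [h3, hp1, hp2]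

/-- As `self_bound` of Blk.lean, with `J (v g)` for `u g` (`hv.mem`) and `cJ` for `cc`. -/
theorem self_boundJ [DecidableEq ι] [DecidableEq G] (gen : ∀ g : G, ∃ l, pr s l = g)
    (hZ : Good s Z) (hv : RepJ s Z J v) (R m K : ℕ) (l : List ι) (hl : l.length = K * m)
    (A B : Finset G) :
    ∑ x ∈ A, ∑ y ∈ B, (if x = y then 0 else (cJ s J v (pr s l) (x⁻¹ * y)) ^ 2) ≤
      (2 * ‖NJ s J v m K l‖ ^ 2 + 2 * fJ s J v R m K l) * √((A.card : ℝ) * (B.card : ℝ)) := by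
  obtain ⟨F, h1, h2⟩ := blk gen hZ hv R m K l hl
  have h3 := h2 A B
  have h4 := conv_sq (NJ s J v m K l) A B
  have h5 : ∀ x ∈ A, ∀ y ∈ B, (if x = y then 0 else (cJ s J v (pr s l) (x⁻¹ * y)) ^ 2) ≤
      2 * (NJ s J v m K l (x⁻¹ * y)) ^ 2 + 2 * (F (x⁻¹ * y)) ^ 2 := by
    intro x _ y _
    split_ifs with hxy
    · positivity
    · have hz : x⁻¹ * y ≠ 1 := by
        intro h
        exact hxy (inv_mul_eq_one.1 h)
      rw [h1 _ hz]
      nlinarith [sq_nonneg (NJ s J v m K l (x⁻¹ * y) - F (x⁻¹ * y))]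
  have h6 : ∑ x ∈ A, ∑ y ∈ B, (if x = y then 0 else (cJ s J v (pr s l) (x⁻¹ * y)) ^ 2) ≤
      2 * (∑ x ∈ A, ∑ y ∈ B, (NJ s J v m K l (x⁻¹ * y)) ^ 2) +
        2 * (∑ x ∈ A, ∑ y ∈ B, (F (x⁻¹ * y)) ^ 2) := by
    refine (sum_le_sum fun x hx => sum_le_sum fun y hy => h5 x hx y hy).trans (le_of_eq ?_)
    simp only [sum_add_distrib, mul_sum]
  refine h6.trans ?_
  nlinarith [h3, h4]

end Pool.Agent.Lib.MP_354e85_al.L2C
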