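import Pool.Agent.Lib.MP_354e85_al.L2C.JMain
import Pool.Agent.Lib.MP_354e85_al.L2C.Gap
import Pool.Agent.Lib.MP_354e85_al.L2B.Fin
import Pool.Agent.Lib.MP_354e85_al.L2B.CGap

/-! Tarski number at most five for all finitely generated groups with a nonzero gradient of a
harmonic Dirichlet function and an element of infinite order. -/

set_option autoImplicit false

namespace Pool.Agent.Lib.MP_354e85_al.L2C

open Finset L2B
open scoped InnerProductSpace Pointwise

/-- ICC groups. -/
theorem main_icc_five {G : Type} [Group G] {ι : Type} [Fintype ι] {s : ι → G} [Nonempty ι]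
    (gen : ∀ g : G, ∃ l, pr s l = g)
    (icc : ∀ g : G, g ≠ 1 → (Set.range fun x : G => x * g * x⁻¹).Infinite) (σ : ι → ι)
    (hσ : Function.Involutive σ) (hs : ∀ i, s (σ i) = (s i)⁻¹)
    (hd : 0 < dm (HD s)) (a : G) (ha : ∀ n : ℕ, 0 < n → a ^ n ≠ 1) : TarskiLE G 5 := by
  classical
  have hZ := HD_good s gen
  obtain ⟨r, hr0, hr1, hr⟩ : ∃ r : ℝ, 0 ≤ r ∧ r < 1 ∧ ∀ f : L G, ‖PR s f‖ ≤ r * ‖f‖ := by
    rcases le_or_gt 4 (dm (HD s)) with h4 | h4
    · obtain ⟨r, hr0, hr1, hr⟩ := cgap s gen σ hσ hs (main_icc gen icc σ hσ hs h4)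
      refine ⟨r, hr0, hr1, fun f => ?_⟩
      have hq : (0 : ℝ) < Fintype.card ι := by exact_mod_cast Fintype.card_pos
      have h1 : PR s f = (Fintype.card ι : ℝ)⁻¹ • ∑ i, RR (s i) f := by
        simp [PR]
      rw [h1, norm_smul, Real.norm_eq_abs, abs_of_pos (inv_pos.2 hq)]
      calc (Fintype.card ι : ℝ)⁻¹ * ‖∑ i, RR (s i) f‖
          ≤ (Fintype.card ι : ℝ)⁻¹ * (r * Fintype.card ι * ‖f‖) :=
            mul_le_mul_of_nonneg_left (hr f) (inv_pos.2 hq).le
        _ = r * ‖f‖ := by
            field_simp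
    · have hinf : Infinite G := by
        by_contra hfin
        rw [not_infinite_iff_finite] at hfin
        obtain ⟨n, hn, h1⟩ := isOfFinOrder_iff_pow_eq_one.1 (isOfFinOrder_of_finite a)
        exact ha n hn h1
      obtain ⟨k, hk⟩ := exists_nat_gt (222 / dm (HD s))
      have hk' : 222 < k * dm (HD s) := by
        rwa [div_lt_iff₀ hd] at hk
      obtain ⟨K, -, -, hK⟩ := exists_expanding gen icc σ hσ hs hZ hd le_rfl h4.le k hk'
      exact gap s gen σ hσ hs K (half_pos hd) hK
  exact main_icc_inf gen icc σ hσ hs hr0 hr1 hr hd a ha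

/-- Reduction to groups all of whose nontrivial conjugacy classes are infinite, with an element of
infinite order. -/
theorem reduce_inf {G : Type} [Group G] {ι : Type} [Fintype ι] (s : ι → G)
    (gen : ∀ g : G, ∃ l, pr s l = g) (σ : ι → ι) (hs : ∀ i, s (σ i) = (s i)⁻¹)
    (hD : 0 < dm (HD s)) (a : G) (ha : ∀ n : ℕ, 0 < n → a ^ n ≠ 1) (N : ℕ)
    (H : ∀ (Q : Type) [Group Q] [Infinite Q] (r : ι → Q), (∀ g : Q, ∃ l, pr r l = g) →
      (∀ g : Q, g ≠ 1 → (Set.range fun x : Q => x * g * x⁻¹).Infinite) →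
      (∀ i, r (σ i) = (r i)⁻¹) → 0 < dm (HD r) → ∀ b : Q, (∀ n : ℕ, 0 < n → b ^ n ≠ 1) →
        TarskiLE Q N) : TarskiLE G N := by
  classical
  -- a nonzero gradient
  have hne : ∃ ω ∈ HD s, ω ≠ 0 := by
    by_contra hcon
    push Not at hcon
    have h0 : (HD s).topologicalClosure = ⊥ := by
      rw [(HD_good s gen).closed.submodule_topologicalClosure_eq]
      exact (Submodule.eq_bot_iff _).2 hcon
    have h1 : dm (HD s) = 0 := by
      unfold dm
      refine Finset.sum_eq_zero fun i _ => ?_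
      have h2 : ∀ x : L (ι × G), (HD s).topologicalClosure.starProjection x = 0 := by
        intro x
        have h3 : (HD s).topologicalClosure.starProjection x ∈ (HD s).topologicalClosure :=
          Submodule.starProjection_apply_mem _ _
        exact (Submodule.eq_bot_iff _).1 h0 _ h3
      rw [h2]
      simp
    linarith
  have hinf : Infinite G := by
    by_contra hfin
    rw [not_infinite_iff_finite] at hfin
    obtain ⟨ω, hω, h⟩ := hne
    exact h (HD_zero_of_finite s ω hω)
  obtain ⟨hN, hNf, hT⟩ := FCc_finite gen hne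
  have hdq := dm_quotient gen (FCc G) hT
  have hicc := icc_quotient (FCc G) (fun g hg => hg)
  have hgen : ∀ g : G ⧸ FCc G, ∃ l, pr (fun i => (QuotientGroup.mk (s i) : G ⧸ FCc G)) l = g := by
    intro g
    obtain ⟨a, rfl⟩ := QuotientGroup.mk_surjective g
    obtain ⟨l, rfl⟩ := gen a
    refine ⟨l, ?_⟩
    unfold pr
    rw [← QuotientGroup.mk'_apply, map_list_prod, List.map_map]
    rfl
  have hinfq : Infinite (G ⧸ FCc G) := by
    by_contra hfin
    rw [not_infinite_iff_finite] at hfin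
    have h1 : Finite G := by
      have h2 : Finite ((G ⧸ FCc G) × FCc G) := inferInstance
      exact Finite.of_equiv _ (Subgroup.groupEquivQuotientProdSubgroup (s := FCc G)).symm
    exact not_finite G
  refine RLim.tarski_quotient (FCc G) (H (G ⧸ FCc G) _ hgen hicc
    (fun i => by rw [hs i]; rfl) (hD.trans_le hdq) (QuotientGroup.mk a) ?_)
  intro n hn h
  have h1 : a ^ n ∈ FCc G := by
    rw [← QuotientGroup.eq_one_iff]
    exact h
  obtain ⟨m, hm, h2⟩ := isOfFinOrder_iff_pow_eq_one.1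
    (isOfFinOrder_of_finite (⟨a ^ n, h1⟩ : FCc G))
  have h3 : (a ^ n) ^ m = 1 := congrArg Subtype.val h2
  rw [← pow_mul] at h3
  exact ha (n * m) (Nat.mul_pos hn hm) h3

theorem main_five {G : Type} [Group G] {ι : Type} [Fintype ι] (s : ι → G)
    (gen : ∀ g : G, ∃ l, pr s l = g) (σ : ι → ι) (hσ : Function.Involutive σ)
    (hs : ∀ i, s (σ i) = (s i)⁻¹) (hD : 0 < dm (HD s)) (a : G)
    (ha : ∀ n : ℕ, 0 < n → a ^ n ≠ 1) : TarskiLE G 5 := by
  refine reduce_inf s gen σ hs hD a ha 5 ?_
  intro Q _ _ r hgen hicc hr hd b hb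
  have hι : Nonempty ι := by
    by_contra hcon
    rw [not_nonempty_iff] at hcon
    have h1 : ∀ g : Q, g = 1 := by
      intro g
      obtain ⟨l, rfl⟩ := hgen g
      have h2 : l = [] := List.eq_nil_iff_forall_not_mem.2 fun a _ => hcon.elim a
      rw [h2]
      simp [pr]
    have h3 : Subsingleton Q := ⟨fun a c => (h1 a).trans (h1 c).symm⟩
    exact not_finite Q
  exact main_icc_five hgen hicc σ hσ hr hd b hb

end Pool.Agent.Lib.MP_354e85_al.L2C
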