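import Pool.Agent.Lib.MP_354e85_al.L2B.SelA

/-! Tarski number at most 4 means a nonabelian free subgroup (known: Jonsson, Dekker). -/

set_option autoImplicit false

namespace Pool.Agent.Lib.MP_354e85_al.L2C

open Finset L2B

/-- Two pieces are needed on each side. -/
private theorem two_le {G : Type} [Group G] {m n : ℕ} {A : Fin m → Set G} {B : Fin n → Set G}
    {g : Fin m → G} {h : Fin n → G} (h1 : ∀ x : G, ∃! p : Fin m ⊕ Fin n, x ∈ Sum.elim A B p)
    (h2 : ∀ x : G, ∃! i : Fin m, (g i)⁻¹ * x ∈ A i)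
    (h3 : ∀ x : G, ∃! j : Fin n, (h j)⁻¹ * x ∈ B j) : 2 ≤ m := by
  by_contra hm
  push Not at hm
  interval_cases m
  · obtain ⟨i, -⟩ := h2 1
    exact i.elim0
  · obtain ⟨j, hj, -⟩ := h3 1
    obtain ⟨i, hi, -⟩ := h2 (g 0 * ((h j)⁻¹ * 1))
    have hi0 : i = 0 := Subsingleton.elim _ _
    subst hi0
    rw [inv_mul_cancel_left] at hi
    have h4 := (h1 ((h j)⁻¹ * 1)).unique (y₁ := Sum.inl 0) (y₂ := Sum.inr j) hi hj
    exact absurd h4 (by simp)

private theorem free_of_tarski {G : Type} [Group G] (h : TarskiLE G 4) :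
    ∃ f : FreeGroup (Fin 2) →* G, Function.Injective f := by
  obtain ⟨m, n, hmn, A, B, g, h, h1, h2, h3⟩ := h
  have hm := two_le h1 h2 h3
  have hn : 2 ≤ n := by
    refine two_le (A := B) (B := A) (g := h) (h := g) ?_ h3 h2
    intro x
    obtain ⟨p, hp, hp'⟩ := h1 x
    refine ⟨p.swap, ?_, ?_⟩
    · rcases p with p | p <;> simpa using hp
    · intro q hq
      have h5 := hp' q.swap (by rcases q with q | q <;> simpa using hq)
      rw [← h5, Sum.swap_swap]
  obtain rfl : m = 2 := by omega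
  obtain rfl : n = 2 := by omega
  have hA : ∀ x : G, x ∈ A 0 → x ∈ A 1 → False := fun x ha hb => by
    have := (h1 x).unique (y₁ := Sum.inl 0) (y₂ := Sum.inl 1) ha hb
    simp at this
  have hB : ∀ x : G, x ∈ B 0 → x ∈ B 1 → False := fun x ha hb => by
    have := (h1 x).unique (y₁ := Sum.inr 0) (y₂ := Sum.inr 1) ha hb
    simp at this
  have hAB : ∀ (x : G) i j, x ∈ A i → x ∈ B j → False := fun x i j ha hb => by
    have := (h1 x).unique (y₁ := Sum.inl i) (y₂ := Sum.inr j) ha hb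
    simp at this
  have eA : ∃ x : G, x ∉ A 0 := by
    obtain ⟨j, hj, -⟩ := h3 1
    exact ⟨_, fun h4 => hAB _ 0 j h4 hj⟩
  have eB : ∃ x : G, x ∉ B 0 := by
    obtain ⟨i, hi, -⟩ := h2 1
    exact ⟨_, fun h4 => hAB _ i 0 hi h4⟩
  have mA : ∀ x : G, x ∉ A 0 → (g 1)⁻¹ * g 0 * x ∈ A 1 := by
    intro x hx
    obtain ⟨i, hi, -⟩ := h2 (g 0 * x)
    fin_cases i
    · exact absurd (by simpa using hi) hx
    · simpa [mul_assoc] using hi
  have mA' : ∀ x : G, x ∉ A 1 → ((g 1)⁻¹ * g 0)⁻¹ * x ∈ A 0 := by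
    intro x hx
    obtain ⟨i, hi, -⟩ := h2 (g 1 * x)
    fin_cases i
    · simpa [mul_assoc] using hi
    · exact absurd (by simpa using hi) hx
  have mB : ∀ x : G, x ∉ B 0 → (h 1)⁻¹ * h 0 * x ∈ B 1 := by
    intro x hx
    obtain ⟨i, hi, -⟩ := h3 (h 0 * x)
    fin_cases i
    · exact absurd (by simpa using hi) hx
    · simpa [mul_assoc] using hi
  have mB' : ∀ x : G, x ∉ B 1 → ((h 1)⁻¹ * h 0)⁻¹ * x ∈ B 0 := by
    intro x hx
    obtain ⟨i, hi, -⟩ := h3 (h 1 * x)
    fin_cases i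
    · simpa [mul_assoc] using hi
    · exact absurd (by simpa using hi) hx
  refine ⟨FreeGroup.lift ![(g 1)⁻¹ * g 0, (h 1)⁻¹ * h 0], ?_⟩
  refine FreeGroup.injective_lift_of_ping_pong (α := G) _ ![A 1, B 1] ![A 0, B 0]
    ?_ ?_ ?_ ?_ ?_ ?_
  · intro i
    fin_cases i
    · obtain ⟨x, hx⟩ := eA
      exact ⟨_, mA x hx⟩
    · obtain ⟨x, hx⟩ := eB
      exact ⟨_, mB x hx⟩
  · intro i j hij
    rw [Function.onFun, Set.disjoint_left]
    intro x hx hx'
    fin_cases i <;> fin_cases j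
    · exact hij rfl
    · exact hAB x 1 1 hx hx'
    · exact hAB x 1 1 hx' hx
    · exact hij rfl
  · intro i j hij
    rw [Function.onFun, Set.disjoint_left]
    intro x hx hx'
    fin_cases i <;> fin_cases j
    · exact hij rfl
    · exact hAB x 0 0 hx hx'
    · exact hAB x 0 0 hx' hx
    · exact hij rfl
  · intro i j
    rw [Set.disjoint_left]
    intro x hx hx'
    fin_cases i <;> fin_cases j
    · exact hA x hx' hx
    · exact hAB x 1 0 hx hx'
    · exact hAB x 0 1 hx' hx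
    · exact hB x hx' hx
  · intro i
    fin_cases i
    · rintro _ ⟨x, hx, rfl⟩
      exact mA x hx
    · rintro _ ⟨x, hx, rfl⟩
      exact mB x hx
  · intro i
    fin_cases i
    · rintro _ ⟨x, hx, rfl⟩
      exact mA' x hx
    · rintro _ ⟨x, hx, rfl⟩
      exact mB' x hx

private theorem tarski_of_free {G : Type} [Group G] (f : FreeGroup (Fin 2) →* G)
    (hf : Function.Injective f) : TarskiLE G 4 := by
  classical
  let o : G → G := fun x => ((x : G ⧸ f.range).out : G)
  have ho : ∀ x : G, ∃ w, f w = (o x)⁻¹ * x := by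
    intro x
    have : (o x)⁻¹ * x ∈ f.range := by
      rw [← QuotientGroup.eq]
      exact Quotient.out_eq _
    exact this
  choose w hw using ho
  have hoo : ∀ (x : G) (u : FreeGroup (Fin 2)), o (x * f u) = o x := by
    intro x u
    have : ((x * f u : G) : G ⧸ f.range) = (x : G ⧸ f.range) := by
      rw [QuotientGroup.eq]
      exact ⟨u⁻¹, by simp⟩
    change ((((x * f u : G) : G ⧸ f.range)).out : G) = _
    rw [this]
  have hww : ∀ (x : G) (u : FreeGroup (Fin 2)), w (x * f u) = w x * u := by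
    intro x u
    apply hf
    rw [hw, hoo, map_mul, hw, mul_assoc]
  let φ : Fin 2 → G → G := fun i x =>
    if (w x)⁻¹ ∈ FreeGroup.startsWith (i, true) then x else x * f (FreeGroup.of i)
  have hφ : ∀ i x, ((w x)⁻¹ ∈ FreeGroup.startsWith (i, true) ∧ φ i x = x ∧
      (w (φ i x))⁻¹ ∈ FreeGroup.startsWith (i, true)) ∨
      (φ i x = x * f (FreeGroup.of i) ∧ (w (φ i x))⁻¹ ∈ FreeGroup.startsWith (i, false)) := by
    intro i x
    by_cases h : (w x)⁻¹ ∈ FreeGroup.startsWith (i, true)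
    · left
      have h1 : φ i x = x := if_pos h
      exact ⟨h, h1, by rw [h1]; exact h⟩
    · right
      have h1 : φ i x = x * f (FreeGroup.of i) := if_neg h
      refine ⟨h1, ?_⟩
      rw [h1, hww, mul_inv_rev]
      exact FreeGroup.startsWith_mk_mul (w := (i, false)) _ h
  have hst : ∀ (p q : Fin 2 × Bool) (u : FreeGroup (Fin 2)), u ∈ FreeGroup.startsWith p →
      u ∈ FreeGroup.startsWith q → p = q := by
    intro p q u hp hq
    by_contra hne
    exact Set.disjoint_left.1 (FreeGroup.startsWith.disjoint_iff_ne.2 hne) hp hq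
  have hmem : ∀ i x, ∃ c, (w (φ i x))⁻¹ ∈ FreeGroup.startsWith (i, c) := by
    intro i x
    rcases hφ i x with ⟨-, -, h⟩ | ⟨-, h⟩
    · exact ⟨_, h⟩
    · exact ⟨_, h⟩
  have hinj : ∀ i, Function.Injective (φ i) := by
    intro i x y hxy
    rcases hφ i x with ⟨-, h1, h2⟩ | ⟨h1, h2⟩ <;> rcases hφ i y with ⟨-, h3, h4⟩ | ⟨h3, h4⟩
    · rw [← h1, ← h3, hxy]
    · rw [hxy] at h2
      have := hst _ _ _ h2 h4
      simp at this
    · rw [hxy] at h2
      have := hst _ _ _ h2 h4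
      simp at this
    · rw [h1, h3] at hxy
      exact mul_right_cancel hxy
  have hdis : ∀ x y, φ 0 x ≠ φ 1 y := by
    intro x y hxy
    obtain ⟨c, hc⟩ := hmem 0 x
    obtain ⟨d, hd⟩ := hmem 1 y
    rw [hxy] at hc
    have := hst _ _ _ hc hd
    simp at this
  refine tarski_of_ineq ![1, f (FreeGroup.of 0)] ![1, f (FreeGroup.of 1)] 0 rfl ?_
  intro F₁ F₂ V hF₁ hF₂
  have e1 : F₁.image (φ 0) ∪ F₂.image (φ 1) ⊆ V := by
    intro z hz
    rcases mem_union.1 hz with hz | hz
    · obtain ⟨x, hx, rfl⟩ := mem_image.1 hz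
      rcases hφ 0 x with ⟨-, h1, -⟩ | ⟨h1, -⟩
      · rw [h1]
        simpa using hF₁ x hx 0
      · rw [h1]
        simpa using hF₁ x hx 1
    · obtain ⟨x, hx, rfl⟩ := mem_image.1 hz
      rcases hφ 1 x with ⟨-, h1, -⟩ | ⟨h1, -⟩
      · rw [h1]
        simpa using hF₂ x hx 0
      · rw [h1]
        simpa using hF₂ x hx 1
  have e2 : Disjoint (F₁.image (φ 0)) (F₂.image (φ 1)) := by
    rw [Finset.disjoint_left]
    intro z hz hz'
    obtain ⟨x, -, rfl⟩ := mem_image.1 hz
    obtain ⟨y, -, hy⟩ := mem_image.1 hz'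
    exact hdis x y hy.symm
  have e3 := card_le_card e1
  rwa [card_union_of_disjoint e2, card_image_of_injective _ (hinj 0),
    card_image_of_injective _ (hinj 1)] at e3

/-- At most four pieces suffice exactly if there is a nonabelian free subgroup. -/
theorem tarski_four_iff {G : Type} [Group G] :
    TarskiLE G 4 ↔ ∃ f : FreeGroup (Fin 2) →* G, Function.Injective f :=
  ⟨free_of_tarski, fun ⟨f, hf⟩ => tarski_of_free f hf⟩

end Pool.Agent.Lib.MP_354e85_al.L2C
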