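import Pool.Agent.Lib.MP_354e85_al.L2C.Gram

/-! The rank of a matrix of increments on right `a`-invariant functions. -/

set_option autoImplicit false

namespace Pool.Agent.Lib.MP_354e85_al.L2C

open Finset
open scoped InnerProductSpace

/-- The squared lengths of the projections of the basis vectors add up to the dimension. -/
private theorem sum_projJ {β : Type} [Fintype β] [DecidableEq β]
    (E : Submodule ℝ (EuclideanSpace ℝ β)) :
    ∑ b : β, ‖E.starProjection (EuclideanSpace.basisFun β ℝ b)‖ ^ 2 = (Module.finrank ℝ E : ℝ) := by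
  have hp : LinearMap.IsProj E (E.starProjection : EuclideanSpace ℝ β →ₗ[ℝ] EuclideanSpace ℝ β) :=
    ⟨fun x => Submodule.starProjection_apply_mem _ _,
      fun x hx => Submodule.starProjection_eq_self_iff.2 hx⟩
  rw [← hp.trace, LinearMap.trace_eq_sum_inner _ (EuclideanSpace.basisFun β ℝ)]
  refine sum_congr rfl fun b _ => ?_
  have h := Submodule.starProjection_inner_eq_zero (K := E) (EuclideanSpace.basisFun β ℝ b)
    (E.starProjection (EuclideanSpace.basisFun β ℝ b)) (Submodule.starProjection_apply_mem _ _)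
  rw [inner_sub_left, sub_eq_zero] at h
  rw [← real_inner_self_eq_norm_sq]
  exact h.symm

/-- One basis vector. -/
private theorem one_vecJ {β : Type} [Fintype β] [DecidableEq β]
    (E : Submodule ℝ (EuclideanSpace ℝ β)) (w : EuclideanSpace ℝ β) (hw : w ∈ E) (b : β) :
    (w b) ^ 2 ≤ ‖w‖ ^ 2 * ‖E.starProjection (EuclideanSpace.basisFun β ℝ b)‖ ^ 2 := by
  have h := Submodule.starProjection_inner_eq_zero (K := E) (EuclideanSpace.basisFun β ℝ b) w hw
  rw [inner_sub_left, sub_eq_zero] at h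
  have h2 : ⟪EuclideanSpace.basisFun β ℝ b, w⟫_ℝ = w b := by
    simp [EuclideanSpace.inner_single_left]
  rw [h2] at h
  have h3 := abs_real_inner_le_norm (E.starProjection (EuclideanSpace.basisFun β ℝ b)) w
  rw [← h] at h3
  rw [← sq_abs, ← mul_pow, mul_comm ‖w‖]
  exact pow_le_pow_left₀ (abs_nonneg _) h3 2

/-- Restricted gradients as a linear image of the functions on a finite set. -/
private noncomputable def grJ {G : Type} [Group G] {k : ℕ} (g : Fin k → G) (A : Fin k → Finset G)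
    (U : Finset G) (h1 : ∀ i, ∀ x ∈ A i, x ∈ U) (h2 : ∀ i, ∀ x ∈ A i, x * g i ∈ U) :
    (U → ℝ) →ₗ[ℝ] EuclideanSpace ℝ (Σ i : Fin k, {x // x ∈ A i}) where
  toFun h := WithLp.toLp 2 fun b =>
    h ⟨b.2.1 * g b.1, h2 b.1 b.2.1 b.2.2⟩ - h ⟨b.2.1, h1 b.1 b.2.1 b.2.2⟩
  map_add' h h' := by
    ext b
    simp only [Pi.add_apply, PiLp.add_apply]
    ring
  map_smul' c h := by
    ext b
    simp only [Pi.smul_apply, PiLp.smul_apply, smul_eq_mul, RingHom.id_apply]
    ring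

private theorem tangentJ {c0 d o p : ℝ} (hc0 : 0 < c0) (hd : c0 ≤ d) (ho : 0 ≤ o)
    (h : d ^ 2 ≤ (d ^ 2 + o) * p) : 3 / 4 - o / (4 * c0 ^ 2) ≤ p := by
  have hc : 0 < c0 ^ 2 := by positivity
  have hd2 : c0 ^ 2 ≤ d ^ 2 := pow_le_pow_left₀ hc0.le hd 2
  have hs : 0 < d ^ 2 + o := by linarith
  by_contra hcon
  push Not at hcon
  have h1 : (d ^ 2 + o) * p < (d ^ 2 + o) * (3 / 4 - o / (4 * c0 ^ 2)) :=
    mul_lt_mul_of_pos_left hcon hs
  have h2 : (d ^ 2 + o) * (3 / 4 - o / (4 * c0 ^ 2)) * (4 * c0 ^ 2) ≤ d ^ 2 * (4 * c0 ^ 2) := by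
    have h3 : (d ^ 2 + o) * (3 / 4 - o / (4 * c0 ^ 2)) * (4 * c0 ^ 2)
        = (d ^ 2 + o) * (3 * c0 ^ 2 - o) := by
      field_simp
    rw [h3]
    nlinarith [mul_nonneg ho (sub_nonneg.2 hd2), sq_nonneg (o - c0 ^ 2),
      mul_nonneg hc.le (sub_nonneg.2 hd2)]
  have h4 : (d ^ 2 + o) * (3 / 4 - o / (4 * c0 ^ 2)) ≤ d ^ 2 :=
    le_of_mul_le_mul_right h2 (by positivity)
  linarith

/-- The functions on `U` with `h (y * a) = h y` for `y ∈ Y`. -/
private def Sinv {G : Type} [Group G] (a : G) (Y U : Finset G) (hY : ∀ y ∈ Y, y ∈ U)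
    (hYa : ∀ y ∈ Y, y * a ∈ U) : Submodule ℝ (U → ℝ) where
  carrier := {h | ∀ y, ∀ hy : y ∈ Y, h ⟨y * a, hYa y hy⟩ = h ⟨y, hY y hy⟩}
  zero_mem' := fun y hy => rfl
  add_mem' := fun {h h'} h1 h2 y hy => by
    rw [Pi.add_apply, Pi.add_apply, h1 y hy, h2 y hy]
  smul_mem' := fun c h h1 y hy => by
    rw [Pi.smul_apply, Pi.smul_apply, h1 y hy]

private theorem Sinv_zero {G : Type} [Group G] [DecidableEq G] (a : G)
    (ha : ∀ n : ℕ, 0 < n → a ^ n ≠ 1) (Y U : Finset G) (hY : ∀ y ∈ Y, y ∈ U)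
    (hYa : ∀ y ∈ Y, y * a ∈ U) (h : U → ℝ) (hh : h ∈ Sinv a Y U hY hYa)
    (h0 : ∀ u : U, u.1 ∉ Y.image (fun y => y * a) → h u = 0) : h = 0 := by
  by_contra hne
  obtain ⟨u, hu⟩ := Function.ne_iff.1 hne
  rw [Pi.zero_apply] at hu
  -- one step back
  have step : ∀ u : U, h u ≠ 0 → ∃ v : U, v.1 = u.1 * a⁻¹ ∧ h v ≠ 0 := by
    intro u hu
    have h1 : u.1 ∈ Y.image (fun y => y * a) := by
      by_contra h2
      exact hu (h0 u h2)
    obtain ⟨y, hy, hyu⟩ := mem_image.1 h1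
    refine ⟨⟨y, hY y hy⟩, ?_, ?_⟩
    · change y = u.1 * a⁻¹
      rw [← hyu, mul_inv_cancel_right]
    · rw [← hh y hy]
      have e : (⟨y * a, hYa y hy⟩ : U) = u := Subtype.ext hyu
      rw [e]
      exact hu
  have all : ∀ n : ℕ, ∃ v : U, v.1 = u.1 * (a⁻¹) ^ n ∧ h v ≠ 0 := by
    intro n
    induction n with
    | zero => exact ⟨u, by rw [pow_zero, mul_one], hu⟩
    | succ n ih =>
      obtain ⟨v, hv, hv0⟩ := ih
      obtain ⟨w, hw, hw0⟩ := step v hv0
      exact ⟨w, by rw [hw, hv, pow_succ, mul_assoc], hw0⟩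
  choose v hv _ using all
  obtain ⟨m, n, hmn, hvv⟩ := Finite.exists_ne_map_eq_of_infinite v
  have h1 : (a⁻¹) ^ m = (a⁻¹) ^ n := by
    have h2 : u.1 * (a⁻¹) ^ m = u.1 * (a⁻¹) ^ n := by rw [← hv m, ← hv n, hvv]
    exact mul_left_cancel h2
  have key : ∀ p q : ℕ, p < q → (a⁻¹) ^ p = (a⁻¹) ^ q → False := by
    intro p q hpq h3
    refine ha (q - p) (by omega) ?_
    have h4 : a ^ p = a ^ q := by
      have h5 := congrArg (fun x => x⁻¹) h3
      simpa using h5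
    have h6 : a ^ q = a ^ p * a ^ (q - p) := by
      rw [← pow_add]
      congr 1
      omega
    rw [h6] at h4
    exact (mul_eq_left.1 h4.symm)
  rcases lt_or_gt_of_ne hmn with h3 | h3
  · exact key m n h3 h1
  · exact key n m h3 h1.symm

private theorem Sinv_dim {G : Type} [Group G] [DecidableEq G] (a : G)
    (ha : ∀ n : ℕ, 0 < n → a ^ n ≠ 1) (Y U : Finset G) (hY : ∀ y ∈ Y, y ∈ U)
    (hYa : ∀ y ∈ Y, y * a ∈ U) :
    Module.finrank ℝ (Sinv a Y U hY hYa) + Y.card ≤ U.card := by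
  classical
  let R : (U → ℝ) →ₗ[ℝ] ({x // x ∈ U \ Y.image (fun y => y * a)} → ℝ) :=
    { toFun := fun h x => h ⟨x.1, (mem_sdiff.1 x.2).1⟩
      map_add' := fun _ _ => rfl
      map_smul' := fun _ _ => rfl }
  have hinj : Function.Injective (R ∘ₗ (Sinv a Y U hY hYa).subtype) := by
    rw [← LinearMap.ker_eq_bot, LinearMap.ker_eq_bot']
    rintro ⟨h, hh⟩ h1
    apply Subtype.ext
    refine Sinv_zero a ha Y U hY hYa h hh fun u hu => ?_
    exact congrFun h1 ⟨u.1, mem_sdiff.2 ⟨u.2, hu⟩⟩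
  have h1 := LinearMap.finrank_le_finrank_of_injective hinj
  rw [Module.finrank_fintype_fun_eq_card, Fintype.card_coe] at h1
  have h2 : Y.image (fun y => y * a) ⊆ U := by
    intro u hu
    obtain ⟨y, hy, rfl⟩ := mem_image.1 hu
    exact hYa y hy
  have h3 : (Y.image (fun y => y * a)).card = Y.card :=
    card_image_of_injective _ (mul_left_injective a)
  rw [card_sdiff_of_subset h2, h3] at h1
  have h4 := card_le_card h2
  rw [h3] at h4
  omega

/-- Proof. `U` = the set on the right. A function on `U` with `h (y * a) = h y` for `y ∈ Y` which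
vanishes outside `Y * a` is zero (`a` has infinite order), so the space `S0` of these functions has
dimension at most `|U| - |Y|`. The rows `w e`, `e = (i, x)`, of the matrix
`M e e' = f i (x⁻¹ * y * g j) - f i (x⁻¹ * y)`, `e' = (j, y)`, are in the image of `S0` under
`h ↦ (h (y * g j) - h y)`. The rest is the proof of `gram_card`. -/
theorem gram_card_inf {G : Type} [Group G] [DecidableEq G] (a : G)
    (ha : ∀ n : ℕ, 0 < n → a ^ n ≠ 1) {k : ℕ} (g : Fin k → G)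
    (f : Fin k → G → ℝ) (hf : ∀ i x, f i (x * a) = f i x) {c0 : ℝ} (hc0 : 0 < c0)
    (hd : ∀ i, c0 ≤ f i (g i) - f i 1) (A : Fin k → Finset G) (Y : Finset G)
    (hoff : ∑ i, ∑ j, ∑ x ∈ A i, ∑ y ∈ A j,
      (if i = j ∧ x = y then 0 else (f i (x⁻¹ * y * g j) - f i (x⁻¹ * y)) ^ 2) ≤
        c0 ^ 2 * ∑ i, ((A i).card : ℝ)) :
    ∑ i, ((A i).card : ℝ) + 2 * (Y.card : ℝ) ≤ 2 * ((((univ : Finset (Fin k)).biUnion
      fun i => A i ∪ (A i).image (fun x => x * g i)) ∪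
        (Y ∪ Y.image (fun y => y * a))).card : ℝ) := by
  classical
  set U : Finset G := ((univ : Finset (Fin k)).biUnion
    fun i => A i ∪ (A i).image (fun x => x * g i)) ∪ (Y ∪ Y.image (fun y => y * a)) with hU
  have h1 : ∀ i, ∀ x ∈ A i, x ∈ U := fun i x hx =>
    mem_union_left _ (mem_biUnion.2 ⟨i, mem_univ _, mem_union_left _ hx⟩)
  have h2 : ∀ i, ∀ x ∈ A i, x * g i ∈ U := fun i x hx =>
    mem_union_left _ (mem_biUnion.2 ⟨i, mem_univ _, mem_union_right _ (mem_image_of_mem _ hx)⟩)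
  have hY : ∀ y ∈ Y, y ∈ U := fun y hy => mem_union_right _ (mem_union_left _ hy)
  have hYa : ∀ y ∈ Y, y * a ∈ U := fun y hy =>
    mem_union_right _ (mem_union_right _ (mem_image_of_mem _ hy))
  set S : Submodule ℝ (EuclideanSpace ℝ (Σ i : Fin k, {x // x ∈ A i})) :=
    (Sinv a Y U hY hYa).map (grJ g A U h1 h2) with hS
  have hdim : (Module.finrank ℝ S : ℝ) + (Y.card : ℝ) ≤ (U.card : ℝ) := by
    have h := Submodule.finrank_map_le (grJ g A U h1 h2) (Sinv a Y U hY hYa)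
    have h' := Sinv_dim a ha Y U hY hYa
    have h'' : Module.finrank ℝ S + Y.card ≤ U.card := by
      rw [hS]
      omega
    exact_mod_cast h''
  let m : (Σ i : Fin k, {x // x ∈ A i}) → (Σ i : Fin k, {x // x ∈ A i}) → ℝ :=
    fun e e' => f e.1 (e.2.1⁻¹ * e'.2.1 * g e'.1) - f e.1 (e.2.1⁻¹ * e'.2.1)
  let o : (Σ i : Fin k, {x // x ∈ A i}) → ℝ :=
    fun e => ∑ e', (if e.1 = e'.1 ∧ e.2.1 = e'.2.1 then 0 else (m e e') ^ 2)
  have hcond : ∀ e e' : (Σ i : Fin k, {x // x ∈ A i}),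
      (e.1 = e'.1 ∧ e.2.1 = e'.2.1) ↔ e = e' := by
    rintro ⟨i, x, hx⟩ ⟨j, y, hy⟩
    constructor
    · rintro ⟨h3, h4⟩
      dsimp only at h3 h4
      subst h3
      subst h4
      rfl
    · intro h
      rw [h]
      exact ⟨rfl, rfl⟩
  have ho : ∀ e, 0 ≤ o e := fun e => sum_nonneg fun e' _ => by
    split_ifs
    · exact le_rfl
    · exact sq_nonneg _
  have hsum : ∀ e, ∑ e', (m e e') ^ 2 = (m e e) ^ 2 + o e := by
    intro e
    have h3 : ∀ e', (m e e') ^ 2 = (if e = e' then (m e e') ^ 2 else 0) +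
        (if e.1 = e'.1 ∧ e.2.1 = e'.2.1 then 0 else (m e e') ^ 2) := by
      intro e'
      by_cases h : e = e'
      · rw [if_pos h, if_pos ((hcond e e').2 h), add_zero]
      · rw [if_neg h, if_neg fun h4 => h ((hcond e e').1 h4), zero_add]
    rw [sum_congr rfl fun e' _ => h3 e', sum_add_distrib]
    simp only [sum_ite_eq, mem_univ, if_true]
    rfl
  have key : ∀ e : (Σ i : Fin k, {x // x ∈ A i}), 3 / 4 - o e / (4 * c0 ^ 2) ≤
      ‖S.starProjection (EuclideanSpace.basisFun (Σ i : Fin k, {x // x ∈ A i}) ℝ e)‖ ^ 2 := by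
    intro e
    let w : EuclideanSpace ℝ (Σ i : Fin k, {x // x ∈ A i}) :=
      grJ g A U h1 h2 fun u => f e.1 (e.2.1⁻¹ * u.1)
    have hw : w ∈ S := by
      refine ⟨fun u => f e.1 (e.2.1⁻¹ * u.1), ?_, rfl⟩
      intro y hy
      change f e.1 (e.2.1⁻¹ * (y * a)) = f e.1 (e.2.1⁻¹ * y)
      rw [← mul_assoc, hf]
    have hwa : ∀ b, w b = m e b := by
      intro b
      change f e.1 (e.2.1⁻¹ * (b.2.1 * g b.1)) - f e.1 (e.2.1⁻¹ * b.2.1) = _
      rw [← mul_assoc]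
    have hn : ‖w‖ ^ 2 = (m e e) ^ 2 + o e := by
      rw [EuclideanSpace.norm_sq_eq, ← hsum e]
      refine sum_congr rfl fun b _ => ?_
      rw [Real.norm_eq_abs, sq_abs, hwa b]
    have h6 := one_vecJ S w hw e
    rw [hwa e, hn] at h6
    have hde : c0 ≤ m e e := by
      change c0 ≤ f e.1 (e.2.1⁻¹ * e.2.1 * g e.1) - f e.1 (e.2.1⁻¹ * e.2.1)
      rw [inv_mul_cancel, one_mul]
      exact hd e.1
    exact tangentJ hc0 hde (ho e) h6
  have h9 : ∑ e, (3 / 4 - o e / (4 * c0 ^ 2)) ≤ ∑ e,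
      ‖S.starProjection (EuclideanSpace.basisFun (Σ i : Fin k, {x // x ∈ A i}) ℝ e)‖ ^ 2 :=
    sum_le_sum fun e _ => key e
  rw [sum_projJ S] at h9
  have hE : (Fintype.card (Σ i : Fin k, {x // x ∈ A i}) : ℝ) = ∑ i, ((A i).card : ℝ) := by
    rw [Fintype.card_sigma]
    push_cast
    refine sum_congr rfl fun i _ => ?_
    rw [Fintype.card_coe]
  have hoo : ∑ e, o e = ∑ i, ∑ j, ∑ x ∈ A i, ∑ y ∈ A j,
      (if i = j ∧ x = y then 0 else (f i (x⁻¹ * y * g j) - f i (x⁻¹ * y)) ^ 2) := by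
    rw [Fintype.sum_sigma]
    refine sum_congr rfl fun i _ => ?_
    symm
    rw [sum_comm]
    rw [← sum_coe_sort (A i)]
    refine sum_congr rfl fun x _ => ?_
    symm
    change ∑ e' : (Σ i : Fin k, {x // x ∈ A i}), _ = _
    rw [Fintype.sum_sigma]
    refine sum_congr rfl fun j _ => ?_
    rw [← sum_coe_sort (A j)]
  rw [← hoo, ← hE] at hoff
  rw [← hE]
  have h10 : ∑ e : (Σ i : Fin k, {x // x ∈ A i}), (3 / 4 - o e / (4 * c0 ^ 2)) =
      3 / 4 * (Fintype.card (Σ i : Fin k, {x // x ∈ A i}) : ℝ) - (∑ e, o e) / (4 * c0 ^ 2) := by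
    rw [sum_sub_distrib, sum_const, card_univ, nsmul_eq_mul, sum_div]
    ring
  rw [h10] at h9
  have h11 : (∑ e, o e) / (4 * c0 ^ 2) ≤
      1 / 4 * (Fintype.card (Σ i : Fin k, {x // x ∈ A i}) : ℝ) := by
    rw [div_le_iff₀ (by positivity)]
    refine hoff.trans (le_of_eq ?_)
    ring
  linarith

end Pool.Agent.Lib.MP_354e85_al.L2C
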