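import Pool.Agent.Lib.MP_354e85_al.L2C.JMom
import Pool.Agent.Lib.MP_354e85_al.L2B.Rank

/-! The part of the harmonic functions which can be corrected by a square summable function to a
right `a`-invariant function, `a` of infinite order. -/

set_option autoImplicit false

namespace Pool.Agent.Lib.MP_354e85_al.L2C

open Finset Filter Topology L2B
open scoped InnerProductSpace

variable {G : Type} [Group G] {ι : Type} [Fintype ι] {s : ι → G}
  {Z : Submodule ℝ (L (ι × G))}

omit [Fintype ι] [Group G] in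
private theorem j0_mem (ω : L (Option ι × G)) :
    Memℓp (E := fun _ : ι × G => ℝ) (fun p => ω (some p.1, p.2)) 2 :=
  L_mem ((L_hasSum ω).summable.comp_injective (i := fun p : ι × G => (some p.1, p.2))
    (fun p q h => by
      obtain ⟨i, x⟩ := p
      obtain ⟨j, y⟩ := q
      simpa using h))

private noncomputable def j0f (ω : L (Option ι × G)) : L (ι × G) :=
  ⟨fun p => ω (some p.1, p.2), j0_mem ω⟩

omit [Fintype ι] [Group G] in
private theorem j0_norm (ω : L (Option ι × G)) : ‖j0f ω‖ ≤ 1 * ‖ω‖ := by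
  rw [one_mul]
  have h3 : ‖j0f ω‖ ^ 2 ≤ ‖ω‖ ^ 2 :=
    hasSum_le_inj (fun p : ι × G => (some p.1, p.2)) (fun p q h => by
      obtain ⟨i, x⟩ := p
      obtain ⟨j, y⟩ := q
      simpa using h) (fun _ _ => sq_nonneg _) (fun _ => le_rfl) (L_hasSum (j0f ω)) (L_hasSum ω)
  exact (pow_le_pow_iff_left₀ (norm_nonneg _) (norm_nonneg _) (by norm_num)).1 h3

/-- The part of a function on `Option ι × G` on `ι × G`. -/
noncomputable def J0 : L (Option ι × G) →L[ℝ] L (ι × G) :=
  LinearMap.mkContinuous
    { toFun := j0f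
      map_add' := fun f g => by
        ext a
        rfl
      map_smul' := fun c f => by
        ext a
        rfl } 1 j0_norm

omit [Fintype ι] [Group G] in
@[simp] theorem J0_apply (ω : L (Option ι × G)) (i : ι) (x : G) :
    J0 ω (i, x) = ω (some i, x) := rfl

omit [Fintype ι] in
private theorem j0_lam (y : G) (ω : L (Option ι × G)) : J0 (lam y ω) = lam y (J0 ω) := by
  apply L_ext
  rintro ⟨i, x⟩
  rfl

omit [Fintype ι] [Group G] in
private theorem j0_le (ω : L (Option ι × G)) : ‖J0 ω‖ ≤ ‖ω‖ := by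
  have h := j0_norm ω
  rw [one_mul] at h
  exact h

omit [Fintype ι] [Group G] in
private theorem j0_single [DecidableEq (Option ι × G)] [DecidableEq (ι × G)] (i : ι) (x : G) :
    J0 (lp.single 2 ((some i, x) : Option ι × G) (1 : ℝ)) = lp.single 2 ((i, x) : ι × G) (1 : ℝ) := by
  apply L_ext
  rintro ⟨j, y⟩
  rw [J0_apply, lp.single_apply, lp.single_apply, Pi.single_apply, Pi.single_apply]
  by_cases h : (j, y) = (i, x)
  · rw [if_pos h, if_pos (by rw [Prod.mk.injEq] at h ⊢; exact ⟨congrArg some h.1, h.2⟩)]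
  · rw [if_neg h, if_neg (fun h' => h (by
      rw [Prod.mk.injEq] at h' ⊢
      exact ⟨Option.some.inj h'.1, h'.2⟩))]

omit [Fintype ι] [Group G] in
private theorem j0_single_none [DecidableEq (Option ι × G)] (x : G) :
    J0 (lp.single 2 ((none, x) : Option ι × G) (1 : ℝ)) = (0 : L (ι × G)) := by
  apply L_ext
  rintro ⟨j, y⟩
  rw [J0_apply, lp.single_apply, Pi.single_apply, if_neg (fun h => by
    rw [Prod.mk.injEq] at h
    exact Option.some_ne_none j h.1)]
  rfl

omit [Fintype ι] [Group G] in
private theorem adj_apply (p : L (ι × G)) (i : ι) (x : G) :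
    (ContinuousLinearMap.adjoint J0 p : L (Option ι × G)) (some i, x) = p (i, x) := by
  classical
  have h1 : ⟪(lp.single 2 ((some i, x) : Option ι × G) (1 : ℝ) : L (Option ι × G)),
      ContinuousLinearMap.adjoint J0 p⟫_ℝ =
      (ContinuousLinearMap.adjoint J0 p : L (Option ι × G)) (some i, x) := by
    rw [lp.inner_single_left]
    simp
  have h2 : ⟪(lp.single 2 ((i, x) : ι × G) (1 : ℝ) : L (ι × G)), p⟫_ℝ = p (i, x) := by
    rw [lp.inner_single_left]
    simp
  rw [← h1, ContinuousLinearMap.adjoint_inner_right, j0_single, h2]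

omit [Fintype ι] [Group G] in
private theorem j0_adj (p : L (ι × G)) : J0 (ContinuousLinearMap.adjoint J0 p) = p := by
  apply L_ext
  rintro ⟨i, x⟩
  rw [J0_apply, adj_apply]

omit [Fintype ι] [Group G] in
private theorem adj_le (p : L (ι × G)) : ‖ContinuousLinearMap.adjoint (J0 (ι := ι) (G := G)) p‖ ≤ ‖p‖ := by
  have h1 : ‖ContinuousLinearMap.adjoint (J0 (ι := ι) (G := G)) p‖ ^ 2 = ‖p‖ ^ 2 := by
    rw [← real_inner_self_eq_norm_sq, ContinuousLinearMap.adjoint_inner_left, j0_adj,
      real_inner_self_eq_norm_sq]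
  exact le_of_eq ((pow_left_inj₀ (norm_nonneg _) (norm_nonneg _) two_ne_zero).1 h1)

/-- the constraint -/
private noncomputable def KK (s : ι → G) (a : G) : L (Option ι × G) →L[ℝ] L G :=
  T s a ∘L J0 + ((RR a).toContinuousLinearMap ∘L sl none - sl none)

omit [Fintype ι] in
private theorem KK_apply (s : ι → G) (a : G) (ω : L (Option ι × G)) :
    KK s a ω = T s a (J0 ω) + (RR a (sl none ω) - sl none ω) := rfl

omit [Fintype ι] in
private theorem KK_lam (s : ι → G) (a y : G) (ω : L (Option ι × G)) :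
    KK s a (lam y ω) = LL y (KK s a ω) := by
  rw [KK_apply, KK_apply, j0_lam, T_lam, map_add, map_sub, ← RR_LL]
  rfl

omit [Fintype ι] in
/-- a square summable function invariant under an element of infinite order vanishes -/
private theorem inv_zero (a : G) (ha : ∀ n : ℕ, 0 < n → a ^ n ≠ 1) (h : L G) (hh : RR a h = h) :
    h = 0 := by
  apply L_ext
  intro x
  have h1 : ∀ n : ℕ, h (x * a ^ n) = h x := by
    intro n
    induction n with
    | zero => rw [pow_zero, mul_one]
    | succ n ih =>
      have h2 : RR a h (x * a ^ n) = h (x * a ^ n) := by rw [hh]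
      rw [RR_apply] at h2
      rw [pow_succ, ← mul_assoc, h2, ih]
  have hinj : Function.Injective fun n : ℕ => x * a ^ n := by
    intro m n hmn
    have h3 : a ^ m = a ^ n := mul_left_cancel hmn
    by_contra hne
    rcases lt_or_gt_of_ne hne with hlt | hlt
    · refine ha (n - m) (Nat.sub_pos_of_lt hlt) ?_
      have h4 : a ^ m * a ^ (n - m) = a ^ m * 1 := by
        rw [← pow_add, Nat.add_sub_cancel' hlt.le, mul_one, h3]
      exact mul_left_cancel h4
    · refine ha (m - n) (Nat.sub_pos_of_lt hlt) ?_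
      have h4 : a ^ n * a ^ (m - n) = a ^ n * 1 := by
        rw [← pow_add, Nat.add_sub_cancel' hlt.le, mul_one, h3]
      exact mul_left_cancel h4
  have h5 := (L_hasSum h).summable.comp_injective hinj
  have h6 : ((fun y => (h y) ^ 2) ∘ fun n : ℕ => x * a ^ n) = fun _ : ℕ => (h x) ^ 2 := by
    funext n
    change (h (x * a ^ n)) ^ 2 = _
    rw [h1 n]
  rw [h6, summable_const_iff] at h5
  exact pow_eq_zero_iff two_ne_zero |>.1 h5

/-- Proof. `H = {ω | J0 ω ∈ Z}` is closed, invariant, `dm H = dm Z + 1` (the projection of the basis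
vector at `(none, 1)` is itself, the projection of the one at `(some i, 1)` is the one in `Z`).
`K ω = T s a (J0 ω) + RR a (sl none ω) - sl none ω` is bounded and commutes with the left
translations; `N = H ⊓ ker K`; `ranknull` with `p = 1`: `dm N ≥ dm Z > 0`, so `N ≠ ⊥`. If
`J0 ω = 0` on `N` then `RR a h = h` for `h = sl none ω`, `h ^ 2` is constant on the infinite cosets
of the powers of `a` and summable, `h = 0`, so `J0` is injective on `N`. With the representers `u`
of `Z` (`exists_rep`) and `E = adjoint J0` put `v g = N.starProjection (E (u g))`. For `ν ∈ N`: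
`⟪lam x ν, v g⟫ = ⟪lam x ν, E (u g)⟫ = ⟪lam x (J0 ν), u g⟫ = T s g (J0 ν) x`. The projection commutes
with `lam`. If all `v (s i) = 0` then `T s (s i) (J0 ν) = sl i (J0 ν) = 0` for all `ν ∈ N`, `J0 ν = 0`,
`N = ⊥`, contradiction: so `0 < dJ s v`. -/
theorem exists_RepJ (gen : ∀ g : G, ∃ l, pr s l = g) (hZ : Good s Z) (hD : 0 < dm Z) (a : G)
    (ha : ∀ n : ℕ, 0 < n → a ^ n ≠ 1) :
    ∃ v : G → L (Option ι × G), RepJ s Z J0 v ∧ 0 < dJ s v ∧
      ∀ g, T s a (J0 (v g)) + RR a (sl none (v g)) - sl none (v g) = 0 := by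
  classical
  obtain ⟨u, hu⟩ := exists_rep gen hZ
  -- the big space
  let H : Submodule ℝ (L (Option ι × G)) := Z.comap (J0 (ι := ι) (G := G)).toLinearMap
  have hH : ∀ ω, ω ∈ H ↔ J0 ω ∈ Z := fun ω => Iff.rfl
  have hHc : IsClosed (H : Set (L (Option ι × G))) :=
    hZ.closed.preimage (J0 (ι := ι) (G := G)).continuous
  have hHi : ∀ y : G, ∀ ω ∈ H, lam y ω ∈ H := by
    intro y ω hω
    rw [hH, j0_lam]
    exact hZ.inv y _ ((hH ω).1 hω)
  haveI : CompleteSpace Z := hZ.closed.completeSpace_coe
  haveI : CompleteSpace H := hHc.completeSpace_coe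
  let N : Submodule ℝ (L (Option ι × G)) := H ⊓ LinearMap.ker (KK s a).toLinearMap
  have hN : ∀ ω, ω ∈ N ↔ J0 ω ∈ Z ∧ KK s a ω = 0 := fun ω => Iff.rfl
  have hNc : IsClosed (N : Set (L (Option ι × G))) := by
    have h1 : IsClosed {x : L (Option ι × G) | KK s a x = 0} :=
      isClosed_singleton.preimage (KK s a).continuous
    exact hHc.inter h1
  haveI : CompleteSpace N := hNc.completeSpace_coe
  have hNi : ∀ y : G, ∀ ω ∈ N, lam y ω ∈ N := by
    intro y ω hω
    rw [hN] at hω ⊢
    refine ⟨(hH _).1 (hHi y ω ((hH ω).2 hω.1)), ?_⟩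
    rw [KK_lam, hω.2, map_zero]
  -- dimensions
  have hdH : dm Z + 1 ≤ dm H := by
    have hclZ : Z.topologicalClosure = Z := hZ.closed.submodule_topologicalClosure_eq
    have hclH : H.topologicalClosure = H := hHc.submodule_topologicalClosure_eq
    have key : ∀ (e w : L (Option ι × G)), w ∈ H →
        ⟪e, w⟫_ℝ ≤ ‖H.topologicalClosure.starProjection e‖ * ‖w‖ := by
      intro e w hw
      have h8 := Submodule.starProjection_inner_eq_zero (K := H.topologicalClosure) e w
        (by rw [hclH]; exact hw)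
      rw [inner_sub_left, sub_eq_zero] at h8
      rw [h8]
      exact real_inner_le_norm _ _
    have hall : ∀ (_ : DecidableEq (Option ι × G)) (_ : DecidableEq (ι × G)),
        (∑ i : ι, ‖Z.topologicalClosure.starProjection
          (lp.single 2 ((i, 1) : ι × G) (1 : ℝ))‖ ^ 2) + 1 ≤
        ∑ i : Option ι, ‖H.topologicalClosure.starProjection
          (lp.single 2 ((i, 1) : Option ι × G) (1 : ℝ))‖ ^ 2 := by
      intro inst inst'
      rw [Fintype.sum_option]
      have hnone : (1 : ℝ) ≤ ‖H.topologicalClosure.starProjection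
          (lp.single 2 ((none, 1) : Option ι × G) (1 : ℝ))‖ ^ 2 := by
        have hmem : (lp.single 2 ((none, 1) : Option ι × G) (1 : ℝ) : L (Option ι × G)) ∈ H := by
          rw [hH, j0_single_none]
          exact Z.zero_mem
        have hn : ‖(lp.single 2 ((none, 1) : Option ι × G) (1 : ℝ) : L (Option ι × G))‖ = 1 := by
          rw [lp.norm_single (by norm_num)]
          simp
        have h9 := key (lp.single 2 ((none, 1) : Option ι × G) (1 : ℝ)) _ hmem
        rw [real_inner_self_eq_norm_sq, hn] at h9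
        nlinarith
      have hsome : ∀ i : ι, ‖Z.topologicalClosure.starProjection
          (lp.single 2 ((i, 1) : ι × G) (1 : ℝ))‖ ^ 2 ≤ ‖H.topologicalClosure.starProjection
          (lp.single 2 ((some i, 1) : Option ι × G) (1 : ℝ))‖ ^ 2 := by
        intro i
        set p := Z.topologicalClosure.starProjection (lp.single 2 ((i, 1) : ι × G) (1 : ℝ)) with hp
        have hpZ : p ∈ Z := hclZ.le (Submodule.starProjection_apply_mem _ _)
        have h8 := Submodule.starProjection_inner_eq_zero (K := Z.topologicalClosure)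
          (lp.single 2 ((i, 1) : ι × G) (1 : ℝ)) p (by rw [hclZ]; exact hpZ)
        rw [inner_sub_left, sub_eq_zero, ← hp, real_inner_self_eq_norm_sq] at h8
        have h9 := key (lp.single 2 ((some i, 1) : Option ι × G) (1 : ℝ))
          (ContinuousLinearMap.adjoint J0 p) (by rw [hH, j0_adj]; exact hpZ)
        rw [ContinuousLinearMap.adjoint_inner_right, j0_single, h8] at h9
        have h10 : ‖p‖ ^ 2 ≤ ‖H.topologicalClosure.starProjection
            (lp.single 2 ((some i, 1) : Option ι × G) (1 : ℝ))‖ * ‖p‖ :=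
          h9.trans (mul_le_mul_of_nonneg_left (adj_le p) (norm_nonneg _))
        rcases eq_or_lt_of_le (norm_nonneg p) with h0 | h0
        · rw [← h0, zero_pow two_ne_zero]
          exact sq_nonneg _
        · have h11 : ‖p‖ ≤ ‖H.topologicalClosure.starProjection
              (lp.single 2 ((some i, 1) : Option ι × G) (1 : ℝ))‖ := by
            rw [sq] at h10
            exact le_of_mul_le_mul_right h10 h0
          exact pow_le_pow_left₀ (norm_nonneg _) h11 2
      have hs := Finset.sum_le_sum fun i (_ : i ∈ (Finset.univ : Finset ι)) => hsome i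
      linarith
    unfold dm
    exact hall _ _
  have hdN : 0 < dm N := by
    have h1 := ranknull H hHc hHi (KK s a) (KK_lam s a) (p := 1) zero_le_one (by
      intro ω _
      rw [one_mul]
      exact le_hasSum (L_hasSum (KK s a ω)) (1 : G) fun j _ => sq_nonneg _)
    linarith
  -- the representers
  let v : G → L (Option ι × G) := fun g =>
    N.starProjection (ContinuousLinearMap.adjoint J0 (u g))
  have hmem : ∀ g, v g ∈ N := fun g => Submodule.starProjection_apply_mem _ _
  have hproj : ∀ ω ∈ N, ∀ w, ⟪ω, N.starProjection w⟫_ℝ = ⟪ω, w⟫_ℝ := by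
    intro ω hω w
    have h := Submodule.starProjection_inner_eq_zero (K := N) w ω hω
    rw [inner_sub_left, sub_eq_zero] at h
    rw [real_inner_comm, ← h, real_inner_comm]
  have h2 : ∀ ω ∈ N, ∀ g x, T s g (J0 ω) x = ⟪lam x ω, v g⟫_ℝ := by
    intro ω hω g x
    rw [hproj _ (hNi x ω hω), ContinuousLinearMap.adjoint_inner_right, j0_lam]
    exact hu.rep _ ((hN ω).1 hω).1 g x
  have h1 : ∀ ω ∈ N, ∀ g, T s g (J0 ω) 1 = ⟪ω, v g⟫_ℝ := by
    intro ω hω g
    rw [h2 ω hω g 1, lam_one]
  have huniq : ∀ b ∈ N, ∀ c ∈ N, (∀ ω ∈ N, ⟪ω, b⟫_ℝ = ⟪ω, c⟫_ℝ) → b = c := by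
    intro b hb c hc h
    have h3 := h (b - c) (N.sub_mem hb hc)
    rw [← sub_eq_zero, ← inner_sub_right] at h3
    exact sub_eq_zero.1 (inner_self_eq_zero.1 h3)
  have hmul : ∀ g h, v (g * h) = v g + lam g⁻¹ (v h) := by
    intro g h
    refine huniq _ (hmem _) _ (N.add_mem (hmem _) (hNi _ _ (hmem _))) ?_
    intro ω hω
    rw [inner_add_right, ← h1 ω hω, T_mul gen hZ g h ((hN ω).1 hω).1, ← h1 ω hω]
    change T s g (J0 ω) 1 + T s h (J0 ω) (1 * g) = _
    rw [one_mul, h2 ω hω h g]
    congr 1
    have h4 : ⟪lam g ω, lam g (lam g⁻¹ (v h))⟫_ℝ = ⟪ω, lam g⁻¹ (v h)⟫_ℝ :=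
      LinearIsometry.inner_map_map _ _ _
    rw [lam_lam, inv_mul_cancel, lam_one] at h4
    exact h4
  have hsum : ∑ i, v (s i) = 0 := by
    refine huniq _ (N.sum_mem fun i _ => hmem _) _ N.zero_mem ?_
    intro ω hω
    rw [inner_sum, inner_zero_right]
    have h5 : ∀ i, ⟪ω, v (s i)⟫_ℝ = sl i (J0 ω) 1 := by
      intro i
      rw [← h1 ω hω, T_gen gen hZ i ((hN ω).1 hω).1]
    simp only [h5]
    have h6 := congrArg (fun f : L G => f 1) (hZ.harm _ ((hN ω).1 hω).1)
    simp only [lp.coeFn_sum, Finset.sum_apply] at h6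
    rw [h6]
    rfl
  refine ⟨v, ⟨fun g => ((hN _).1 (hmem g)).1, j0_lam, j0_le, fun g g' x => h2 _ (hmem g') g x,
    hmul, hsum⟩, ?_, ?_⟩
  · by_contra hc
    have h0 : dJ s v = 0 := le_antisymm (not_lt.1 hc) (dJ_nonneg s v)
    unfold dJ at h0
    rw [Finset.sum_eq_zero_iff_of_nonneg fun _ _ => sq_nonneg _] at h0
    have h3 : ∀ i, v (s i) = 0 := fun i =>
      norm_eq_zero.1 (pow_eq_zero_iff two_ne_zero |>.1 (h0 i (Finset.mem_univ i)))
    have hbot : N = ⊥ := by
      rw [eq_bot_iff]
      intro ω hω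
      rw [Submodule.mem_bot]
      have h4 : J0 ω = 0 := by
        apply L_ext
        rintro ⟨i, x⟩
        have h5 := h2 ω hω (s i) x
        rw [T_gen gen hZ i ((hN ω).1 hω).1, h3 i, inner_zero_right, sl_apply] at h5
        rw [h5]
        rfl
      have h6 := ((hN ω).1 hω).2
      rw [KK_apply, h4, map_zero, zero_add, sub_eq_zero] at h6
      have h7 := inv_zero a ha _ h6
      apply L_ext
      rintro ⟨k, x⟩
      cases k with
      | none =>
        have h8 : (sl none ω : L G) x = 0 := by rw [h7]; rfl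
        exact h8
      | some i =>
        have h8 : J0 ω (i, x) = 0 := by rw [h4]; rfl
        exact h8
    have hz : dm N = 0 := by
      rw [hbot]
      unfold dm
      refine Finset.sum_eq_zero fun i _ => ?_
      have h9 : (⊥ : Submodule ℝ (L (Option ι × G))).topologicalClosure = ⊥ :=
        (isClosed_singleton (x := (0 : L (Option ι × G)))).submodule_topologicalClosure_eq
      have h10 : ∀ w : L (Option ι × G),
          (⊥ : Submodule ℝ (L (Option ι × G))).topologicalClosure.starProjection w = 0 := by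
        intro w
        have h11 := h9.le (Submodule.starProjection_apply_mem
          (⊥ : Submodule ℝ (L (Option ι × G))).topologicalClosure w)
        rwa [Submodule.mem_bot] at h11
      rw [h10, norm_zero, zero_pow two_ne_zero]
    exact absurd hz hdN.ne'
  · intro g
    have h4 := ((hN _).1 (hmem g)).2
    rw [KK_apply, ← add_sub_assoc] at h4
    exact h4

end Pool.Agent.Lib.MP_354e85_al.L2C
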