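import Pool.Agent.Lib.MP_354e85_al.L2C.JTwo
import Pool.Agent.Lib.MP_354e85_al.L2C.JHall
import Pool.Agent.Lib.MP_354e85_al.L2C.JKer
import Pool.Agent.Lib.MP_354e85_al.L2B.SelA
import Pool.Agent.Lib.MP_354e85_al.L2B.CN

/-! ICC groups with a nonzero harmonic Dirichlet function and an element of infinite order have
Tarski number at most 5. -/

set_option autoImplicit false

namespace Pool.Agent.Lib.MP_354e85_al.L2C

open Finset L2B
open scoped InnerProductSpace

variable {G : Type} [Group G] {ι : Type} [Fintype ι] {s : ι → G}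

/-- The potential of a gradient. -/
private theorem pot (gen : ∀ g : G, ∃ l, pr s l = g) {Z : Submodule ℝ (L (ι × G))}
    (hZ : Good s Z) {ω : L (ι × G)} (hω : ω ∈ Z) (g x : G) :
    T s (x * g) ω 1 - T s x ω 1 = T s g ω x := by
  rw [T_mul gen hZ x g hω]
  change (T s x ω 1 + T s g ω (1 * x)) - T s x ω 1 = _
  rw [one_mul]
  ring

private theorem sl_none_norm (ω : L (Option ι × G)) : ‖sl none ω‖ ^ 2 ≤ ‖ω‖ ^ 2 := by
  rw [← sum_sl ω]
  exact single_le_sum (f := fun i : Option ι => ‖sl i ω‖ ^ 2) (fun _ _ => sq_nonneg _)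
    (mem_univ none)

theorem main_icc_inf [Nonempty ι] (gen : ∀ g : G, ∃ l, pr s l = g)
    (icc : ∀ g : G, g ≠ 1 → (Set.range fun x : G => x * g * x⁻¹).Infinite) (σ : ι → ι)
    (hσ : Function.Involutive σ) (hs : ∀ i, s (σ i) = (s i)⁻¹)
    {r : ℝ} (hr0 : 0 ≤ r) (hr1 : r < 1) (hr : ∀ f : L G, ‖PR s f‖ ≤ r * ‖f‖)
    (hd : 0 < dm (HD s)) (a : G) (ha : ∀ n : ℕ, 0 < n → a ^ n ≠ 1) : TarskiLE G 5 := by
  classical
  have hZ := HD_good s gen
  obtain ⟨v, hv, hD, hva⟩ := exists_RepJ gen hZ hd a ha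
  obtain ⟨g, c0, hc0, hg, hn, hoff⟩ :=
    exists_two gen icc σ hσ hs hZ hv hD hr0 hr1 hr (θ := 1 / 16) (by norm_num)
  -- the potentials
  set h : Fin 2 → L G := fun i => sl none (v (g i)) with hh
  set f : Fin 2 → G → ℝ := fun i z => T s z (J0 (v (g i))) 1 + h i z with hfdef
  have hinc : ∀ i (b x : G), f i (x * b) - f i x =
      T s b (J0 (v (g i))) x + (h i (x * b) - h i x) := by
    intro i b x
    rw [hfdef]
    dsimp only
    rw [← pot gen hZ (hv.mem (g i)) b x]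
    ring
  have hfa : ∀ i x, f i (x * a) = f i x := by
    intro i x
    have h1 := congrArg (fun F : L G => (F x : ℝ)) (hva (g i))
    have h2 : T s a (J0 (v (g i))) x + h i (x * a) - h i x = 0 := h1
    have h3 := hinc i a x
    linarith
  have hhn : ∀ i, ‖h i‖ ^ 2 ≤ (c0 / 16) ^ 2 := by
    intro i
    refine (sl_none_norm (v (g i))).trans (pow_le_pow_left₀ (norm_nonneg _) ?_ 2)
    have := hn i
    linarith
  have hev : ∀ i x, |h i x| ≤ c0 / 16 := by
    intro i x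
    refine abs_le_of_sq_le_sq ?_ (by positivity)
    exact le_trans (le_hasSum (L_hasSum (h i)) x fun _ _ => sq_nonneg _) (hhn i)
  have hdiag : ∀ i, c0 / 2 ≤ f i (g i) - f i 1 := by
    intro i
    have h1 := hinc i (g i) 1
    rw [one_mul] at h1
    have h2 : T s (g i) (J0 (v (g i))) 1 = ‖v (g i)‖ ^ 2 := by
      rw [hv.rep (g i) (g i) 1, lam_one, real_inner_self_eq_norm_sq]
    have h3 := abs_le.1 (hev i (g i))
    have h4 := abs_le.1 (hev i 1)
    have h5 := hg i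
    rw [h1, h2]
    linarith
  have hcn : ∀ i (b : G), CN (fun z => (h i (z * b) : ℝ) ^ 2) ((c0 / 16) ^ 2) := by
    intro i b
    have h1 := CN_translate (CN_l1 (fun z => sq_nonneg (h i z : ℝ)) (L_hasSum (h i))) 1 b
    refine CN_mono h1 (fun z => ?_) (hhn i)
    rw [one_mul]
  have hofft : ∀ A : Fin 2 → Finset G, ∑ i, ∑ j, ∑ x ∈ A i, ∑ y ∈ A j,
      (if i = j ∧ x = y then 0 else (f i (x⁻¹ * y * g j) - f i (x⁻¹ * y)) ^ 2) ≤
        (c0 / 2) ^ 2 * ∑ i, ((A i).card : ℝ) := by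
    intro A
    set N : ℝ := ∑ i, ((A i).card : ℝ) with hN
    have hN0 : 0 ≤ N := sum_nonneg fun i _ => Nat.cast_nonneg _
    have h1 := hoff A
    have hle : ∀ i, ((A i).card : ℝ) ≤ N := fun i =>
      single_le_sum (f := fun i => ((A i).card : ℝ)) (fun l _ => Nat.cast_nonneg _) (mem_univ i)
    have hsq : ∀ i j, √(((A i).card : ℝ) * ((A j).card : ℝ)) ≤ N := by
      intro i j
      rw [Real.sqrt_le_left hN0, sq]
      exact mul_le_mul (hle i) (hle j) (Nat.cast_nonneg _) hN0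
    have hb : ∀ i j (b : G), ∑ x ∈ A i, ∑ y ∈ A j, (h i (x⁻¹ * y * b) : ℝ) ^ 2 ≤
        (c0 / 16) ^ 2 * N := by
      intro i j b
      refine ((hcn i b).2 (A i) (A j)).trans ?_
      exact mul_le_mul_of_nonneg_left (hsq i j) (sq_nonneg _)
    have h2 : ∀ i j, ∑ x ∈ A i, ∑ y ∈ A j,
        (if i = j ∧ x = y then 0 else (f i (x⁻¹ * y * g j) - f i (x⁻¹ * y)) ^ 2) ≤
        2 * ∑ x ∈ A i, ∑ y ∈ A j,
          (if i = j ∧ x = y then 0 else (T s (g j) (J0 (v (g i))) (x⁻¹ * y)) ^ 2) +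
        (4 * ((c0 / 16) ^ 2 * N) + 4 * ((c0 / 16) ^ 2 * N)) := by
      intro i j
      have h3 : ∑ x ∈ A i, ∑ y ∈ A j,
          (if i = j ∧ x = y then 0 else (f i (x⁻¹ * y * g j) - f i (x⁻¹ * y)) ^ 2) ≤
          ∑ x ∈ A i, ∑ y ∈ A j,
          (2 * (if i = j ∧ x = y then 0 else (T s (g j) (J0 (v (g i))) (x⁻¹ * y)) ^ 2) +
          (4 * (h i (x⁻¹ * y * g j) : ℝ) ^ 2 + 4 * (h i (x⁻¹ * y * 1) : ℝ) ^ 2)) := by
        refine sum_le_sum fun x _ => sum_le_sum fun y _ => ?_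
        split_ifs with hc
        · positivity
        · rw [hinc i (g j) (x⁻¹ * y), mul_one]
          set t : ℝ := T s (g j) (J0 (v (g i))) (x⁻¹ * y)
          set p : ℝ := h i (x⁻¹ * y * g j)
          set q : ℝ := h i (x⁻¹ * y)
          nlinarith [sq_nonneg (t - (p - q)), sq_nonneg (p + q)]
      refine h3.trans ?_
      simp only [sum_add_distrib, ← mul_sum]
      have h4 := hb i j (g j)
      have h5 := hb i j 1
      linarith
    calc ∑ i, ∑ j, ∑ x ∈ A i, ∑ y ∈ A j,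
        (if i = j ∧ x = y then 0 else (f i (x⁻¹ * y * g j) - f i (x⁻¹ * y)) ^ 2)
        ≤ ∑ i, ∑ j, (2 * ∑ x ∈ A i, ∑ y ∈ A j,
          (if i = j ∧ x = y then 0 else (T s (g j) (J0 (v (g i))) (x⁻¹ * y)) ^ 2) +
          (4 * ((c0 / 16) ^ 2 * N) + 4 * ((c0 / 16) ^ 2 * N))) :=
          sum_le_sum fun i _ => sum_le_sum fun j _ => h2 i j
      _ = 2 * ∑ i, ∑ j, ∑ x ∈ A i, ∑ y ∈ A j,
          (if i = j ∧ x = y then 0 else (T s (g j) (J0 (v (g i))) (x⁻¹ * y)) ^ 2) +
          4 * (4 * ((c0 / 16) ^ 2 * N) + 4 * ((c0 / 16) ^ 2 * N)) := by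
          simp only [sum_add_distrib, ← mul_sum, sum_const, card_univ, Fintype.card_fin,
            nsmul_eq_mul]
          norm_num
          ring
      _ ≤ 2 * (1 / 16 * c0 ^ 2 * N) + 4 * (4 * ((c0 / 16) ^ 2 * N) + 4 * ((c0 / 16) ^ 2 * N)) := by
          linarith
      _ = (c0 / 2) ^ 2 * N := by ring
  -- Hall's condition
  refine tarski_of_ineq (m := 3) (n := 2) ![1, g 0, g 1] ![1, a] 0 rfl ?_
  intro X Y V hX hY
  have h5 := gram_card_inf a ha g f hfa (half_pos hc0) hdiag ![X, X] Y (hofft ![X, X])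
  have h6 : (((univ : Finset (Fin 2)).biUnion fun i => (![X, X] : Fin 2 → Finset G) i ∪
      ((![X, X] : Fin 2 → Finset G) i).image (fun x => x * g i)) ∪
        (Y ∪ Y.image (fun y => y * a))) ⊆ V := by
    intro x hx
    rw [mem_union] at hx
    rcases hx with hx | hx
    · rw [mem_biUnion] at hx
      obtain ⟨i, -, hx⟩ := hx
      rw [mem_union, mem_image] at hx
      fin_cases i
      · rcases hx with hx | ⟨y, hy, rfl⟩
        · simpa using hX x hx 0
        · exact hX y hy 1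
      · rcases hx with hx | ⟨y, hy, rfl⟩
        · simpa using hX x hx 0
        · exact hX y hy 2
    · rw [mem_union, mem_image] at hx
      rcases hx with hx | ⟨y, hy, rfl⟩
      · simpa using hY x hx 0
      · exact hY y hy 1
  have h7 : ((((univ : Finset (Fin 2)).biUnion fun i => (![X, X] : Fin 2 → Finset G) i ∪
      ((![X, X] : Fin 2 → Finset G) i).image (fun x => x * g i)) ∪
        (Y ∪ Y.image (fun y => y * a))).card : ℝ) ≤ V.card := by
    exact_mod_cast card_le_card h6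
  have h8 : ∑ i, (((![X, X] : Fin 2 → Finset G) i).card : ℝ) = 2 * (X.card : ℝ) := by
    rw [Fin.sum_univ_two]
    change (X.card : ℝ) + (X.card : ℝ) = _
    ring
  rw [h8] at h5
  have h9 : (X.card : ℝ) + Y.card ≤ V.card := by linarith
  exact_mod_cast h9

end Pool.Agent.Lib.MP_354e85_al.L2C
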