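import Pool.Agent.Lib.MP_354e85_al.L2C.JBlkM
import Pool.Agent.Lib.MP_354e85_al.L2C.Ek

/-! Choice of two elements, for `RepJ`. -/

set_option autoImplicit false

namespace Pool.Agent.Lib.MP_354e85_al.L2C

open Finset Filter Topology L2B
open scoped InnerProductSpace

variable {G : Type} [Group G] {ι : Type} [Fintype ι] {κ : Type} {s : ι → G}
  {Z : Submodule ℝ (L (ι × G))} {J : L (κ × G) →L[ℝ] L (ι × G)} {v : G → L (κ × G)}

private theorem cJ_one (hv : RepJ s Z J v) (g : G) : cJ s J v g 1 = ‖v g‖ ^ 2 := by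
  unfold cJ
  rw [hv.rep g g 1, lam_one, real_inner_self_eq_norm_sq]

private theorem sqrt_le_sum {k : ℕ} (a : Fin k → ℝ) (ha : ∀ i, 0 ≤ a i) (i j : Fin k) :
    √(a i * a j) ≤ ∑ l, a l := by
  have h1 : ∀ i, a i ≤ ∑ l, a l := fun i => single_le_sum (fun l _ => ha l) (mem_univ i)
  have h2 : 0 ≤ ∑ l, a l := sum_nonneg fun l _ => ha l
  rw [Real.sqrt_le_left h2, sq]
  exact mul_le_mul (h1 i) (h1 j) (ha j) h2

private theorem Ek_add (n k : ℕ) (F F' : (Fin k → List ι) → ℝ) :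
    Ek n k (fun g => F g + F' g) = Ek n k F + Ek n k F' := by
  induction k with
  | zero => rfl
  | succ k ih =>
    rw [Ek_succ, Ek_succ, Ek_succ, ← EL_add]
    congr 1
    funext g
    exact ih _ _

/-- the good words have positive density -/
private theorem good_words [Nonempty ι] (hv : RepJ s Z J v) (hD : 0 < dJ s v) {n : ℕ} (hn : 0 < n)
    {E0 : ℝ} (hE0 : 0 < E0)
    (hcc : EL n (fun l => ‖cJ s J v (pr s l)‖ ^ 2) ≤ E0 ^ 2 * n ^ 2) (χ : List ι → ℝ)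
    (hχ : ∀ l, χ l = if n * (dJ s v / Fintype.card ι) / 2 ≤ ‖v (pr s l)‖ ^ 2 then 1 else 0) :
    (dJ s v / (2 * Fintype.card ι * E0)) ^ 2 ≤ EL n χ := by
  have hq : (0 : ℝ) < Fintype.card ι := by exact_mod_cast Fintype.card_pos
  have hn' : (0 : ℝ) < n := by exact_mod_cast hn
  set c0 : ℝ := n * (dJ s v / Fintype.card ι) / 2 with hc0
  have hc0' : 0 < c0 := by positivity
  have h1 : EL n (fun l : List ι => ‖v (pr s l)‖ ^ 2) = 2 * c0 := by
    rw [EL_W s n (fun g => ‖v g‖ ^ 2), hv.mom1 n, hc0]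
    ring
  have h2 : EL n (fun l : List ι => (‖v (pr s l)‖ ^ 2) ^ 2) ≤ E0 ^ 2 * n ^ 2 := by
    refine le_trans (EL_mono n fun l _ => ?_) hcc
    rw [← cJ_one hv]
    exact le_hasSum (L_hasSum (cJ s J v (pr s l))) 1 fun _ _ => sq_nonneg _
  have h3 : c0 ≤ EL n (fun l : List ι => ‖v (pr s l)‖ ^ 2 * χ l) := by
    have h4 : EL n (fun l : List ι => ‖v (pr s l)‖ ^ 2) ≤
        EL n (fun l : List ι => c0 + ‖v (pr s l)‖ ^ 2 * χ l) := by
      refine EL_mono n fun l _ => ?_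
      rw [hχ]
      split_ifs with h
      · linarith
      · push Not at h
        linarith
    rw [EL_add n (fun _ => c0), EL_const n c0, h1] at h4
    linarith
  have ht : 0 < c0 / (E0 ^ 2 * n ^ 2) := by positivity
  have h5 := EL_cs n (fun l : List ι => ‖v (pr s l)‖ ^ 2) χ ht
  have h6 : EL n (fun l : List ι => χ l ^ 2) = EL n χ := by
    congr 1
    funext l
    rw [hχ]
    split_ifs <;> norm_num
  rw [h6] at h5
  have h7 : c0 / (E0 ^ 2 * n ^ 2) * EL n (fun l : List ι => (‖v (pr s l)‖ ^ 2) ^ 2) ≤ c0 := by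
    calc c0 / (E0 ^ 2 * n ^ 2) * EL n (fun l : List ι => (‖v (pr s l)‖ ^ 2) ^ 2)
        ≤ c0 / (E0 ^ 2 * n ^ 2) * (E0 ^ 2 * n ^ 2) := mul_le_mul_of_nonneg_left h2 ht.le
      _ = c0 := by field_simp
  have h8 : c0 ≤ (c0 / (E0 ^ 2 * n ^ 2))⁻¹ * EL n χ := by linarith
  rw [inv_div, div_mul_eq_mul_div, le_div_iff₀ hc0'] at h8
  have h9 : (dJ s v / (2 * Fintype.card ι * E0)) ^ 2 * (E0 ^ 2 * n ^ 2) = c0 * c0 := by
    rw [hc0]
    field_simp
  have h10 : (dJ s v / (2 * Fintype.card ι * E0)) ^ 2 * (E0 ^ 2 * n ^ 2) ≤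
      EL n χ * (E0 ^ 2 * n ^ 2) := by
    rw [h9]
    linarith
  exact le_of_mul_le_mul_right h10 (by positivity)

theorem exists_two [Nonempty ι] [DecidableEq ι] [DecidableEq G]
    (gen : ∀ g : G, ∃ l, pr s l = g)
    (icc : ∀ g : G, g ≠ 1 → (Set.range fun x : G => x * g * x⁻¹).Infinite) (σ : ι → ι)
    (hσ : Function.Involutive σ) (hs : ∀ i, s (σ i) = (s i)⁻¹) (hZ : Good s Z)
    (hv : RepJ s Z J v) (hD : 0 < dJ s v) {r : ℝ} (hr0 : 0 ≤ r) (hr1 : r < 1)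
    (hr : ∀ f : L G, ‖PR s f‖ ≤ r * ‖f‖) {θ : ℝ} (hθ : 0 < θ) :
    ∃ (g : Fin 2 → G) (c0 : ℝ), 0 < c0 ∧ (∀ i, c0 ≤ ‖v (g i)‖ ^ 2) ∧ (∀ i, ‖v (g i)‖ ≤ θ * c0) ∧
      ∀ A : Fin 2 → Finset G, ∑ i, ∑ j, ∑ x ∈ A i, ∑ y ∈ A j,
        (if i = j ∧ x = y then 0 else (T s (g j) (J (v (g i))) (x⁻¹ * y)) ^ 2) ≤
          θ * c0 ^ 2 * ∑ i, ((A i).card : ℝ) := by
  have hq : (0 : ℝ) < Fintype.card ι := by exact_mod_cast Fintype.card_pos
  set q : ℝ := (Fintype.card ι : ℝ) with hqdef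
  set D : ℝ := dJ s v with hDdef
  obtain ⟨C, hC0, hC⟩ := c_sq_EL gen σ hσ hs hZ hv
  set E0 : ℝ := √C with hE0def
  have hE0 : 0 < E0 := Real.sqrt_pos.2 hC0
  have hE0C : E0 ^ 2 = C := Real.sq_sqrt hC0.le
  have hC' : ∀ n : ℕ, EL n (fun l => ‖cJ s J v (pr s l)‖ ^ 2) ≤ E0 ^ 2 * n ^ 2 := by
    rw [hE0C]
    exact hC
  set p0 : ℝ := (D / (2 * q * E0)) ^ 2 with hp0def
  have hp0 : 0 < p0 := by positivity
  set κ' : ℝ := θ * p0 ^ 2 * (D / (2 * q)) ^ 2 with hκdef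
  have hκ : 0 < κ' := by positivity
  -- the parameters
  obtain ⟨K, hK⟩ := exists_nat_gt (32 * E0 ^ 2 / κ')
  have hK0 : (0 : ℝ) < K := lt_of_le_of_lt (by positivity) hK
  have hKn : 0 < K := by exact_mod_cast hK0
  have hK1 : (1 : ℝ) ≤ K := by exact_mod_cast hKn
  set δ : ℝ := κ' / (32 * E0) with hδdef
  have hδ : 0 < δ := by positivity
  set ε : ℝ := κ' / (4 * (D / q) * (32 * 2 ^ K + 2)) with hεdef
  have hε : 0 < ε := by positivity
  obtain ⟨R, n0, hcf⟩ := cf_mean s hr0 hr1 hr hε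
  obtain ⟨n2, hn2⟩ := eventually_atTop.1 (off_meanJ gen icc σ hσ hs hZ hv hδ)
  obtain ⟨n3, hn3⟩ := exists_nat_gt (8 * (D / q) / (θ * κ'))
  set m : ℕ := n0 + n2 + n3 + 1 with hmdef
  have hm0 : (0 : ℝ) < m := by
    rw [hmdef]
    positivity
  have hmn : 0 < m := by omega
  set n : ℕ := K * m with hndef
  have hnm : m ≤ n := Nat.le_mul_of_pos_left m hKn
  have hn0 : 0 < n := lt_of_lt_of_le hmn hnm
  have hnR : (n : ℝ) = K * m := by
    rw [hndef]
    push_cast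
    ring
  -- means of the parts
  have hNN : EL n (fun l => ‖NJ s J v m K l‖ ^ 2) ≤
      K * (E0 ^ 2 * m ^ 2) + K ^ 2 * (√(E0 ^ 2 * m ^ 2) * (δ * m)) := by
    refine mean_NJ m (by positivity) (by positivity) ?_ (hn2 m (by omega)) K
    refine le_trans (EL_mono m fun l _ => ?_) (hC' m)
    exact pow_le_pow_left₀ (norm_nonneg _) (off_norm _) 2
  have hsq : √(E0 ^ 2 * (m : ℝ) ^ 2) = E0 * m := by
    rw [← mul_pow]
    exact Real.sqrt_sq (by positivity)
  rw [hsq] at hNN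
  have hff : EL n (fJ s J v R m K) ≤ 8 * 2 ^ K * K * (ε * m ^ 2 * (D / q)) :=
    mean_fJ hv R m hε.le (fun ω => hcf m (by omega) ω) K
  have hX : EL n (fun a => EL n (fun b => cf s R (J (v (pr s a))) b)) ≤ ε * n * (n * (D / q)) := by
    have h1 : EL n (fun a : List ι => EL n (fun b => cf s R (J (v (pr s a))) b)) ≤
        EL n (fun a : List ι => (ε * n) • ‖v (pr s a)‖ ^ 2) := by
      refine EL_mono n fun a _ => ?_
      rw [smul_eq_mul]
      refine (hcf n (by omega) _).trans (mul_le_mul_of_nonneg_left ?_ (by positivity))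
      exact pow_le_pow_left₀ (norm_nonneg _) (hv.norm _) 2
    rw [EL_smul, EL_W s n (fun g => ‖v g‖ ^ 2), hv.mom1 n, smul_eq_mul] at h1
    exact h1
  -- the total function
  set S : List ι → ℝ := fun l => 2 * ‖NJ s J v m K l‖ ^ 2 + 2 * fJ s J v R m K l with hS
  set X : List ι → List ι → ℝ := fun a b => cf s R (J (v (pr s a))) b with hXdef
  set Y : List ι → ℝ := fun l => θ⁻¹ * ‖v (pr s l)‖ ^ 2 with hYdef
  set Q : (Fin 2 → List ι) → ℝ := fun w => ∑ i, ∑ j, if i = j then S (w i) else X (w i) (w j)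
    with hQdef
  set Q' : (Fin 2 → List ι) → ℝ := fun w => ∑ i, Y (w i) with hQ'def
  have hS0 : ∀ l, 0 ≤ S l := fun l => by
    have := fJ_nonneg s J v R m K l
    rw [hS]
    positivity
  have hX0 : ∀ a b, 0 ≤ X a b := fun a b => cf_nonneg s R _ _
  have hY0 : ∀ l, 0 ≤ Y l := fun l => by
    rw [hYdef]
    positivity
  have hQ0 : ∀ w, 0 ≤ Q w := fun w => by
    refine sum_nonneg fun i _ => sum_nonneg fun j _ => ?_
    split_ifs
    · exact hS0 _
    · exact hX0 _ _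
  have hQ'0 : ∀ w, 0 ≤ Q' w := fun w => sum_nonneg fun i _ => hY0 _
  have hES : EL n S ≤ 2 * (K * (E0 ^ 2 * m ^ 2) + K ^ 2 * (E0 * m * (δ * m))) +
      2 * (8 * 2 ^ K * K * (ε * m ^ 2 * (D / q))) := by
    have h1 : EL n S = 2 * EL n (fun l => ‖NJ s J v m K l‖ ^ 2) + 2 * EL n (fJ s J v R m K) := by
      rw [hS, EL_add n (fun l => 2 * ‖NJ s J v m K l‖ ^ 2)]
      have h2 := EL_smul n (2 : ℝ) (fun l : List ι => ‖NJ s J v m K l‖ ^ 2)
      have h3 := EL_smul n (2 : ℝ) (fJ s J v R m K)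
      simp only [smul_eq_mul] at h2 h3
      rw [h2, h3]
    rw [h1]
    linarith
  have hEY : EL n Y = θ⁻¹ * (n * (D / q)) := by
    have h2 := EL_smul n (θ⁻¹) (fun l : List ι => ‖v (pr s l)‖ ^ 2)
    simp only [smul_eq_mul] at h2
    rw [hYdef, h2, EL_W s n (fun g => ‖v g‖ ^ 2), hv.mom1 n]
  have hEQ : Ek n 2 Q = 2 * EL n S + 2 * EL n (fun a => EL n (fun b => X a b)) := by
    have h1 : Ek n 2 Q = ∑ i : Fin 2, ∑ j : Fin 2,
        if i = j then EL n S else EL n (fun a => EL n (fun b => X a b)) := by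
      rw [hQdef, Ek_sum]
      refine sum_congr rfl fun i _ => ?_
      rw [Ek_sum]
      refine sum_congr rfl fun j _ => ?_
      by_cases hij : i = j
      · simp only [hij, if_true]
        exact Ek_one n 2 j S
      · simp only [hij, if_false]
        exact Ek_two n 2 i j hij X
    rw [h1]
    simp only [Fin.sum_univ_two]
    norm_num [Fin.ext_iff]
    ring
  have hEQ' : Ek n 2 Q' = 2 * (θ⁻¹ * (n * (D / q))) := by
    rw [hQ'def, Ek_sum]
    have h1 : ∀ i : Fin 2, Ek n 2 (fun w => Y (w i)) = θ⁻¹ * (n * (D / q)) := fun i => by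
      rw [Ek_one n 2 i Y, hEY]
    rw [sum_congr rfl fun i _ => h1 i, sum_const, card_univ, Fintype.card_fin, nsmul_eq_mul]
    norm_num
  have hEadd : Ek n 2 (fun w => Q w + Q' w) = Ek n 2 Q + Ek n 2 Q' := Ek_add n 2 Q Q'
  have hEQ2 : Ek n 2 (fun w => Q w + Q' w) < κ' * K ^ 2 * m ^ 2 := by
    rw [hEadd, hEQ, hEQ']
    have h1 : EL n (fun a => EL n (fun b => X a b)) ≤ ε * n * (n * (D / q)) := hX
    have hm3 : 8 * (D / q) / (θ * κ') < m := by
      refine hn3.trans_le ?_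
      exact_mod_cast (by omega : n3 ≤ m)
    have h2 : 2 * EL n S + 2 * EL n (fun a => EL n (fun b => X a b)) ≤
        (4 * E0 ^ 2 / K + 4 * E0 * δ + (32 * 2 ^ K / K + 2) * (ε * (D / q))) *
          (K ^ 2 * m ^ 2) := by
      rw [hnR] at h1
      have h3 : (4 * E0 ^ 2 / K + 4 * E0 * δ + (32 * 2 ^ K / K + 2) * (ε * (D / q))) *
          (K ^ 2 * (m : ℝ) ^ 2) =
          2 * (2 * (K * (E0 ^ 2 * m ^ 2) + K ^ 2 * (E0 * m * (δ * m))) +
            2 * (8 * 2 ^ K * K * (ε * m ^ 2 * (D / q)))) + 2 * (ε * (K * m) * (K * m * (D / q))) := by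
        field_simp
        ring
      rw [h3]
      linarith
    have h4 : 4 * E0 ^ 2 / K < κ' / 4 := by
      rw [div_lt_iff₀ hκ] at hK
      rw [div_lt_div_iff₀ hK0 (by norm_num)]
      nlinarith
    have h5 : 4 * E0 * δ ≤ κ' / 4 := by
      have h6 : 4 * E0 * δ = κ' / 8 := by
        rw [hδdef]
        field_simp
        ring
      rw [h6]
      linarith
    have h6 : (32 * 2 ^ K / K + 2) * (ε * (D / q)) ≤ κ' / 4 := by
      have h7 : (32 * 2 ^ K / K + 2 : ℝ) ≤ 32 * 2 ^ K + 2 := by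
        have h8 : (32 * 2 ^ K / K : ℝ) ≤ 32 * 2 ^ K := div_le_self (by positivity) hK1
        linarith
      have h9 : (32 * 2 ^ K + 2 : ℝ) * (ε * (D / q)) = κ' / 4 := by
        rw [hεdef]
        field_simp
      calc (32 * 2 ^ K / K + 2 : ℝ) * (ε * (D / q)) ≤ (32 * 2 ^ K + 2) * (ε * (D / q)) :=
            mul_le_mul_of_nonneg_right h7 (by positivity)
        _ = κ' / 4 := h9
    have h7 : 2 * (θ⁻¹ * (n * (D / q))) ≤ κ' / 4 * (K ^ 2 * m ^ 2) := by
      rw [div_lt_iff₀ (by positivity)] at hm3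
      have h8 : 2 * (θ⁻¹ * (n * (D / q))) = θ⁻¹ * (2 * (D / q)) * n := by ring
      have h9 : κ' / 4 * (K ^ 2 * (m : ℝ) ^ 2) = θ⁻¹ * (θ * κ' / 4 * n) * n := by
        rw [hnR]
        field_simp
      rw [h8, h9]
      refine mul_le_mul_of_nonneg_right (mul_le_mul_of_nonneg_left ?_ (by positivity))
        (Nat.cast_nonneg _)
      have h10 : (m : ℝ) ≤ n := by exact_mod_cast hnm
      have h11 : 0 ≤ θ * κ' := by positivity
      nlinarith
    have h10 : 4 * E0 ^ 2 / K + 4 * E0 * δ + (32 * 2 ^ K / K + 2) * (ε * (D / q)) < 3 / 4 * κ' := by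
      linarith
    have h11 : (4 * E0 ^ 2 / K + 4 * E0 * δ + (32 * 2 ^ K / K + 2) * (ε * (D / q))) *
          (K ^ 2 * (m : ℝ) ^ 2) < 3 / 4 * κ' * (K ^ 2 * m ^ 2) :=
            mul_lt_mul_of_pos_right h10 (by positivity)
    calc 2 * EL n S + 2 * EL n (fun a => EL n (fun b => X a b)) + 2 * (θ⁻¹ * (n * (D / q)))
        < 3 / 4 * κ' * (K ^ 2 * m ^ 2) + κ' / 4 * (K ^ 2 * m ^ 2) := by linarith
      _ = κ' * K ^ 2 * m ^ 2 := by ring
  -- the good words
  set c0 : ℝ := n * (D / q) / 2 with hc0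
  have hc0' : 0 < c0 := by
    have : (0 : ℝ) < n := by exact_mod_cast hn0
    positivity
  set χ : List ι → ℝ := fun l => if c0 ≤ ‖v (pr s l)‖ ^ 2 then 1 else 0 with hχ
  have hχ0 : ∀ l, 0 ≤ χ l := fun l => by
    rw [hχ]
    dsimp only
    split_ifs <;> norm_num
  have hχ1 : ∀ l, χ l ≤ 1 := fun l => by
    rw [hχ]
    dsimp only
    split_ifs <;> norm_num
  have hEχ : p0 ≤ EL n χ := by
    refine good_words hv hD hn0 hE0 (hC' n) χ fun l => ?_
    rfl
  have hlt : Ek n 2 (fun w => (∏ i, χ (w i)) * (Q w + Q' w)) <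
      Ek n 2 (fun w => (θ * c0 ^ 2) * ∏ i, χ (w i)) := by
    have h1 : Ek n 2 (fun w => (∏ i, χ (w i)) * (Q w + Q' w)) ≤ Ek n 2 (fun w => Q w + Q' w) := by
      refine Ek_mono n 2 fun w _ => ?_
      have h2 : ∏ i, χ (w i) ≤ 1 := prod_le_one (fun i _ => hχ0 _) fun i _ => hχ1 _
      calc (∏ i, χ (w i)) * (Q w + Q' w) ≤ 1 * (Q w + Q' w) :=
            mul_le_mul_of_nonneg_right h2 (add_nonneg (hQ0 w) (hQ'0 w))
        _ = Q w + Q' w := one_mul _
    refine lt_of_le_of_lt h1 (lt_of_lt_of_le hEQ2 ?_)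
    rw [Ek_mul, Ek_prod n 2 χ]
    have h3 : κ' * K ^ 2 * m ^ 2 = θ * c0 ^ 2 * p0 ^ 2 := by
      rw [hκdef, hc0, hnR]
      field_simp
    rw [h3]
    exact mul_le_mul_of_nonneg_left (pow_le_pow_left₀ hp0.le hEχ 2) (by positivity)
  obtain ⟨w, hwl, hw⟩ := Ek_exists n 2 hlt
  have hgood : ∀ i, c0 ≤ ‖v (pr s (w i))‖ ^ 2 := by
    intro i
    by_contra hcon
    have h1 : χ (w i) = 0 := by
      rw [hχ]
      dsimp only
      rw [if_neg hcon]
    have h2 : ∏ j, χ (w j) = 0 := prod_eq_zero (mem_univ i) h1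
    rw [h2] at hw
    simp at hw
  have hprod : ∏ i, χ (w i) = 1 := by
    refine prod_eq_one fun i _ => ?_
    rw [hχ]
    dsimp only
    rw [if_pos (hgood i)]
  rw [hprod, one_mul, mul_one] at hw
  have hQw : Q w ≤ θ * c0 ^ 2 := by
    have := hQ'0 w
    linarith
  have hYw : ∀ i, Y (w i) ≤ θ * c0 ^ 2 := by
    intro i
    have h1 : Y (w i) ≤ Q' w := single_le_sum (f := fun i => Y (w i)) (fun i _ => hY0 _) (mem_univ i)
    have := hQ0 w
    linarith
  refine ⟨fun i => pr s (w i), c0, hc0', hgood, fun i => ?_, fun A => ?_⟩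
  · have h1 := hYw i
    rw [hYdef] at h1
    dsimp only at h1
    rw [inv_mul_le_iff₀ hθ] at h1
    have h2 : ‖v (pr s (w i))‖ ^ 2 ≤ (θ * c0) ^ 2 := by
      calc ‖v (pr s (w i))‖ ^ 2 ≤ θ * (θ * c0 ^ 2) := h1
        _ = (θ * c0) ^ 2 := by ring
    exact le_of_sq_le_sq h2 (by positivity)
  · set N : ℝ := ∑ i, ((A i).card : ℝ) with hN
    have hN0 : 0 ≤ N := sum_nonneg fun i _ => Nat.cast_nonneg _
    have h1 : ∀ i j, ∑ x ∈ A i, ∑ y ∈ A j,
        (if i = j ∧ x = y then 0 else (T s (pr s (w j)) (J (v (pr s (w i)))) (x⁻¹ * y)) ^ 2) ≤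
          (if i = j then S (w i) else X (w i) (w j)) * N := by
      intro i j
      have hs1 := sqrt_le_sum (fun l => ((A l).card : ℝ)) (fun l => Nat.cast_nonneg _) i j
      by_cases hij : i = j
      · subst hij
        simp only [true_and, if_true]
        refine le_trans (self_boundJ gen hZ hv R m K (w i) (hwl i) (A i) (A i)) ?_
        exact mul_le_mul_of_nonneg_left hs1 (hS0 _)
      · simp only [hij, false_and, if_false]
        have h2 : T s (pr s (w j)) (J (v (pr s (w i)))) = Tl s (w j) (J (v (pr s (w i)))) :=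
          T_word gen hZ (w j) (hv.mem _)
        rw [h2]
        refine le_trans (pair_conv s R (J (v (pr s (w i)))) (w j) (A i) (A j)) ?_
        exact mul_le_mul_of_nonneg_left hs1 (hX0 _ _)
    calc ∑ i, ∑ j, ∑ x ∈ A i, ∑ y ∈ A j,
        (if i = j ∧ x = y then 0 else (T s (pr s (w j)) (J (v (pr s (w i)))) (x⁻¹ * y)) ^ 2)
        ≤ ∑ i, ∑ j, (if i = j then S (w i) else X (w i) (w j)) * N :=
          sum_le_sum fun i _ => sum_le_sum fun j _ => h1 i j
      _ = Q w * N := by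
          rw [hQdef]
          simp only [sum_mul]
      _ ≤ θ * c0 ^ 2 * N := mul_le_mul_of_nonneg_right hQw hN0

end Pool.Agent.Lib.MP_354e85_al.L2C
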