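import Pool.Agent.Lib.MP_354e85_al.L2C.Four
import Pool.Agent.Lib.MP_354e85_al.L2C.Gram
import Pool.Agent.Lib.MP_354e85_al.L2C.Gap
import Pool.Agent.Lib.MP_354e85_al.L2B.Sel

/-! ICC groups with a nonzero harmonic Dirichlet function have Tarski number at most 6. -/

set_option autoImplicit false

namespace Pool.Agent.Lib.MP_354e85_al.L2C

open Finset L2B
open scoped InnerProductSpace

variable {G : Type} [Group G] {ι : Type} [Fintype ι] {s : ι → G}

/-- The potential of a gradient. -/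
private theorem pot (gen : ∀ g : G, ∃ l, pr s l = g) {Z : Submodule ℝ (L (ι × G))}
    (hZ : Good s Z) {ω : L (ι × G)} (hω : ω ∈ Z) (g x : G) :
    T s g ω x = T s (x * g) ω 1 - T s x ω 1 := by
  rw [T_mul gen hZ x g hω]
  change T s g ω x = (T s x ω 1 + T s g ω (1 * x)) - T s x ω 1
  rw [one_mul]
  ring

theorem main_icc_pos [Nonempty ι] (gen : ∀ g : G, ∃ l, pr s l = g)
    (icc : ∀ g : G, g ≠ 1 → (Set.range fun x : G => x * g * x⁻¹).Infinite) (σ : ι → ι)
    (hσ : Function.Involutive σ) (hs : ∀ i, s (σ i) = (s i)⁻¹)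
    (hd : 0 < dm (HD s)) : TarskiLE G 6 := by
  classical
  rcases le_or_gt 4 (dm (HD s)) with h4 | h4
  · exact main_icc gen icc σ hσ hs h4
  have hZ := HD_good s gen
  by_cases hinf : Infinite G
  swap
  · -- a finite ICC group is trivial: all increments are zero
    exfalso
    rw [not_infinite_iff_finite] at hinf
    have h1 : ∀ g : G, g = 1 := by
      intro g
      by_contra hg
      exact icc g hg (Set.toFinite _)
    obtain ⟨u, hu⟩ := exists_rep gen hZ
    have h2 := hu.dm_eq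
    have h3 : ∀ i, u (s i) = 0 := by
      intro i
      rw [h1 (s i)]
      exact u_one hu
    rw [h2] at hd
    simp [h3] at hd
  obtain ⟨k, hk⟩ := exists_nat_gt (222 / dm (HD s))
  have hk' : 222 < k * dm (HD s) := by
    rwa [div_lt_iff₀ hd] at hk
  obtain ⟨K, -, -, hK⟩ := exists_expanding gen icc σ hσ hs hZ hd le_rfl h4.le k hk'
  obtain ⟨r, hr0, hr1, hr⟩ := gap s gen σ hσ hs K (half_pos hd) hK
  obtain ⟨u, hu⟩ := exists_rep gen hZ
  obtain ⟨g, c0, hc0, hg, hoff⟩ := exists_four gen icc σ hσ hs hZ hu hd hr0 hr1 hr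
  let e : G → (⊤ : Subgroup G) := fun x => ⟨x, Subgroup.mem_top x⟩
  refine tarski_of_hall (⊤ : Subgroup G) ![1, e (g 0), e (g 3)] ![1, e (g 1), e (g 2)] 0 rfl ?_
  intro F₁ F₂
  let V : Finset (⊤ : Subgroup G) :=
    nb ![1, e (g 0), e (g 3)] F₁ ∪ nb ![1, e (g 1), e (g 2)] F₂
  refine ⟨V, fun x => by simp [V], ?_⟩
  let c : (⊤ : Subgroup G) ↪ G := ⟨Subtype.val, Subtype.val_injective⟩
  let A : Finset G := F₁.map c
  let B : Finset G := F₂.map c
  have h5 : ∑ i, (((![A, B, B, A] : Fin 4 → Finset G) i).card : ℝ) ≤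
      2 * (((univ : Finset (Fin 4)).biUnion
        fun i => (![A, B, B, A] : Fin 4 → Finset G) i ∪
          ((![A, B, B, A] : Fin 4 → Finset G) i).image (fun x => x * g i)).card : ℝ) := by
    refine gram_card g (fun i z => T s z (u (g i)) 1) hc0 ?_ _ ?_
    · intro i
      have h := hg i
      rw [T_one gen hZ (hu.mem _)]
      simpa using h
    · refine le_trans (le_of_eq ?_) (hoff ![A, B, B, A])
      refine sum_congr rfl fun i _ => sum_congr rfl fun j _ => sum_congr rfl fun x _ =>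
        sum_congr rfl fun y _ => ?_
      rw [pot gen hZ (hu.mem (g i)) (g j) (x⁻¹ * y)]
  have h6 : ((univ : Finset (Fin 4)).biUnion
      fun i => (![A, B, B, A] : Fin 4 → Finset G) i ∪
        ((![A, B, B, A] : Fin 4 → Finset G) i).image (fun x => x * g i)) ⊆ V.map c := by
    intro x hx
    rw [mem_biUnion] at hx
    obtain ⟨i, -, hx⟩ := hx
    have hA1 : ∀ y ∈ A, ∀ j, y * (((![1, e (g 0), e (g 3)] : Fin 3 → (⊤ : Subgroup G)) j : _) : G)
        ∈ V.map c := by
      intro y hy j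
      rw [Finset.mem_map] at hy
      obtain ⟨z, hz, rfl⟩ := hy
      rw [Finset.mem_map]
      exact ⟨z * (![1, e (g 0), e (g 3)] : Fin 3 → (⊤ : Subgroup G)) j,
        mem_union_left _ ((mem_nb _ _ _).2 ⟨z, hz, j, rfl⟩), rfl⟩
    have hB1 : ∀ y ∈ B, ∀ j, y * (((![1, e (g 1), e (g 2)] : Fin 3 → (⊤ : Subgroup G)) j : _) : G)
        ∈ V.map c := by
      intro y hy j
      rw [Finset.mem_map] at hy
      obtain ⟨z, hz, rfl⟩ := hy
      rw [Finset.mem_map]
      exact ⟨z * (![1, e (g 1), e (g 2)] : Fin 3 → (⊤ : Subgroup G)) j,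
        mem_union_right _ ((mem_nb _ _ _).2 ⟨z, hz, j, rfl⟩), rfl⟩
    have hA0 : ∀ y ∈ A, y ∈ V.map c := fun y hy => by
      have h := hA1 y hy 0
      simpa using h
    have hB0 : ∀ y ∈ B, y ∈ V.map c := fun y hy => by
      have h := hB1 y hy 0
      simpa using h
    rw [mem_union, mem_image] at hx
    fin_cases i
    · rcases hx with hx | ⟨y, hy, rfl⟩
      · exact hA0 x hx
      · exact hA1 y hy 1
    · rcases hx with hx | ⟨y, hy, rfl⟩
      · exact hB0 x hx
      · exact hB1 y hy 1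
    · rcases hx with hx | ⟨y, hy, rfl⟩
      · exact hB0 x hx
      · exact hB1 y hy 2
    · rcases hx with hx | ⟨y, hy, rfl⟩
      · exact hA0 x hx
      · exact hA1 y hy 2
  have h7 := card_le_card h6
  rw [card_map] at h7
  have h8 : ∑ i, (((![A, B, B, A] : Fin 4 → Finset G) i).card : ℝ) =
      2 * (F₁.card : ℝ) + 2 * (F₂.card : ℝ) := by
    rw [Fin.sum_univ_four]
    change (A.card : ℝ) + (B.card : ℝ) + (B.card : ℝ) + (A.card : ℝ) = _
    simp only [A, B, card_map]
    ring
  rw [h8] at h5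
  have h9 : (F₁.card : ℝ) + F₂.card ≤ V.card := by
    have h10 : ((((univ : Finset (Fin 4)).biUnion
      fun i => (![A, B, B, A] : Fin 4 → Finset G) i ∪
        ((![A, B, B, A] : Fin 4 → Finset G) i).image (fun x => x * g i)).card : ℕ) : ℝ) ≤ V.card := by
      exact_mod_cast h7
    linarith
  exact_mod_cast h9

end Pool.Agent.Lib.MP_354e85_al.L2C
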