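import Pool.Agent.Lib.MP_354e85_al.L2C.CutM
import Pool.Agent.Lib.MP_354e85_al.L2C.CutC

/-! The pair lemma. -/

set_option autoImplicit false

namespace Pool.Agent.Lib.MP_354e85_al.L2C

open Finset L2B
open scoped InnerProductSpace

variable {G : Type} [Group G] {ι : Type} [Fintype ι] {s : ι → G}
  {Z : Submodule ℝ (L (ι × G))}

omit [Group G] [Fintype ι] in
private theorem ab_mem (f : L G) : Memℓp (E := fun _ : G => ℝ) (fun x => |f x|) 2 :=
  L_mem (by simpa only [sq_abs] using (L_hasSum f).summable)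

/-- The absolute value of a square summable function. -/
noncomputable def ab (f : L G) : L G := ⟨fun x => |f x|, ab_mem f⟩

omit [Group G] [Fintype ι] in
@[simp] theorem ab_apply (f : L G) (x : G) : ab f x = |f x| := rfl

omit [Group G] in
theorem ab_norm (f : L G) : ‖ab f‖ = ‖f‖ := by
  have h1 := L_hasSum (ab f)
  have h2 := L_hasSum f
  have e : (fun a => (ab f a) ^ 2) = fun a => (f a) ^ 2 := by
    funext a
    rw [ab_apply, sq_abs]
  rw [e] at h1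
  exact (pow_left_inj₀ (norm_nonneg _) (norm_nonneg _) (by norm_num)).1 (h1.unique h2)

/-- The bound for the convolution norm of the square of the increments of `ω` along the word. -/
noncomputable def cf [DecidableEq ι] (s : ι → G) (R : ℕ) (ω : L (ι × G)) (l : List ι) : ℝ :=
  (2 * R + 1) * mu s l * ‖ω‖ ^ 2 + La s (fun i => ab (sl i ω)) R l

theorem cf_nonneg [DecidableEq ι] (s : ι → G) (R : ℕ) (ω : L (ι × G)) (l : List ι) :
    0 ≤ cf s R ω l := by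
  have h1 := mu_nonneg s l
  have h2 := La_nonneg s (fun i => ab (sl i ω)) (fun i x => abs_nonneg _) R l
  unfold cf
  have h3 : (0 : ℝ) ≤ (2 * R + 1) * mu s l * ‖ω‖ ^ 2 := by positivity
  linarith

private theorem Tl_le (s : ι → G) (ω : L (ι × G)) (l : List ι) (x : G) :
    |Tl s l ω x| ≤ Vl s (fun i => ab (sl i ω)) l x := by
  induction l generalizing x with
  | nil =>
    have h1 : Tl s [] ω x = 0 := rfl
    have h2 : Vl s (fun i => ab (sl i ω)) [] x = 0 := rfl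
    rw [h1, h2, abs_zero]
  | cons j l ih =>
    have h : Vl s (fun i => ab (sl i ω)) (j :: l) x =
        |ω (j, x)| + Vl s (fun i => ab (sl i ω)) l (x * s j) := rfl
    rw [Tl_cons, h]
    exact (abs_add_le _ _).trans (add_le_add le_rfl (ih _))

/-- `|Tl s l ω z| ≤ Vl s (fun i => ab (sl i ω)) l z` (induction), `conv_bound`,
`‖AV s i l‖ ≤ mu s l`, `sum_sl`. -/
theorem pair_conv [DecidableEq ι] (s : ι → G) (R : ℕ) (ω : L (ι × G)) (l : List ι)
    (A B : Finset G) :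
    ∑ x ∈ A, ∑ y ∈ B, (Tl s l ω (x⁻¹ * y)) ^ 2 ≤
      cf s R ω l * √((A.card : ℝ) * (B.card : ℝ)) := by
  have h1 := conv_bound s (fun i => ab (sl i ω)) (fun i x => abs_nonneg _) R l A B
  have h2 : ∑ x ∈ A, ∑ y ∈ B, (Tl s l ω (x⁻¹ * y)) ^ 2 ≤
      ∑ x ∈ A, ∑ y ∈ B, (Vl s (fun i => ab (sl i ω)) l (x⁻¹ * y)) ^ 2 := by
    refine sum_le_sum fun x _ => sum_le_sum fun y _ => ?_
    rw [← sq_abs (Tl s l ω (x⁻¹ * y))]
    exact pow_le_pow_left₀ (abs_nonneg _) (Tl_le s ω l _) 2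
  have h3 : ∑ i, ‖AV s i l‖ * ‖ab (sl i ω)‖ ^ 2 ≤ mu s l * ‖ω‖ ^ 2 := by
    rw [← sum_sl ω, mul_sum]
    refine sum_le_sum fun i _ => ?_
    rw [ab_norm]
    exact mul_le_mul_of_nonneg_right
      (single_le_sum (f := fun i => ‖AV s i l‖) (fun _ _ => norm_nonneg _) (mem_univ i))
      (sq_nonneg _)
  refine h2.trans (h1.trans (mul_le_mul_of_nonneg_right ?_ (Real.sqrt_nonneg _)))
  unfold cf
  have h4 : (2 * (R : ℝ) + 1) * ∑ i, ‖AV s i l‖ * ‖ab (sl i ω)‖ ^ 2 ≤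
      (2 * (R : ℝ) + 1) * (mu s l * ‖ω‖ ^ 2) := mul_le_mul_of_nonneg_left h3 (by positivity)
  linarith

/-- `mean_mu` and `mean_La`: choose `R`, then `n0`. -/
theorem cf_mean [Nonempty ι] [DecidableEq ι] (s : ι → G) {r : ℝ} (hr0 : 0 ≤ r) (hr1 : r < 1)
    (hr : ∀ f : L G, ‖PR s f‖ ≤ r * ‖f‖) {ε : ℝ} (hε : 0 < ε) :
    ∃ R n0 : ℕ, ∀ n, n0 ≤ n → ∀ ω : L (ι × G), EL n (cf s R ω) ≤ ε * n * ‖ω‖ ^ 2 := by
  have h1r : 0 < 1 - r := by linarith
  obtain ⟨R, hR⟩ := exists_pow_lt_of_lt_one (show 0 < ε * (1 - r) / 4 by positivity) hr1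
  have hR1 : (0 : ℝ) < 2 * (R : ℝ) + 1 := by positivity
  obtain ⟨n0, hn0⟩ := mean_mu s hr0 hr1 hr (show 0 < ε / (2 * (2 * (R : ℝ) + 1)) by positivity)
  refine ⟨R, n0, fun n hn ω => ?_⟩
  have h1 := hn0 n hn
  have h2 := mean_La s hr0 hr1 hr (fun i => ab (sl i ω)) R n
  have h3 : ∑ i, ‖ab (sl i ω)‖ ^ 2 = ‖ω‖ ^ 2 := by
    rw [← sum_sl ω]
    exact sum_congr rfl fun i _ => by rw [ab_norm]
  rw [h3] at h2
  have h4 : EL n (cf s R ω) = ((2 * (R : ℝ) + 1) * ‖ω‖ ^ 2) * EL n (mu s) +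
      EL n (La s (fun i => ab (sl i ω)) R) := by
    have e1 : EL n (cf s R ω) = EL n (fun l => ((2 * (R : ℝ) + 1) * ‖ω‖ ^ 2) • mu s l +
        La s (fun i => ab (sl i ω)) R l) := by
      refine EL_congr n fun l _ => ?_
      unfold cf
      rw [smul_eq_mul]
      ring
    rw [e1, EL_add n (fun l => ((2 * (R : ℝ) + 1) * ‖ω‖ ^ 2) • mu s l)
      (La s (fun i => ab (sl i ω)) R), EL_smul, smul_eq_mul]
  rw [h4]
  have h5 : 2 * r ^ R / (1 - r) ≤ ε / 2 := by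
    rw [div_le_iff₀ h1r]
    nlinarith
  have h6 : ((2 * (R : ℝ) + 1) * ‖ω‖ ^ 2) * EL n (mu s) ≤
      ((2 * (R : ℝ) + 1) * ‖ω‖ ^ 2) * (ε / (2 * (2 * (R : ℝ) + 1)) * n) :=
    mul_le_mul_of_nonneg_left h1 (by positivity)
  have h7 : ((2 * (R : ℝ) + 1) * ‖ω‖ ^ 2) * (ε / (2 * (2 * (R : ℝ) + 1)) * n) =
      ε / 2 * n * ‖ω‖ ^ 2 := by
    field_simp
  have h8 : 2 * r ^ R / (1 - r) * n * ‖ω‖ ^ 2 ≤ ε / 2 * n * ‖ω‖ ^ 2 :=
    mul_le_mul_of_nonneg_right (mul_le_mul_of_nonneg_right h5 (by positivity)) (sq_nonneg _)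
  rw [h7] at h6
  linarith

end Pool.Agent.Lib.MP_354e85_al.L2C
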