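import Pool.Agent.Lib.MP_354e85_al.L2C.Fin6

/-! The von Neumann dimension of the space of harmonic gradients in terms of suprema. -/

set_option autoImplicit false

namespace Pool.Agent.Lib.MP_354e85_al.L2C

open Finset L2B
open scoped InnerProductSpace

variable {G : Type} [Group G]

/-- The gradient of a Dirichlet function. -/
theorem exists_grad {ι : Type} [Fintype ι] (s : ι → G) (f : G → ℝ)
    (hs : Summable fun x => ∑ i, (f (x * s i) - f x) ^ 2) :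
    ∃ ω : L (ι × G), (∀ i x, ω (i, x) = f (x * s i) - f x) ∧
      ‖ω‖ ^ 2 = ∑' x, ∑ i, (f (x * s i) - f x) ^ 2 := by
  have h1 : ∀ i, Summable fun x => (f (x * s i) - f x) ^ 2 := by
    intro i
    refine Summable.of_nonneg_of_le (fun x => sq_nonneg _) (fun x => ?_) hs
    exact Finset.single_le_sum (f := fun i => (f (x * s i) - f x) ^ 2)
      (fun i _ => sq_nonneg _) (mem_univ i)
  have h2 : Summable fun p : ι × G => (f (p.2 * s p.1) - f p.2) ^ 2 :=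
    (summable_prod_of_nonneg (fun _ => sq_nonneg _)).2 ⟨h1, (hasSum_fintype _).summable⟩
  let ω : L (ι × G) := ⟨fun p => f (p.2 * s p.1) - f p.2, L_mem h2⟩
  refine ⟨ω, fun i x => rfl, ?_⟩
  rw [← sum_sl ω, (Summable.tsum_finsetSum fun i _ => h1 i)]
  refine Finset.sum_congr rfl fun i _ => ?_
  exact (L_hasSum (sl i ω)).tsum_eq.symm

/-- The elements of `HD s` are the gradients of the harmonic Dirichlet functions. -/
theorem HD_energy {ι : Type} [Fintype ι] {s : ι → G} {ω : L (ι × G)} {f : G → ℝ}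
    (hf : ∀ i x, ω (i, x) = f (x * s i) - f x) :
    (Summable fun x => ∑ i, (f (x * s i) - f x) ^ 2) ∧
      ∑' x, ∑ i, (f (x * s i) - f x) ^ 2 = ‖ω‖ ^ 2 := by
  have h1 : ∀ i, HasSum (fun x => (f (x * s i) - f x) ^ 2) (‖sl i ω‖ ^ 2) := by
    intro i
    have h := L_hasSum (sl i ω)
    have e : (fun x => (sl i ω x) ^ 2) = fun x => (f (x * s i) - f x) ^ 2 := by
      funext x
      rw [sl_apply, hf]
    rwa [e] at h
  have h2 := hasSum_sum (s := (univ : Finset ι)) fun i _ => h1 i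
  rw [sum_sl] at h2
  exact ⟨h2.summable, h2.tsum_eq⟩

/-- The squared norm of the projection of a basis vector is a supremum. -/
theorem proj_sup {ι : Type} [Fintype ι] [DecidableEq (ι × G)] (s : ι → G)
    (gen : ∀ g : G, ∃ l, pr s l = g) (i : ι) :
    ‖(HD s).topologicalClosure.starProjection (lp.single 2 ((i, 1) : ι × G) (1 : ℝ))‖ ^ 2 =
      sSup {r : ℝ | ∃ f : G → ℝ, ((∀ x, ∑ i, (f (x * s i) - f x) = 0) ∧
        (Summable fun x => ∑ i, (f (x * s i) - f x) ^ 2) ∧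
        ∑' x, ∑ i, (f (x * s i) - f x) ^ 2 ≤ 1) ∧ r = (f (s i) - f 1) ^ 2} := by
  set p := (HD s).topologicalClosure.starProjection (lp.single 2 ((i, 1) : ι × G) (1 : ℝ)) with hp
  have hcl : (HD s).topologicalClosure = HD s :=
    (HD_good s gen).closed.submodule_topologicalClosure_eq
  have hpm : p ∈ HD s := hcl.le (Submodule.starProjection_apply_mem _ _)
  have hval : ∀ ω ∈ HD s, ⟪ω, p⟫_ℝ = ω (i, 1) := by
    intro ω hω
    have h8 := Submodule.starProjection_inner_eq_zero (K := (HD s).topologicalClosure)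
      (lp.single 2 ((i, 1) : ι × G) (1 : ℝ)) ω (by rw [hcl]; exact hω)
    rw [inner_sub_left, sub_eq_zero] at h8
    rw [real_inner_comm, ← h8, real_inner_comm, lp.inner_single_right]
    simp
  set R : Set ℝ := {r : ℝ | ∃ f : G → ℝ, ((∀ x, ∑ i, (f (x * s i) - f x) = 0) ∧
        (Summable fun x => ∑ i, (f (x * s i) - f x) ^ 2) ∧
        ∑' x, ∑ i, (f (x * s i) - f x) ^ 2 ≤ 1) ∧ r = (f (s i) - f 1) ^ 2} with hR
  have hle : ∀ r ∈ R, r ≤ ‖p‖ ^ 2 := by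
    rintro r ⟨f, ⟨h1, h2, h3⟩, rfl⟩
    obtain ⟨ω, hω, hn⟩ := exists_grad s f h2
    have hmem : ω ∈ HD s := ⟨⟨f, hω⟩, fun x => by
      rw [Finset.sum_congr rfl fun i _ => hω i x]
      exact h1 x⟩
    have h4 := hval ω hmem
    have h5 : ω (i, 1) = f (s i) - f 1 := by rw [hω, one_mul]
    rw [← h5, ← h4]
    have h6 : |⟪ω, p⟫_ℝ| ≤ ‖ω‖ * ‖p‖ := abs_real_inner_le_norm _ _
    have h7 : ‖ω‖ ^ 2 ≤ 1 := by rw [hn]; exact h3
    calc ⟪ω, p⟫_ℝ ^ 2 = |⟪ω, p⟫_ℝ| ^ 2 := (sq_abs _).symm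
      _ ≤ (‖ω‖ * ‖p‖) ^ 2 := by gcongr
      _ = ‖ω‖ ^ 2 * ‖p‖ ^ 2 := by ring
      _ ≤ 1 * ‖p‖ ^ 2 := by gcongr
      _ = ‖p‖ ^ 2 := one_mul _
  have hpp : p (i, 1) = ‖p‖ ^ 2 := by
    rw [← hval p hpm, real_inner_self_eq_norm_sq]
  have hin : ‖p‖ ^ 2 ∈ R := by
    by_cases h0 : p = 0
    · refine ⟨fun _ => 0, ⟨fun x => by simp, ?_, ?_⟩, ?_⟩
      · simp
      · simp
      · rw [h0]
        simp
    · have hn : ‖p‖ ≠ 0 := norm_ne_zero_iff.2 h0
      have hq : ‖p‖⁻¹ • p ∈ HD s := (HD s).smul_mem _ hpm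
      obtain ⟨⟨f, hf⟩, hh⟩ := hq
      obtain ⟨h2, h3⟩ := HD_energy hf
      refine ⟨f, ⟨fun x => ?_, h2, ?_⟩, ?_⟩
      · rw [← hh x]
        exact Finset.sum_congr rfl fun i _ => (hf i x).symm
      · rw [h3, norm_smul, norm_inv, norm_norm, inv_mul_cancel₀ hn, one_pow]
      · have h5 := hf i 1
        rw [one_mul] at h5
        rw [← h5]
        have h6 : (‖p‖⁻¹ • p : L (ι × G)) (i, 1) = ‖p‖⁻¹ * p (i, 1) := rfl
        rw [h6, hpp]
        field_simp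
  exact le_antisymm (le_csSup ⟨_, hle⟩ hin) (csSup_le ⟨_, hin⟩ hle)

/-- The von Neumann dimension as a sum of suprema, for a finite symmetric generating set. -/
theorem dm_sup (S : Finset G) (hS : ∀ s ∈ S, s⁻¹ ∈ S) (h : Subgroup.closure (S : Set G) = ⊤) :
    dm (HD (fun s : {x // x ∈ S} => (s : G))) =
      ∑ s ∈ S, sSup {r : ℝ | ∃ f : G → ℝ, ((∀ x, ∑ t ∈ S, (f (x * t) - f x) = 0) ∧
        (Summable fun x => ∑ t ∈ S, (f (x * t) - f x) ^ 2) ∧
        ∑' x, ∑ t ∈ S, (f (x * t) - f x) ^ 2 ≤ 1) ∧ r = (f s - f 1) ^ 2} := by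
  classical
  rw [dm_single, ← Finset.sum_coe_sort S]
  refine Finset.sum_congr rfl fun i _ => ?_
  rw [proj_sup _ (gen_of_closure S hS h)]
  congr 1
  ext r
  have e1 : ∀ f : G → ℝ, ∀ x, ∑ t : {x // x ∈ S}, (f (x * t) - f x) =
      ∑ t ∈ S, (f (x * t) - f x) := fun f x => Finset.sum_coe_sort S (fun t => f (x * t) - f x)
  have e2 : ∀ f : G → ℝ, ∀ x, ∑ t : {x // x ∈ S}, (f (x * t) - f x) ^ 2 =
      ∑ t ∈ S, (f (x * t) - f x) ^ 2 :=
    fun f x => Finset.sum_coe_sort S (fun t => (f (x * t) - f x) ^ 2)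
  simp only [e1, e2]

end Pool.Agent.Lib.MP_354e85_al.L2C
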