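import Pool.Agent.Lib.MP_354e85_al.L2B.Walk

/-! Averages over the words of a fixed length. -/

set_option autoImplicit false

namespace Pool.Agent.Lib.MP_354e85_al.L2C

open Finset L2B
open scoped InnerProductSpace

variable {ι : Type} [Fintype ι]
variable {V : Type*} [AddCommGroup V] [Module ℝ V] {V' : Type*} [AddCommGroup V'] [Module ℝ V']

/-- The average of `F` over all words of length `n`. -/
noncomputable def EL : ℕ → (List ι → V) → V
  | 0, F => F []
  | n + 1, F => (Fintype.card ι : ℝ)⁻¹ • ∑ i, EL n (fun l => F (i :: l))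

theorem EL_zero (F : List ι → V) : EL 0 F = F [] := rfl

theorem EL_succ (n : ℕ) (F : List ι → V) :
    EL (n + 1) F = (Fintype.card ι : ℝ)⁻¹ • ∑ i, EL n (fun l => F (i :: l)) := rfl

theorem EL_add (n : ℕ) (F F' : List ι → V) :
    EL n (fun l => F l + F' l) = EL n F + EL n F' := by
  induction n generalizing F F' with
  | zero => rfl
  | succ n ih =>
    rw [EL_succ, EL_succ, EL_succ, ← smul_add, ← sum_add_distrib]
    congr 1
    exact sum_congr rfl fun i _ => ih _ _

theorem EL_smul (n : ℕ) (c : ℝ) (F : List ι → V) :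
    EL n (fun l => c • F l) = c • EL n F := by
  induction n generalizing F with
  | zero => rfl
  | succ n ih =>
    rw [EL_succ, EL_succ, smul_comm c]
    congr 1
    rw [smul_sum]
    exact sum_congr rfl fun i _ => ih _

theorem EL_map (n : ℕ) (A : V →ₗ[ℝ] V') (F : List ι → V) :
    A (EL n F) = EL n (fun l => A (F l)) := by
  induction n generalizing F with
  | zero => rfl
  | succ n ih =>
    rw [EL_succ, EL_succ, map_smul, map_sum]
    congr 1
    exact sum_congr rfl fun i _ => ih _

theorem EL_sum (n : ℕ) {κ : Type*} (S : Finset κ) (F : κ → List ι → V) :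
    EL n (fun l => ∑ a ∈ S, F a l) = ∑ a ∈ S, EL n (F a) := by
  classical
  induction S using Finset.induction_on with
  | empty =>
    have h := EL_smul n 0 (fun _ : List ι => (0 : V))
    simp only [zero_smul] at h
    simpa using h
  | insert a S ha ih =>
    rw [sum_insert ha, ← ih, ← EL_add]
    congr 1
    funext l
    rw [sum_insert ha]

theorem EL_const [Nonempty ι] (n : ℕ) (v : V) : EL n (fun _ : List ι => v) = v := by
  induction n with
  | zero => rfl
  | succ n ih =>
    have h1 : (Fintype.card ι : ℝ) ≠ 0 := by exact_mod_cast Fintype.card_ne_zero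
    rw [EL_succ, ih, sum_const, card_univ, ← Nat.cast_smul_eq_nsmul ℝ, smul_smul,
      inv_mul_cancel₀ h1, one_smul]

/-- only the values on the words of length `n` matter -/
theorem EL_congr (n : ℕ) {F F' : List ι → V} (h : ∀ l, l.length = n → F l = F' l) :
    EL n F = EL n F' := by
  induction n generalizing F F' with
  | zero => exact h [] rfl
  | succ n ih =>
    rw [EL_succ, EL_succ]
    congr 1
    refine sum_congr rfl fun i _ => ?_
    exact ih fun l hl => h (i :: l) (by simp [hl])

theorem EL_append (m n : ℕ) (F : List ι → V) :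
    EL (m + n) F = EL m (fun l => EL n (fun l' => F (l ++ l'))) := by
  induction m generalizing F with
  | zero => rw [zero_add]; rfl
  | succ m ih =>
    rw [show m + 1 + n = (m + n) + 1 by ring, EL_succ, EL_succ]
    congr 1
    refine sum_congr rfl fun i _ => ?_
    rw [ih]
    rfl

theorem EL_mono (n : ℕ) {F F' : List ι → ℝ} (h : ∀ l, l.length = n → F l ≤ F' l) :
    EL n F ≤ EL n F' := by
  induction n generalizing F F' with
  | zero => exact h [] rfl
  | succ n ih =>
    rw [EL_succ, EL_succ, smul_eq_mul, smul_eq_mul]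
    refine mul_le_mul_of_nonneg_left (sum_le_sum fun i _ => ?_) (by positivity)
    exact ih fun l hl => h (i :: l) (by simp [hl])

theorem EL_nonneg (n : ℕ) {F : List ι → ℝ} (h : ∀ l, 0 ≤ F l) : 0 ≤ EL n F := by
  induction n generalizing F with
  | zero => exact h []
  | succ n ih =>
    rw [EL_succ, smul_eq_mul]
    exact mul_nonneg (by positivity) (sum_nonneg fun i _ => ih fun l => h _)

theorem EL_sq [Nonempty ι] (n : ℕ) (F : List ι → ℝ) : (EL n F) ^ 2 ≤ EL n (fun l => F l ^ 2) := by
  set t : ℝ := EL n F with ht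
  have h1 : EL n (fun _ : List ι => (0 : ℝ)) ≤ EL n (fun l => (F l - t) ^ 2) :=
    EL_mono n fun l _ => sq_nonneg _
  have h2 : (fun l => (F l - t) ^ 2) = fun l => (F l ^ 2 + (-(2 * t)) • F l) + t ^ 2 := by
    funext g
    rw [smul_eq_mul]
    ring
  rw [h2, EL_add n (fun l => F l ^ 2 + (-(2 * t)) • F l) (fun _ => t ^ 2),
    EL_add n (fun l => F l ^ 2) (fun l => (-(2 * t)) • F l), EL_smul, EL_const, EL_const, ← ht,
    smul_eq_mul] at h1
  nlinarith

/-- `2 F F' ≤ t F ^ 2 + t⁻¹ F' ^ 2`, averaged. -/
theorem EL_cs [Nonempty ι] (n : ℕ) (F F' : List ι → ℝ) {t : ℝ} (ht : 0 < t) :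
    2 * EL n (fun l => F l * F' l) ≤ t * EL n (fun l => F l ^ 2) + t⁻¹ * EL n (fun l => F' l ^ 2) := by
  have e1 : 2 * EL n (fun l => F l * F' l) = EL n (fun l => (2 : ℝ) • (F l * F' l)) := by
    rw [EL_smul, smul_eq_mul]
  have e2 : t * EL n (fun l => F l ^ 2) + t⁻¹ * EL n (fun l => F' l ^ 2) =
      EL n (fun l => t • (F l ^ 2) + t⁻¹ • (F' l ^ 2)) := by
    rw [EL_add n (fun l => t • (F l ^ 2)) (fun l => t⁻¹ • (F' l ^ 2)), EL_smul, EL_smul,
      smul_eq_mul, smul_eq_mul]
  rw [e1, e2]
  refine EL_mono n fun l _ => ?_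
  simp only [smul_eq_mul]
  have h1 : t * t⁻¹ = 1 := mul_inv_cancel₀ ht.ne'
  have h2 : 0 ≤ t * (F l - t⁻¹ * F' l) ^ 2 := by positivity
  have h3 : t * (F l - t⁻¹ * F' l) ^ 2 =
      t * F l ^ 2 - 2 * (t * t⁻¹) * (F l * F' l) + (t * t⁻¹) * (t⁻¹ * F' l ^ 2) := by ring
  rw [h3, h1] at h2
  linarith

theorem EL_comm (n m : ℕ) (F : List ι → List ι → ℝ) :
    EL n (fun a => EL m (fun b => F a b)) = EL m (fun b => EL n (fun a => F a b)) := by
  induction n generalizing F with
  | zero => rfl
  | succ n ih =>
    simp only [EL_succ]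
    rw [EL_smul m ((Fintype.card ι : ℝ)⁻¹)
      (fun b => ∑ i, EL n (fun l => F (i :: l) b))]
    congr 1
    rw [EL_sum]
    exact sum_congr rfl fun i _ => ih _

/-- some word of length `n` has a value at most the average -/
theorem EL_norm_le {V : Type*} [NormedAddCommGroup V] [NormedSpace ℝ V] (n : ℕ)
    (F : List ι → V) : ‖EL n F‖ ≤ EL n (fun l => ‖F l‖) := by
  induction n generalizing F with
  | zero => exact le_refl _
  | succ n ih =>
    rw [EL_succ, EL_succ, norm_smul, smul_eq_mul]
    have h1 : ‖(Fintype.card ι : ℝ)⁻¹‖ = (Fintype.card ι : ℝ)⁻¹ :=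
      Real.norm_of_nonneg (by positivity)
    rw [h1]
    refine mul_le_mul_of_nonneg_left ?_ (by positivity)
    exact (norm_sum_le _ _).trans (sum_le_sum fun i _ => ih _)

/-- `EL` as a sum over `Fin n → ι`. -/
theorem EL_fin (n : ℕ) (F : List ι → V) :
    EL n F = ((Fintype.card ι : ℝ)⁻¹) ^ n • ∑ w : Fin n → ι, F (List.ofFn w) := by
  induction n generalizing F with
  | zero =>
    rw [EL_zero]
    simp
  | succ n ih =>
    rw [EL_succ]
    have h1 : ∑ w : Fin (n + 1) → ι, F (List.ofFn w) =
        ∑ i : ι, ∑ w : Fin n → ι, F (i :: List.ofFn w) := by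
      rw [← (Fin.consEquiv (fun _ : Fin (n + 1) => ι)).sum_comp, Fintype.sum_prod_type]
      refine sum_congr rfl fun i _ => sum_congr rfl fun w _ => ?_
      change F (List.ofFn (Fin.cons i w : Fin (n + 1) → ι)) = _
      rw [List.ofFn_cons]
    rw [h1, pow_succ', ← smul_smul]
    congr 1
    rw [smul_sum]
    exact sum_congr rfl fun i _ => ih _

/-- words and the random walk (`W` of L2B/Walk.lean, induction with `W_left`, private there) -/
theorem EL_W {G : Type} [Group G] (s : ι → G) (n : ℕ) (F : G → V) :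
    EL n (fun l => F (pr s l)) = W s n F := by
  induction n generalizing F with
  | zero => rfl
  | succ n ih =>
    have h := EL_append n 1 (fun l : List ι => F (pr s l))
    rw [h]
    have h2 : (fun l : List ι => EL 1 (fun l' => F (pr s (l ++ l')))) =
        fun l => (fun g => (Fintype.card ι : ℝ)⁻¹ • ∑ i, F (g * s i)) (pr s l) := by
      funext l
      rw [EL_succ]
      simp only [EL_zero]
      congr 1
      refine sum_congr rfl fun i _ => ?_
      congr 1
      simp [pr]
    rw [h2]
    exact ih (fun g => (Fintype.card ι : ℝ)⁻¹ • ∑ i, F (g * s i))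

/-- averages over the words of length `N * L` through words of length `N` over the alphabet
`Fin L → ι` -/
theorem EL_block (N L : ℕ) (F : List ι → V) :
    EL (N * L) F = EL N (fun l : List (Fin L → ι) => F (l.map List.ofFn).flatten) := by
  induction N generalizing F with
  | zero =>
    rw [Nat.zero_mul]
    rfl
  | succ N ih =>
    rw [show (N + 1) * L = L + N * L by ring, EL_append, EL_fin, EL_succ]
    have h : (Fintype.card (Fin L → ι) : ℝ)⁻¹ = ((Fintype.card ι : ℝ)⁻¹) ^ L := by
      rw [Fintype.card_fun, Fintype.card_fin, inv_pow]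
      push_cast
      rfl
    rw [h]
    congr 1
    refine sum_congr rfl fun w _ => ?_
    rw [ih]
    rfl

end Pool.Agent.Lib.MP_354e85_al.L2C
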